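import Pool.Agent.Lib.MP_ac4964_an.Decor

set_option autoImplicit false

open Set Filter Topology MeasureTheory

namespace Pool.Agent.Lib.MP_ac4964_an

section Labels

variable {q : ℕ} {r : ℕ}

lemma lin_A (hq : 2 * r + 2 ≤ q) {j : ℕ} (hj : j < r) : lin r ((j : ℕ) : ZMod q) = shA (j + 1) := by
  simp [lin, ZMod.val_natCast, Nat.mod_eq_of_lt (show j < q by omega), hj]

lemma lin_B (hq : 2 * r + 2 ≤ q) {j : ℕ} (hj : j < r) :
    lin r ((r + j : ℕ) : ZMod q) = shB (j + 1) := by
  rw [lin, ZMod.val_natCast, Nat.mod_eq_of_lt (show r + j < q by omega), if_neg (by omega),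
    if_pos (by omega), Nat.add_sub_cancel_left]

lemma lin_I (hq : 2 * r + 2 ≤ q) {j : ℕ} (hj : j < 2) :
    lin r ((2 * r + j : ℕ) : ZMod q) = AddMonoidHom.id _ := by
  rw [lin, ZMod.val_natCast, Nat.mod_eq_of_lt (show 2 * r + j < q by omega), if_neg (by omega),
    if_neg (by omega)]

lemma tr_ne (hq : 2 * r + 2 ≤ q) {j : ℕ} (hj : j < 2 * r + 2) (hj' : j ≠ 2 * r) (α : Bits) :
    tr r ((j : ℕ) : ZMod q) α = 0 := by
  rw [tr, ZMod.val_natCast, Nat.mod_eq_of_lt (show j < q by omega), if_neg hj']

lemma tr_T (hq : 2 * r + 2 ≤ q) (α : Bits) : tr r ((2 * r + 0 : ℕ) : ZMod q) α = (α, 0) := by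
  rw [tr, ZMod.val_natCast, Nat.mod_eq_of_lt (show 2 * r + 0 < q by omega), if_pos (by omega)]

end Labels

lemma abs_integral_le {X : Type*} [MeasurableSpace X] (P : Measure X) [IsProbabilityMeasure P]
    {f : X → ℝ} {C : ℝ} (h : ∀ x, |f x| ≤ C) : |∫ x, f x ∂P| ≤ C := by
  simpa using norm_integral_le_of_norm_le_const (μ := P) (f := f) (C := C) (Eventually.of_forall h)

variable {q : ℕ} [Fact q.Prime]

/-- The basic parameter describing the ball of depth `r`. -/
def par0 (q r : ℕ) : Par q := (((2 * r + 1 : ℕ) : ZMod q), 0, r, RU r)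

open Classical in
theorem core {r : ℕ} (hq : 2 * r + 2 ≤ q) (hr : 0 < r)
    {Y : Type*} [NormedAddCommGroup Y] [NormedSpace ℝ Y] [CompleteSpace Y] (hY : ¬ HasL1 Y)
    (α : Bits) (β : ℕ → Bits) (hne : ∀ k, β k ≠ α)
    (hβ : ∀ k i, i < k + 2 * r * r + r → β k i = α i)
    (y : ℕ → Set (KS q) → Y) (C η : ℝ) (hC : 0 ≤ C) (hη : 0 ≤ η)
    (hy : ∀ (k : ℕ) (ι : Type) (s : Finset ι) (c : ι → ℝ) (b : ι → Bool) (ρ : ι → ℕ)
      (z : ι → PP q) (φ : ι → Par q) (M : ℝ), (∀ i ∈ s, ρ i < r) → 0 ≤ M →
      (∀ e', |∑ i ∈ s, c i * (if e' ∈ Tst r (b i) (ρ i) (β k) k (z i) (φ i) then 1 else 0)| ≤ M) →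
      ‖∑ i ∈ s, c i • y k (Tst r (b i) (ρ i) (β k) k (z i) (φ i))‖ ≤ C * M + η * ∑ i ∈ s, |c i|)
    (l : KS q → Y →ₗ[ℝ] ℝ) (hl : ∀ y, Measurable fun e => l e y) (lam : ℝ) (hlam : 0 ≤ lam)
    (hl2 : ∀ e y, |l e y| ≤ lam * ‖y‖)
    (hnorm : ∀ k ρ e, ρ < r →
      1 / 2 ≤ l e (y k (Tst r false ρ (β k) k (Gam r false ρ α e) (par0 q r))))
    (hsmall : lam * (C / r + 4 * η) ≤ 1 / 20) : False := by
  obtain ⟨μ, _, _⟩ := exists_haar (ℕ → ZMod q)
  obtain ⟨ν, _, _⟩ := exists_haar (PP q)
  set E := lam * (C / r + 4 * η) with hE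
  have hr' : (0 : ℝ) < r := Nat.cast_pos.2 hr
  have hq0 : (0 : ℝ) < q := Nat.cast_pos.2 (by omega)
  let h : ℕ → Bool → ℕ → Par q → KS q → ℝ := fun k b ρ φ e =>
    l e (y k (Tst r b ρ (β k) k (Gam r b ρ α e) φ))
  have hm : ∀ k b ρ φ, Measurable (h k b ρ φ) := fun k b ρ φ =>
    measurable_test r l hl _ b ρ α _ k _
  have hB : ∀ k b ρ φ z, ρ < r → ‖y k (Tst r b ρ (β k) k z φ)‖ ≤ C + η := by
    intro k b ρ φ z hρ
    have := hy k Unit {()} (fun _ => 1) (fun _ => b) (fun _ => ρ) (fun _ => z) (fun _ => φ) 1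
      (fun _ _ => hρ) zero_le_one (fun e' => by
        rw [Finset.sum_singleton]; split_ifs <;> simp)
    simpa using this
  have hb : ∀ k b ρ φ e, ρ < r → |h k b ρ φ e| ≤ lam * (C + η) := fun k b ρ φ e hρ =>
    (hl2 _ _).trans (mul_le_mul_of_nonneg_left (hB _ _ _ _ _ hρ) hlam)
  have hi : ∀ k b ρ φ, ρ < r → Integrable (h k b ρ φ) (μ.prod ν) := fun k b ρ φ hρ =>
    Integrable.of_bound (hm k b ρ φ).aestronglyMeasurable _
      (Eventually.of_forall fun e => hb k b ρ φ e hρ)
  let H : ℕ → Bool → Par q → KS q → ℝ := fun k b φ e => ∑ ρ ∈ Finset.range r, h k b ρ φ e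
  have hHi : ∀ k b φ, Integrable (H k b φ) (μ.prod ν) := fun k b φ =>
    integrable_finsetSum _ fun ρ hρ => hi k b ρ φ (Finset.mem_range.1 hρ)
  let κ : ℕ → Bool → Par q → ℝ := fun k b φ => ∫ e, H k b φ e ∂(μ.prod ν)
  -- transfer
  have transfer : ∀ (ξ : ZMod q) (φ φ' : ℕ → Par q),
      (∀ k d, d ∈ pset r (φ k) ↔ lin r ξ d + tr r ξ (β k + α) ∈ pset r (φ' k)) →
      ∀ ε > 0, ∀ᶠ k in atTop, |κ k false (φ k) - κ k true (φ' k)| ≤ r * E + ε := by
    intro ξ φ φ' hφ ε hε
    let u : ZMod q → ℝ := fun x => (if x = ξ then 1 else 0) - 1 / q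
    have hu : ∑ x, u x = 0 := by
      simp [u, Finset.sum_sub_distrib, ZMod.card, hq0.ne']
    have hq1 : (1 : ℝ) / q ≤ 1 := by
      rw [div_le_one hq0]; exact_mod_cast (show 1 ≤ q by omega)
    have hq2 : (0 : ℝ) ≤ 1 / q := by positivity
    have hu1 : ∀ x, |u x| ≤ 1 := fun x => by
      simp only [u]
      split_ifs <;> rw [abs_le] <;> constructor <;> linarith
    have hum : ∀ k, Measurable fun e : KS q => u (e.1 k) := fun k =>
      ((uC u k).continuous.comp continuous_fst).measurable
    have hdec : ∀ (b : Bool) (ψ : ℕ → Par q),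
        Tendsto (fun k => ∫ e, H k b (ψ k) e * u (e.1 k) ∂(μ.prod ν)) atTop (𝓝 0) := by
      intro b ψ
      have h1 := tendsto_finsetSum (Finset.range r) fun ρ hρ =>
        decorrelate r hY μ ν l hl lam hlam hl2 y b ρ α β ψ (C + η)
          (fun k z => hB k b ρ _ z (Finset.mem_range.1 hρ)) u hu hu1
      rw [Finset.sum_const_zero] at h1
      refine h1.congr fun k => ?_
      rw [← integral_finsetSum _ fun ρ hρ => (hi k b ρ _ (Finset.mem_range.1 hρ)).mul_bdd
        (hum k).aestronglyMeasurable (Eventually.of_forall fun e => hu1 _)]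
      simp only [H, h, Finset.sum_mul]
    have h2 := ((hdec false φ).sub (hdec true φ')).const_mul (q : ℝ)
    rw [sub_zero, mul_zero] at h2
    filter_upwards [Metric.tendsto_nhds.1 h2 ε hε] with k hk
    rw [Real.dist_eq, sub_zero] at hk
    have hint : ∀ b ψ, Integrable (fun e => H k b ψ e * u (e.1 k)) (μ.prod ν) := fun b ψ =>
      (hHi k b ψ).mul_bdd (hum k).aestronglyMeasurable (Eventually.of_forall fun e => hu1 _)
    have h3 : ∀ e : KS q, |(H k false (φ k) e - H k true (φ' k) e) +
        q * (H k false (φ k) e * u (e.1 k) - H k true (φ' k) e * u (e.1 k))| ≤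
        r * E + q * (r * E) * u (e.1 k) := by
      intro e
      have e1 : (H k false (φ k) e - H k true (φ' k) e) +
          q * (H k false (φ k) e * u (e.1 k) - H k true (φ' k) e * u (e.1 k)) =
          (H k false (φ k) e - H k true (φ' k) e) * (q * if e.1 k = ξ then 1 else 0) := by
        simp only [u]; field_simp; ring
      have e2 : r * E + q * (r * E) * u (e.1 k) = (r * E) * (q * if e.1 k = ξ then 1 else 0) := by
        simp only [u]; field_simp; ring
      rw [e1, e2]
      split_ifs with hξ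
      · rw [abs_mul, mul_one, abs_of_pos hq0]
        refine mul_le_mul_of_nonneg_right ?_ hq0.le
        have h4 := hy k (Bool × ℕ) (Finset.univ ×ˢ Finset.range r)
          (fun i => if i.1 then -1 else 1) (fun i => i.1) (fun i => i.2)
          (fun i => Gam r i.1 i.2 α e) (fun i => if i.1 then φ' k else φ k) 1
          (fun i hi => Finset.mem_range.1 (Finset.mem_product.1 hi).2) zero_le_one (fun e' => by
            have := pointwise r (by omega) (α := α) (β := β k) (k := k) (fun i hi => by
              rw [Pi.add_apply, hβ k i (by omega), CharTwo.add_self_eq_zero]) e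
              (φ := φ k) (φ' := φ' k) (by rw [hξ]; exact hφ k) e'
            rw [Finset.sum_product, Fintype.sum_bool]
            simp only [if_true, Bool.false_eq_true, if_false, one_mul, neg_mul,
              Finset.sum_neg_distrib]
            rwa [neg_add_eq_sub])
        have h5 := (hl2 e _).trans (mul_le_mul_of_nonneg_left h4 hlam)
        rw [Finset.sum_product, Fintype.sum_bool, Finset.sum_product, Fintype.sum_bool] at h5
        simp only [if_true, Bool.false_eq_true, if_false, one_smul, neg_smul,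
          Finset.sum_neg_distrib, map_add, map_neg, map_sum, abs_neg, abs_one, Finset.sum_const,
          Finset.card_range, nsmul_eq_mul, mul_one] at h5
        rw [neg_add_eq_sub] at h5
        refine h5.trans ?_
        have : r * E = lam * (C + 4 * η * r) := by rw [hE]; field_simp
        rw [this]
        refine mul_le_mul_of_nonneg_left ?_ hlam
        nlinarith [mul_nonneg hη hr'.le]
      · simp
    have h4 : ∫ e : KS q, u (e.1 k) ∂(μ.prod ν) = 0 := by
      rw [integral_fun_fst (fun ω : ℕ → ZMod q => u (ω k))]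
      have := integral_mul_uC μ u hu (j := k) (c := 1) (fun _ _ => rfl)
      simp only [one_mul] at this
      simpa [uC] using this
    have hui : Integrable (fun e : KS q => u (e.1 k)) (μ.prod ν) :=
      Integrable.of_bound (hum k).aestronglyMeasurable _ (Eventually.of_forall fun e => hu1 _)
    have h5 := norm_integral_le_of_norm_le (μ := μ.prod ν)
      (f := fun e => (H k false (φ k) e - H k true (φ' k) e) +
        q * (H k false (φ k) e * u (e.1 k) - H k true (φ' k) e * u (e.1 k)))
      ((integrable_const (r * E)).add (hui.const_mul (q * (r * E)))) (Eventually.of_forall h3)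
    have i1 : Integrable (fun e => H k false (φ k) e - H k true (φ' k) e) (μ.prod ν) :=
      (hHi ..).sub (hHi ..)
    have i2 : Integrable (fun e : KS q =>
        q * (H k false (φ k) e * u (e.1 k) - H k true (φ' k) e * u (e.1 k))) (μ.prod ν) :=
      ((hint ..).sub (hint ..)).const_mul _
    rw [integral_add i1 i2, integral_const_mul, integral_sub (hHi ..) (hHi ..), integral_sub (hint ..) (hint ..),
      integral_add' (integrable_const _) (hui.const_mul _), integral_const_mul (q * (r * E)),
      h4] at h5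
    simp only [integral_const, probReal_univ, smul_eq_mul, one_mul, mul_zero, add_zero,
      Real.norm_eq_abs] at h5
    rw [abs_le] at h5 ⊢
    rw [abs_lt] at hk
    constructor <;> linarith [h5.1, h5.2, hk.1, hk.2]
  -- a general estimate for combinations with a common centre
  have comb : ∀ (k : ℕ) (b : Bool) (ι : Type) (s : Finset ι) (c : ι → ℝ) (φ : ι → Par q) (M : ℝ),
      0 ≤ M → (∀ d, |∑ i ∈ s, c i * (if d ∈ pset r (φ i) then 1 else 0)| ≤ M) →
      |∑ i ∈ s, c i * κ k b (φ i)| ≤ r * (lam * (C * M + η * ∑ i ∈ s, |c i|)) := by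
    intro k b ι s c φ M hM hφ
    have e1 : ∑ i ∈ s, c i * κ k b (φ i) =
        ∫ e, ∑ ρ ∈ Finset.range r, ∑ i ∈ s, c i * h k b ρ (φ i) e ∂(μ.prod ν) := by
      simp only [κ, ← integral_const_mul]
      rw [← integral_finsetSum _ fun i _ => (hHi ..).const_mul _]
      congr 1
      funext e
      rw [Finset.sum_comm]
      simp only [H, Finset.mul_sum]
    rw [e1]
    refine abs_integral_le _ fun e => (Finset.abs_sum_le_sum_abs _ _).trans ?_
    refine (Finset.sum_le_card_nsmul _ _ (lam * (C * M + η * ∑ i ∈ s, |c i|))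
      fun ρ hρ => ?_).trans (by simp)
    have h4 := hy k ι s c (fun _ => b) (fun _ => ρ) (fun _ => Gam r b ρ α e) φ M
      (fun _ _ => Finset.mem_range.1 hρ) hM (fun e' => by
        by_cases hc : Gam r b ρ (β k) e' - Gam r b ρ α e ∈ Cyl q k (dep r k b ρ)
        · simpa only [Tst, Cnd, mem_ofPred_eq, hc, true_and] using
            hφ ((Gam r b ρ (β k) e' - Gam r b ρ α e) k).1
        · simpa [Tst, Cnd, hc] using hM)
    have h5 := (hl2 e _).trans (mul_le_mul_of_nonneg_left h4 hlam)
    simpa only [map_sum, map_smul, smul_eq_mul] using h5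
  -- wandering sets are small
  have wander : ∀ (φ : ℕ → Par q) (ξ : ℕ → ZMod q) (φ' : ℕ → ℕ → Par q),
      (∀ j, j < r → ∀ k d, d ∈ pset r (φ k) ↔
        lin r (ξ j) d + tr r (ξ j) (β k + α) ∈ pset r (φ' j k)) →
      (∀ k i j d, i < r → j < i → d ∈ pset r (φ' i k) → d ∈ pset r (φ' j k) → False) →
      ∀ ε > 0, ∀ᶠ k in atTop, |κ k false (φ k)| ≤ 2 * r * E + ε := by
    intro φ ξ φ' h1 h2 ε hε
    have h3 : ∀ᶠ k in atTop, ∀ j ∈ Finset.range r,
        |κ k false (φ k) - κ k true (φ' j k)| ≤ r * E + ε := by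
      rw [eventually_all_finset]
      exact fun j hj => transfer (ξ j) φ (φ' j) (h1 j (Finset.mem_range.1 hj)) ε hε
    filter_upwards [h3] with k hk
    have h4 := comb k true ℕ (Finset.range r) (fun _ => 1) (fun j => φ' j k) 1 zero_le_one
      (fun d => by
        simp only [one_mul]
        rw [abs_of_nonneg (Finset.sum_nonneg fun _ _ => by split_ifs <;> simp)]
        refine sum_ite_le_one _ _ fun i hi j hj h5 h6 => ?_
        rcases lt_trichotomy i j with h | h | h
        · exact (h2 k j i d (Finset.mem_range.1 hj) h h6 h5).elim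
        · exact h
        · exact (h2 k i j d (Finset.mem_range.1 hi) h h5 h6).elim)
    simp only [one_mul, abs_one, Finset.sum_const, Finset.card_range, nsmul_eq_mul,
      mul_one] at h4
    have h5 : |∑ j ∈ Finset.range r, (κ k false (φ k) - κ k true (φ' j k))| ≤ r * (r * E + ε) := by
      refine (Finset.abs_sum_le_sum_abs _ _).trans ?_
      have := Finset.sum_le_card_nsmul _ _ _ hk
      rwa [Finset.card_range, nsmul_eq_mul] at this
    rw [Finset.sum_sub_distrib, Finset.sum_const, Finset.card_range, nsmul_eq_mul] at h5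
    have h6 : lam * (C + η * r) ≤ r * E := by
      have : r * E = lam * (C + 4 * η * r) := by rw [hE]; field_simp
      rw [this]
      refine mul_le_mul_of_nonneg_left ?_ hlam
      nlinarith [mul_nonneg hη hr'.le]
    have h7 : |r * κ k false (φ k)| ≤ r * (2 * r * E + ε) := by
      rw [abs_le] at h4 h5 ⊢
      have := mul_le_mul_of_nonneg_left h6 hr'.le
      constructor <;> nlinarith [h4.1, h4.2, h5.1, h5.2]
    rw [abs_mul, abs_of_pos hr'] at h7
    exact le_of_mul_le_mul_left h7 hr'
  -- the depth of the translation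
  have hM : ∀ k, ∃ M, r ≤ vM M (β k + α) ∧ vM M (β k + α) < M := by
    intro k
    have h1 : ∃ n, (β k + α) n ≠ 0 := by
      by_contra hc
      push Not at hc
      refine hne k ?_
      have h2 : β k + α = 0 := funext hc
      rw [← add_zero (β k), ← bits_add_self α, ← add_assoc, h2, zero_add]
    refine ⟨Nat.find h1 + 1, ?_⟩
    rw [vM_eq_min (Nat.find_spec h1) fun i hi => by simpa using Nat.find_min h1 hi]
    refine ⟨?_, by omega⟩
    have : r ≤ Nat.find h1 := by
      rw [Nat.le_find_iff]
      intro m hm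
      rw [Pi.add_apply, hβ k m (by omega), CharTwo.add_self_eq_zero]
      simp
    omega
  choose M hM1 hM2 using hM
  have hI := lin_I hq (show 1 < 2 by omega)
  have hT := lin_I hq (show 0 < 2 by omega)
  let I : ZMod q := ((2 * r + 1 : ℕ) : ZMod q)
  have hε : (0 : ℝ) < 1 / 200 := by norm_num
  have wA := wander (fun k => (I, 0, M k, RA r)) (fun j => ((r + j : ℕ) : ZMod q))
    (fun j k => (((r + j : ℕ) : ZMod q), 0, M k, RA r))
    (fun j hj k d => by
      simp only [pset, I, hI, mem_ofPred_eq, tr_ne hq (show r + j < 2 * r + 2 by omega) (by omega),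
        add_zero, lin_lin, AddMonoidHom.id_apply])
    (fun k i j d hi hj h1 h2 => by
      simp only [pset, mem_ofPred_eq, add_zero, lin_B hq hi, lin_B hq (hj.trans hi)] at h1 h2
      exact shB_disj (by omega) (by omega) (by omega) h1 h2) _ hε
  have wB := wander (fun k => (I, 0, M k, RB r (M k))) (fun j => ((j : ℕ) : ZMod q))
    (fun j k => (((j : ℕ) : ZMod q), 0, M k, RB r (M k)))
    (fun j hj k d => by
      simp only [pset, I, hI, mem_ofPred_eq, tr_ne hq (show j < 2 * r + 2 by omega) (by omega),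
        add_zero, lin_lin, AddMonoidHom.id_apply])
    (fun k i j d hi hj h1 h2 => by
      simp only [pset, mem_ofPred_eq, add_zero, lin_A hq hi, lin_A hq (hj.trans hi)] at h1 h2
      exact shA_disj (by omega) (by omega) (by omega) h1 h2) _ hε
  have wT := wander (fun k => (I, (β k + α, 0), M k, RU (M k))) (fun j => ((r + j : ℕ) : ZMod q))
    (fun j k => (((r + j : ℕ) : ZMod q), (β k + α, 0), M k, RU (M k)))
    (fun j hj k d => by
      simp only [pset, I, hI, mem_ofPred_eq, tr_ne hq (show r + j < 2 * r + 2 by omega) (by omega),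
        add_zero, lin_lin, AddMonoidHom.id_apply])
    (fun k i j d hi hj h1 h2 => by
      simp only [pset, mem_ofPred_eq, lin_B hq hi, lin_B hq (hj.trans hi)] at h1 h2
      exact shB_disj (by omega) (by omega) (by omega) (translate_subset (hM1 k) (hM2 k) h1)
        (translate_subset (hM1 k) (hM2 k) h2)) _ hε
  have t1 := transfer I (fun k => (I, (β k + α, 0), M k, RU (M k)))
    (fun k => (I, (β k + α, 0), M k, RU (M k)))
    (fun k d => by
      simp only [pset, I, hI, mem_ofPred_eq, tr_ne hq (show 2 * r + 1 < 2 * r + 2 by omega)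
        (by omega), add_zero, AddMonoidHom.id_apply]) _ hε
  have t2 := transfer ((2 * r + 0 : ℕ) : ZMod q) (fun k => (I, 0, M k, RU (M k)))
    (fun k => (I, (β k + α, 0), M k, RU (M k)))
    (fun k d => by
      rw [hT, tr_T hq]
      simp only [pset, I, hI, mem_ofPred_eq, add_zero, AddMonoidHom.id_apply,
        add_assoc, om_add_self]) _ hε
  obtain ⟨k, h1, h2, h3, h4, h5⟩ := (wA.and (wB.and (wT.and (t1.and t2)))).exists
  have hMr : r ≤ M k := (hM1 k).trans (hM2 k).le
  have h6 := comb k false (Fin 4) Finset.univ ![1, -1, -1, -1]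
    ![par0 q r, (I, 0, M k, RU (M k)), (I, 0, M k, RA r), (I, 0, M k, RB r (M k))] 0 le_rfl
    (fun d => by
      have := vset_split hMr d
      simp only [Fin.sum_univ_four, Matrix.cons_val_zero, Matrix.cons_val_one, Matrix.cons_val,
        pset, par0, I, hI, mem_ofPred_eq, add_zero, AddMonoidHom.id_apply, mem_vset_RU le_rfl]
      simp only [mem_vset_RU hMr, mem_vset_RU le_rfl] at this
      rw [this]
      refine le_of_eq (abs_eq_zero.2 ?_)
      ring)
  simp only [Fin.sum_univ_four, Matrix.cons_val_zero, Matrix.cons_val_one, Matrix.cons_val,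
    abs_one, abs_neg, mul_zero, zero_add] at h6
  have h7 : r * (1 / 2 : ℝ) ≤ κ k false (par0 q r) := by
    have : ∫ _e, r * (1 / 2 : ℝ) ∂(μ.prod ν) ≤ κ k false (par0 q r) := by
      refine integral_mono (integrable_const _) (hHi ..) fun e => ?_
      have := Finset.card_nsmul_le_sum (Finset.range r) (fun ρ => h k false ρ (par0 q r) e) (1 / 2)
        fun ρ hρ => hnorm k ρ e (Finset.mem_range.1 hρ)
      simpa using this
    simpa using this
  have h8 : lam * (η * (1 + 1 + 1 + 1)) ≤ E := by
    refine mul_le_mul_of_nonneg_left ?_ hlam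
    have : 0 ≤ C / r := by positivity
    linarith
  have h9 := mul_le_mul_of_nonneg_left h8 hr'.le
  have h10 := mul_le_mul_of_nonneg_left hsmall hr'.le
  have h11 : (1 : ℝ) ≤ r := by exact_mod_cast hr
  rw [abs_le] at h1 h2 h3 h4 h5 h6
  linarith [h1.2, h2.2, h3.2, h4.1, h5.2, h6.2]

end Pool.Agent.Lib.MP_ac4964_an
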