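import Pool.Agent.Lib.MP_ac4964_an.Ell1

set_option autoImplicit false

open Set Filter Topology MeasureTheory

namespace Pool.Agent.Lib.MP_ac4964_an

section Riesz

variable {F : Type} [Fintype F] [AddCommGroup F] [TopologicalSpace F] [DiscreteTopology F]
  [MeasurableSpace F] [DiscreteMeasurableSpace F]

/-- The function `ω ↦ u (ω j)`. -/
def uC (u : F → ℝ) (j : ℕ) : C(ℕ → F, ℝ) :=
  ⟨fun ω => u (ω j), continuous_of_discreteTopology.comp (continuous_apply j)⟩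

/-- `c` does not depend on coordinate `j`. -/
def Indep (j : ℕ) (c : C(ℕ → F, ℝ)) : Prop := ∀ ω x, c (Pi.single j x + ω) = c ω

lemma Indep.mul {j : ℕ} {c d : C(ℕ → F, ℝ)} (hc : Indep j c) (hd : Indep j d) : Indep j (c * d) :=
  fun ω x => by simp [hc ω x, hd ω x]

lemma indep_uC (u : F → ℝ) {i j : ℕ} (h : i ≠ j) : Indep j (uC u i) :=
  fun ω x => by simp [uC, Pi.single_eq_of_ne h]

lemma cint (ν : Measure (ℕ → F)) [IsFiniteMeasure ν] (c : C(ℕ → F, ℝ)) : Integrable c ν :=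
  c.continuous.integrable_of_hasCompactSupport (HasCompactSupport.of_compactSpace _)

lemma integral_mul_uC (ν : Measure (ℕ → F)) [IsProbabilityMeasure ν] [ν.IsAddLeftInvariant]
    (u : F → ℝ) (hu : ∑ x, u x = 0) {j : ℕ} {c : C(ℕ → F, ℝ)} (hc : Indep j c) :
    ∫ ω, (c * uC u j) ω ∂ν = 0 := by
  have h1 : ∀ x : F, ∫ ω, (c * uC u j) ω ∂ν = ∫ ω, (c * uC (fun z => u (x + z)) j) ω ∂ν := by
    intro x
    rw [← integral_add_left_eq_self (μ := ν) _ (Pi.single j x)]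
    congr 1
    funext ω
    simp [hc ω x, uC]
  have h2 : ∑ x : F, ∫ ω, (c * uC u j) ω ∂ν = 0 := by
    rw [Finset.sum_congr rfl fun x _ => h1 x, ← integral_finsetSum _ fun x _ => cint ν _]
    have : ∀ ω : ℕ → F, ∑ x : F, (c * uC (fun z => u (x + z)) j) ω = 0 := by
      intro ω
      simp only [ContinuousMap.mul_apply, uC, ContinuousMap.coe_mk, ← Finset.mul_sum]
      rw [Fintype.sum_equiv (Equiv.addRight (ω j)) (fun x => u (x + ω j)) u (fun _ => rfl), hu,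
        mul_zero]
    simp only [this, integral_zero]
  haveI : Nonempty F := ⟨0⟩
  simpa using h2

/-- A linear functional bounded by `Λ` times the `L¹(ν)` norm. -/
def Bdd (ν : Measure (ℕ → F)) (Λ : ℝ) (ψ : C(ℕ → F, ℝ) →ₗ[ℝ] ℝ) : Prop :=
  ∀ c, |ψ c| ≤ Λ * ∫ ω, |c ω| ∂ν

lemma bessel (ν : Measure (ℕ → F)) [IsProbabilityMeasure ν] [ν.IsAddLeftInvariant]
    (u : F → ℝ) (hu : ∑ x, u x = 0) (hu1 : ∀ x, |u x| ≤ 1) {Λ : ℝ} (hΛ : 0 ≤ Λ)
    {ψ : C(ℕ → F, ℝ) →ₗ[ℝ] ℝ} (hψ : Bdd ν Λ ψ) {c : C(ℕ → F, ℝ)}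
    (hc : ∀ᶠ j in atTop, Indep j c) :
    Tendsto (fun j => ψ (c * uC u j)) atTop (𝓝 0) := by
  classical
  by_contra hne
  rw [Metric.tendsto_nhds] at hne
  push Not at hne
  obtain ⟨η, hη, hfr⟩ := hne
  have hinf : {j | η ≤ |ψ (c * uC u j)| ∧ Indep j c}.Infinite := by
    rw [← Nat.frequently_atTop_iff_infinite]
    refine (hfr.and_eventually hc).mono fun j hj => ⟨?_, hj.2⟩
    simpa [Real.dist_eq] using hj.1
  obtain ⟨n, hn⟩ := exists_nat_gt (Λ * (‖c‖ ^ 2 + 1) / η)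
  have hn0 : (0 : ℝ) < n := lt_of_le_of_lt (by positivity) hn
  obtain ⟨J, hJ, hcard⟩ := hinf.exists_subset_card_eq (n ^ 2)
  let s : ℕ → ℝ := fun j => if 0 ≤ ψ (c * uC u j) then 1 else -1
  have hs2 : ∀ j, s j * s j = 1 := fun j => by simp only [s]; split_ifs <;> simp
  let v : C(ℕ → F, ℝ) := ∑ j ∈ J, s j • (c * uC u j)
  have h1 : (n : ℝ) ^ 2 * η ≤ ψ v := by
    simp only [v, map_sum, map_smul, smul_eq_mul]
    have : ∑ j ∈ J, η ≤ ∑ j ∈ J, s j * ψ (c * uC u j) := by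
      refine Finset.sum_le_sum fun j hj => ?_
      have := (hJ hj).1
      simp only [s]
      split_ifs with h
      · rwa [abs_of_nonneg h, ← one_mul (ψ _)] at this
      · rw [abs_of_neg (not_le.1 h)] at this; linarith
    simpa [hcard] using this
  have h2 : ∫ ω, (v * v) ω ∂ν ≤ (n : ℝ) ^ 2 * ‖c‖ ^ 2 := by
    have e : v * v = ∑ i ∈ J, ∑ j ∈ J, (s i * s j) • (c * c * uC u i * uC u j) := by
      simp only [v, Finset.sum_mul_sum]
      refine Finset.sum_congr rfl fun i _ => Finset.sum_congr rfl fun j _ => ?_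
      ext ω; simp; ring
    have e2 : ∫ ω, (v * v) ω ∂ν =
        ∑ i ∈ J, ∑ j ∈ J, (s i * s j) * ∫ ω, (c * c * uC u i * uC u j) ω ∂ν := by
      rw [e]
      simp only [ContinuousMap.coe_sum, Finset.sum_apply]
      rw [integral_finsetSum _ fun i _ => integrable_finsetSum _ fun j _ => cint ν _]
      refine Finset.sum_congr rfl fun i _ => ?_
      rw [integral_finsetSum _ fun j _ => cint ν _]
      refine Finset.sum_congr rfl fun j _ => ?_
      rw [← integral_const_mul]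
      simp
    rw [e2]
    have : ∀ i ∈ J, ∑ j ∈ J, (s i * s j) * ∫ ω, (c * c * uC u i * uC u j) ω ∂ν ≤ ‖c‖ ^ 2 := by
      intro i hi
      rw [Finset.sum_eq_single i]
      · rw [hs2, one_mul]
        have : ∫ ω, (c * c * uC u i * uC u i) ω ∂ν ≤ ∫ ω, ‖c‖ ^ 2 ∂ν := by
          refine integral_mono (cint ν _) (integrable_const _) fun ω => ?_
          have h3 : |c ω| ≤ ‖c‖ := c.norm_coe_le_norm ω
          have h4 := hu1 (ω i)
          have h5 : c ω * c ω ≤ ‖c‖ ^ 2 := by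
            rw [← abs_mul_abs_self, sq]; exact mul_self_le_mul_self (abs_nonneg _) h3
          have h6 : u (ω i) * u (ω i) ≤ 1 := by
            rw [← abs_mul_abs_self]; nlinarith [abs_nonneg (u (ω i))]
          simp only [ContinuousMap.mul_apply, uC, ContinuousMap.coe_mk]
          nlinarith [mul_self_nonneg (c ω), mul_self_nonneg (u (ω i))]
        simpa using this
      · intro j hj hji
        rw [integral_mul_uC ν u hu (((hJ hj).2.mul (hJ hj).2).mul (indep_uC u hji.symm)), mul_zero]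
      · intro h; exact absurd hi h
    refine (Finset.sum_le_sum this).trans ?_
    simp [hcard]
  have h3 : ∫ ω, |v ω| ∂ν ≤ n * (‖c‖ ^ 2 + 1) := by
    have : ∫ ω, |v ω| ∂ν ≤ ∫ ω, ((v * v) ω / n + n) ∂ν := by
      refine integral_mono (cint ν v).abs (((cint ν _).div_const _).add (integrable_const _))
        fun ω => ?_
      simp only [ContinuousMap.mul_apply]
      rw [← abs_mul_abs_self, div_add' _ _ _ hn0.ne', le_div_iff₀ hn0]
      nlinarith [sq_nonneg (|v ω| - n), abs_nonneg (v ω)]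
    rw [integral_add ((cint ν _).div_const _) (integrable_const _), integral_div] at this
    simp only [integral_const, probReal_univ, smul_eq_mul, one_mul] at this
    have h4 : (∫ ω, (v * v) ω ∂ν) / n ≤ n * ‖c‖ ^ 2 := by
      rw [div_le_iff₀ hn0]; nlinarith
    linarith
  have h4 := (le_abs_self _).trans (hψ v)
  have h5 : (n : ℝ) ^ 2 * η ≤ Λ * (n * (‖c‖ ^ 2 + 1)) :=
    h1.trans (h4.trans (mul_le_mul_of_nonneg_left h3 hΛ))
  rw [div_lt_iff₀ hη] at hn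
  nlinarith

lemma exists_ultralim (ν : Measure (ℕ → F)) (Λ : ℝ) (ψ : ℕ → C(ℕ → F, ℝ) →ₗ[ℝ] ℝ)
    (hψ : ∀ k, Bdd ν Λ (ψ k)) (𝒰 : Ultrafilter ℕ) :
    ∃ G : C(ℕ → F, ℝ) →ₗ[ℝ] ℝ, Bdd ν Λ G ∧ ∀ c, Tendsto (fun k => ψ k c) 𝒰 (𝓝 (G c)) := by
  have h : ∀ c : C(ℕ → F, ℝ), ∃ x, |x| ≤ Λ * ∫ ω, |c ω| ∂ν ∧
      Tendsto (fun k => ψ k c) 𝒰 (𝓝 x) := by
    intro c
    obtain ⟨x, hx1, hx2⟩ := (isCompact_Icc (a := -(Λ * ∫ ω, |c ω| ∂ν))
      (b := Λ * ∫ ω, |c ω| ∂ν)).ultrafilter_le_nhds (𝒰.map fun k => ψ k c) (by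
        rw [le_principal_iff, Ultrafilter.coe_map, mem_map]
        exact univ_mem' fun k => abs_le.1 (hψ k c))
    exact ⟨x, abs_le.2 hx1, hx2⟩
  choose G hG1 hG2 using h
  refine ⟨⟨⟨G, fun c d => ?_⟩, fun r c => ?_⟩, hG1, hG2⟩
  · refine tendsto_nhds_unique (hG2 (c + d)) ?_
    simpa using (hG2 c).add (hG2 d)
  · refine tendsto_nhds_unique (hG2 (r • c)) ?_
    simpa using (hG2 c).const_mul r

/-- The sign attached to a boolean. -/
def sg (b : Bool) : ℝ := if b then 1 else -1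

/-- Finite Riesz products. -/
noncomputable def rp (u : F → ℝ) (k : ℕ → ℕ) (m : ℕ) (ε : ℕ → Bool) : C(ℕ → F, ℝ) :=
  ∏ j ∈ Finset.range m, (1 + sg (ε j) • uC u (k j))

lemma rp_succ (u : F → ℝ) (k : ℕ → ℕ) (m : ℕ) (ε : ℕ → Bool) :
    rp u k (m + 1) ε = rp u k m ε + sg (ε m) • (rp u k m ε * uC u (k m)) := by
  rw [rp, Finset.prod_range_succ, mul_add, mul_one, mul_smul_comm]; rfl

lemma rp_congr (u : F → ℝ) {k k' : ℕ → ℕ} {m : ℕ} {ε ε' : ℕ → Bool}
    (h : ∀ j, j < m → k j = k' j) (h' : ∀ j, j < m → ε j = ε' j) : rp u k m ε = rp u k' m ε' :=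
  Finset.prod_congr rfl fun j hj => by
    rw [h j (Finset.mem_range.1 hj), h' j (Finset.mem_range.1 hj)]

lemma rp_finite (u : F → ℝ) (k : ℕ → ℕ) (m : ℕ) : (range (rp u k m)).Finite := by
  refine (finite_range fun e : Fin m → Bool =>
    rp u k m fun j => if h : j < m then e ⟨j, h⟩ else false).subset ?_
  rintro _ ⟨ε, rfl⟩
  exact ⟨fun j => ε j, rp_congr u (fun _ _ => rfl) fun j hj => by simp [hj]⟩

lemma rp_indep (u : F → ℝ) (k : ℕ → ℕ) (m : ℕ) (ε : ℕ → Bool) :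
    ∀ᶠ j in atTop, Indep j (rp u k m ε) := by
  induction m with
  | zero => exact Eventually.of_forall fun j ω x => by simp [rp]
  | succ m ih =>
    filter_upwards [ih, eventually_gt_atTop (k m)] with j h1 h2 ω x
    rw [rp_succ]
    simp [h1 ω x, indep_uC u h2.ne ω x]

lemma abs_sg (b : Bool) : |sg b| = 1 := by cases b <;> simp [sg]

lemma rp_nonneg (u : F → ℝ) (hu1 : ∀ x, |u x| ≤ 1) (k : ℕ → ℕ) (m : ℕ) (ε : ℕ → Bool)
    (ω : ℕ → F) : 0 ≤ rp u k m ε ω := by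
  rw [rp, ContinuousMap.coe_prod, Finset.prod_apply]
  refine Finset.prod_nonneg fun j _ => ?_
  have h := abs_le.1 (hu1 (ω (k j)))
  cases h2 : ε j <;> simp [sg, uC] <;> linarith

lemma rp_drift (u : F → ℝ) (k : ℕ → ℕ) (ε : ℕ → Bool) (ψ : C(ℕ → F, ℝ) →ₗ[ℝ] ℝ) (τ : ℝ)
    (hτ : 0 ≤ τ) (m n : ℕ) (hmn : m ≤ n)
    (h : ∀ j, m ≤ j → |ψ (rp u k j ε * uC u (k j))| ≤ τ / 2 ^ j) :
    |ψ (rp u k n ε) - ψ (rp u k m ε)| ≤ 2 * τ := by
  have key : |ψ (rp u k n ε) - ψ (rp u k m ε)| ≤ 2 * τ - 2 * τ / 2 ^ n := by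
    induction n, hmn using Nat.le_induction with
    | base =>
      have : (1 : ℝ) ≤ 2 ^ m := one_le_pow₀ (by norm_num)
      have : 2 * τ / 2 ^ m ≤ 2 * τ := div_le_self (by positivity) this
      simp only [sub_self, abs_zero]; linarith
    | succ n hmn ih =>
      rw [rp_succ, map_add, map_smul, smul_eq_mul]
      have h1 := h n hmn
      have h2 : |sg (ε n) * ψ (rp u k n ε * uC u (k n))| ≤ τ / 2 ^ n := by
        rwa [abs_mul, abs_sg, one_mul]
      have h3 : 2 * τ / 2 ^ (n + 1) = τ / 2 ^ n := by rw [pow_succ]; field_simp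
      have h4 : 2 * τ / 2 ^ n = 2 * (τ / 2 ^ n) := by ring
      rw [h3]
      rw [h4] at ih
      rw [abs_le] at ih h2 ⊢
      constructor <;> linarith [ih.1, ih.2, h2.1, h2.2]
  have : 0 ≤ 2 * τ / 2 ^ n := by positivity
  linarith

/-- Integration against a bounded measurable density. -/
noncomputable def intL (ν : Measure (ℕ → F)) [IsFiniteMeasure ν] (f : (ℕ → F) → ℝ)
    (hf : Measurable f) (Λ : ℝ) (hΛ : ∀ ω, |f ω| ≤ Λ) : C(ℕ → F, ℝ) →ₗ[ℝ] ℝ where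
  toFun c := ∫ ω, f ω * c ω ∂ν
  map_add' c d := by
    rw [← integral_add ((cint ν c).bdd_mul hf.aestronglyMeasurable (Eventually.of_forall hΛ))
      ((cint ν d).bdd_mul hf.aestronglyMeasurable (Eventually.of_forall hΛ))]
    simp [mul_add]
  map_smul' r c := by
    simp only [RingHom.id_apply, smul_eq_mul]
    rw [← integral_const_mul]
    congr 1; funext ω; simp; ring

lemma intL_bdd (ν : Measure (ℕ → F)) [IsFiniteMeasure ν] (f : (ℕ → F) → ℝ)
    (hf : Measurable f) (Λ : ℝ) (hΛ : ∀ ω, |f ω| ≤ Λ) : Bdd ν Λ (intL ν f hf Λ hΛ) := by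
  intro c
  refine abs_integral_le_integral_abs.trans ?_
  rw [← integral_const_mul]
  refine integral_mono ((cint ν c).bdd_mul hf.aestronglyMeasurable
    (Eventually.of_forall hΛ)).abs ((cint ν c).abs.const_mul _) fun ω => ?_
  simp only [abs_mul]
  exact mul_le_mul_of_nonneg_right (hΛ ω) (abs_nonneg _)

theorem riesz_tendsto {Y : Type*} [NormedAddCommGroup Y] [NormedSpace ℝ Y] [CompleteSpace Y]
    (hY : ¬ HasL1 Y) (ν : Measure (ℕ → F)) [IsProbabilityMeasure ν] [ν.IsAddLeftInvariant]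
    (u : F → ℝ) (hu : ∑ x, u x = 0) (hu1 : ∀ x, |u x| ≤ 1)
    (l : (ℕ → F) → Y →ₗ[ℝ] ℝ) (hl : ∀ y, Measurable fun ω => l ω y) (lam : ℝ) (hlam : 0 ≤ lam)
    (hl2 : ∀ ω y, |l ω y| ≤ lam * ‖y‖) (y : ℕ → Y) (B : ℝ) (hB : ∀ k, ‖y k‖ ≤ B) :
    Tendsto (fun k => ∫ ω, l ω (y k) * u (ω k) ∂ν) atTop (𝓝 0) := by
  classical
  by_contra hne
  rw [Metric.tendsto_nhds] at hne
  push Not at hne
  obtain ⟨δ, hδ, hfr⟩ := hne
  have hB0 : 0 ≤ B := (norm_nonneg _).trans (hB 0)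
  let y' : ℕ → Y := fun k => if 0 ≤ ∫ ω, l ω (y k) * u (ω k) ∂ν then y k else -y k
  have hB' : ∀ k, ‖y' k‖ ≤ B := fun k => by
    simp only [y']; split_ifs <;> simp [hB k]
  have hfr' : ∃ᶠ k in atTop, δ ≤ ∫ ω, l ω (y' k) * u (ω k) ∂ν := by
    refine hfr.mono fun k hk => ?_
    rw [Real.dist_eq, sub_zero] at hk
    simp only [y']
    split_ifs with h
    · rwa [abs_of_nonneg h] at hk
    · rw [abs_of_neg (not_le.1 h), ← integral_neg] at hk
      simpa using hk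
  have hl3 : ∀ k ω, |l ω (y' k)| ≤ lam * B :=
    fun k ω => (hl2 ω _).trans (mul_le_mul_of_nonneg_left (hB' k) hlam)
  have hl4 : ∀ k ω, |l ω (y' k) * u (ω k)| ≤ lam * B := fun k ω => by
    rw [abs_mul]
    exact (mul_le_of_le_one_right (abs_nonneg _) (hu1 _)).trans (hl3 k ω)
  have hm4 : ∀ k, Measurable fun ω => l ω (y' k) * u (ω k) :=
    fun k => (hl _).mul (uC u k).continuous.measurable
  let ψ : ℕ → C(ℕ → F, ℝ) →ₗ[ℝ] ℝ := fun k => intL ν _ (hl (y' k)) _ (hl3 k)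
  let φ : ℕ → C(ℕ → F, ℝ) →ₗ[ℝ] ℝ := fun k => intL ν _ (hm4 k) _ (hl4 k)
  let E : C(ℕ → F, ℝ) →ₗ[ℝ] ℝ := intL ν (fun _ => 1) measurable_const 1 (fun _ => by simp)
  have hφψ : ∀ k c, ψ k (c * uC u k) = φ k c := fun k c => by
    show ∫ ω, _ ∂ν = ∫ ω, _ ∂ν
    congr 1; funext ω; simp [uC]; ring
  haveI : (atTop ⊓ 𝓟 {k | δ ≤ ∫ ω, l ω (y' k) * u (ω k) ∂ν}).NeBot := frequently_iff_neBot.1 hfr'
  let 𝒰 : Ultrafilter ℕ := Ultrafilter.of (atTop ⊓ 𝓟 {k | δ ≤ ∫ ω, l ω (y' k) * u (ω k) ∂ν})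
  have h𝒰1 : (𝒰 : Filter ℕ) ≤ atTop := (Ultrafilter.of_le _).trans inf_le_left
  have h𝒰2 : ∀ᶠ k in (𝒰 : Filter ℕ), δ ≤ φ k 1 := by
    have : (𝒰 : Filter ℕ) ≤ 𝓟 {k | δ ≤ ∫ ω, l ω (y' k) * u (ω k) ∂ν} :=
      (Ultrafilter.of_le _).trans inf_le_right
    filter_upwards [le_principal_iff.1 this] with k hk
    simpa [φ, intL] using hk
  obtain ⟨G, hG1, hG2⟩ := exists_ultralim ν (lam * B) ψ (fun k => intL_bdd _ _ _ _ _) 𝒰
  obtain ⟨Φ, hΦ1, hΦ2⟩ := exists_ultralim ν (lam * B) φ (fun k => intL_bdd _ _ _ _ _) 𝒰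
  have hΦ3 : δ ≤ Φ 1 := ge_of_tendsto (hΦ2 1) h𝒰2
  set τ : ℝ := δ / 16 with hτ
  have hτ0 : 0 < τ := by positivity
  let Good : ℕ → (ℕ → ℕ) → ℕ → Prop := fun m k c => ∀ r ∈ range (rp u k m),
    |ψ c r - G r| ≤ τ ∧ |φ c r - Φ r| ≤ τ ∧ |G (r * uC u c)| ≤ τ / 2 ^ m ∧
      |Φ (r * uC u c)| ≤ τ / 2 ^ m ∧ |E (r * uC u c)| ≤ τ / 2 ^ m ∧
      ∀ j ∈ Finset.range m, |ψ (k j) (r * uC u c)| ≤ τ / 2 ^ m
  have step : ∀ m k, ∃ c, Good m k c := by
    intro m k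
    refine Eventually.exists (f := (𝒰 : Filter ℕ)) ?_
    rw [(rp_finite u k m).eventually_all]
    rintro _ ⟨ε, rfl⟩
    have hτm : 0 < τ / 2 ^ m := by positivity
    have hb : ∀ {Λ : ℝ} {χ : C(ℕ → F, ℝ) →ₗ[ℝ] ℝ}, 0 ≤ Λ → Bdd ν Λ χ →
        ∀ᶠ c in (𝒰 : Filter ℕ), |χ (rp u k m ε * uC u c)| ≤ τ / 2 ^ m := by
      intro Λ χ h1 h2
      have := (Metric.tendsto_nhds.1 (bessel ν u hu hu1 h1 h2 (rp_indep u k m ε))) _ hτm
      exact (this.filter_mono h𝒰1).mono fun c hc => by simpa [Real.dist_eq] using hc.le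
    refine Eventually.and ?_ (Eventually.and ?_ (Eventually.and (hb (by positivity) hG1)
      (Eventually.and (hb (by positivity) hΦ1) (Eventually.and (hb zero_le_one (intL_bdd _ _ _ _ _)) ?_))))
    · exact (Metric.tendsto_nhds.1 (hG2 _) _ hτ0).mono fun c hc => by
        simpa [Real.dist_eq] using hc.le
    · exact (Metric.tendsto_nhds.1 (hΦ2 _) _ hτ0).mono fun c hc => by
        simpa [Real.dist_eq] using hc.le
    · rw [eventually_all_finset]
      exact fun j _ => hb (by positivity) (intL_bdd _ _ _ _ _)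
  choose nxt hnxt using step
  let ks : ℕ → ℕ → ℕ := fun m => Nat.rec (fun _ => 0)
    (fun m kk => Function.update kk m (nxt m kk)) m
  let k : ℕ → ℕ := fun m => nxt m (ks m)
  have hks : ∀ m j, j < m → ks m j = k j := by
    intro m
    induction m with
    | zero => simp
    | succ m ih =>
      intro j hj
      show Function.update (ks m) m (nxt m (ks m)) j = _
      rcases Nat.lt_succ_iff_lt_or_eq.1 hj with hj | rfl
      · rw [Function.update_of_ne hj.ne, ih j hj]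
      · simp [k]
  have hk : ∀ m ε, |ψ (k m) (rp u k m ε) - G (rp u k m ε)| ≤ τ ∧
      |φ (k m) (rp u k m ε) - Φ (rp u k m ε)| ≤ τ ∧
      |G (rp u k m ε * uC u (k m))| ≤ τ / 2 ^ m ∧ |Φ (rp u k m ε * uC u (k m))| ≤ τ / 2 ^ m ∧
      |E (rp u k m ε * uC u (k m))| ≤ τ / 2 ^ m ∧
      ∀ j, j < m → |ψ (k j) (rp u k m ε * uC u (k m))| ≤ τ / 2 ^ m := by
    intro m ε
    have h := hnxt m (ks m) (rp u k m ε) ⟨ε, rp_congr u (hks m) fun _ _ => rfl⟩
    refine ⟨h.1, h.2.1, h.2.2.1, h.2.2.2.1, h.2.2.2.2.1, fun j hj => ?_⟩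
    have := h.2.2.2.2.2 j (Finset.mem_range.2 hj)
    rwa [hks m j hj] at this
  have hr0 : ∀ ε, rp u k 0 ε = 1 := fun ε => by simp [rp]
  have hmain : ∀ m n ε, m < n → δ / 2 ≤ sg (ε m) * (ψ (k m) (rp u k n ε) - G 1) := by
    intro m n ε hmn
    have h1 := rp_drift u k ε G τ hτ0.le 0 m (Nat.zero_le _) fun j _ => (hk j ε).2.2.1
    have h2 := rp_drift u k ε Φ τ hτ0.le 0 m (Nat.zero_le _) fun j _ => (hk j ε).2.2.2.1
    have h3 := rp_drift u k ε (ψ (k m)) τ hτ0.le (m + 1) n hmn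
      fun j hj => (hk j ε).2.2.2.2.2 m hj
    have h4 := (hk m ε).1
    have h5 := (hk m ε).2.1
    rw [rp_succ, map_add, map_smul, hφψ, smul_eq_mul] at h3
    rw [hr0] at h1 h2
    rw [abs_le] at h1 h2 h3 h4 h5
    cases h6 : ε m <;> simp only [h6, sg, if_true, if_false, Bool.false_eq_true] at h3 ⊢ <;>
      linarith [h1.1, h1.2, h2.1, h2.2, h3.1, h3.2, h4.1, h4.2, h5.1, h5.2]
  have hE : ∀ n ε (x : Y), |∫ ω, l ω x * rp u k n ε ω ∂ν| ≤ lam * ‖x‖ * (1 + 2 * τ) := by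
    intro n ε x
    have h1 := rp_drift u k ε E τ hτ0.le 0 n (Nat.zero_le _) fun j _ => (hk j ε).2.2.2.2.1
    have h2 := intL_bdd ν _ (hl x) _ (fun ω => hl2 ω x) (rp u k n ε)
    have h3 : ∫ ω, |rp u k n ε ω| ∂ν = E (rp u k n ε) := by
      simp [E, intL, abs_of_nonneg (rp_nonneg u hu1 k n ε _)]
    have h4 : E 1 = 1 := by simp [E, intL]
    rw [hr0, h4, abs_le] at h1
    rw [h3] at h2
    exact h2.trans (mul_le_mul_of_nonneg_left (by linarith [h1.2]) (by positivity))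
  refine hY (hasL1_of_seq (fun m => y' (k m)) B (δ / (2 * (lam + 1) * (1 + 2 * τ)))
    (by positivity) (fun m => hB' _) fun N a => ?_)
  let ε : ℕ → Bool := fun m => decide (0 ≤ a m)
  have hsum : ∀ ε', ∫ ω, l ω (∑ n ∈ Finset.range N, a n • y' (k n)) * rp u k N ε' ω ∂ν =
      ∑ n ∈ Finset.range N, a n * ψ (k n) (rp u k N ε') := by
    intro ε'
    simp only [map_sum, map_smul, smul_eq_mul, Finset.sum_mul]
    rw [integral_finsetSum]
    · refine Finset.sum_congr rfl fun n _ => ?_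
      simp only [ψ, intL, LinearMap.coe_mk, AddHom.coe_mk]
      rw [← integral_const_mul]
      simp [mul_assoc]
    · intro n _
      simp only [mul_assoc]
      exact ((cint ν _).bdd_mul (hl _).aestronglyMeasurable
        (Eventually.of_forall (hl3 _))).const_mul _
  have h1 := hE N ε (∑ n ∈ Finset.range N, a n • y' (k n))
  have h2 := hE N (fun m => !ε m) (∑ n ∈ Finset.range N, a n • y' (k n))
  rw [hsum, abs_le] at h1 h2
  have h3 : δ * ∑ n ∈ Finset.range N, |a n| ≤ ∑ n ∈ Finset.range N, a n * ψ (k n) (rp u k N ε) -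
      ∑ n ∈ Finset.range N, a n * ψ (k n) (rp u k N fun m => !ε m) := by
    rw [Finset.mul_sum, ← Finset.sum_sub_distrib]
    refine Finset.sum_le_sum fun n hn => ?_
    have h4 := hmain n N ε (Finset.mem_range.1 hn)
    have h5 := hmain n N (fun m => !ε m) (Finset.mem_range.1 hn)
    by_cases h6 : 0 ≤ a n
    · simp only [ε, h6, decide_true, sg, if_true, Bool.not_true, Bool.false_eq_true,
        if_false] at h4 h5
      rw [abs_of_nonneg h6]
      nlinarith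
    · simp only [ε, h6, decide_false, sg, if_true, Bool.not_false, Bool.false_eq_true,
        if_false] at h4 h5
      rw [abs_of_neg (not_le.1 h6)]
      nlinarith
  rw [div_mul_eq_mul_div, div_le_iff₀ (by positivity)]
  have h7 : 0 ≤ ‖∑ n ∈ Finset.range N, a n • y' (k n)‖ * (1 + 2 * τ) := by positivity
  nlinarith [h1.1, h1.2, h2.1, h2.2]

end Riesz

end Pool.Agent.Lib.MP_ac4964_an
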