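import Pool.Agent.Lib.MP_ac4964_an.Struct
import Pool.Agent.Lib.MP_ac4964_an.Riesz

set_option autoImplicit false

open Set Filter Topology MeasureTheory

namespace Pool.Agent.Lib.MP_ac4964_an

lemma exists_haar (G : Type) [AddCommGroup G] [TopologicalSpace G] [IsTopologicalAddGroup G]
    [CompactSpace G] [MeasurableSpace G] [BorelSpace G] :
    ∃ μ : Measure G, IsProbabilityMeasure μ ∧ μ.IsAddHaarMeasure :=
  ⟨Measure.addHaarMeasure ⊤, ⟨by simpa using Measure.addHaarMeasure_self (K₀ := (⊤ :
    TopologicalSpace.PositiveCompacts G))⟩, inferInstance⟩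

lemma measurable_of_locallyConstant {X Z : Type*} [TopologicalSpace X] [CompactSpace X]
    [MeasurableSpace X] [OpensMeasurableSpace X] {S : X → Z} (hS : IsLocallyConstant S)
    {H : X → Z → ℝ} (hH : ∀ z, Measurable fun x => H x z) : Measurable fun x => H x (S x) := by
  intro t ht
  have : (fun x => H x (S x)) ⁻¹' t = ⋃ z ∈ range S, (S ⁻¹' {z} ∩ (fun x => H x z) ⁻¹' t) := by
    ext x
    simp only [mem_preimage, mem_iUnion, mem_inter_iff, mem_singleton_iff]
    exact ⟨fun h => ⟨_, ⟨x, rfl⟩, rfl, h⟩, fun ⟨z, _, h1, h2⟩ => h1 ▸ h2⟩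
  rw [this]
  exact MeasurableSet.biUnion hS.range_finite.countable fun z _ =>
    (hS {z}).measurableSet.inter (hH z ht)

section Decor

variable {q : ℕ} [Fact q.Prime] (r : ℕ)

instance borelPP : BorelSpace (PP q) :=
  @Pi.borelSpace ℕ (fun _ => Om × ZMod q) _ _ _ (fun _ => inferInstance) (fun _ => inferInstance)

instance secondPP : SecondCountableTopology (PP q) := inferInstance

instance borelKS : BorelSpace (KS q) := inferInstance

/-- The inverse change of variables. -/
def Ginv (b : Bool) (ρ : ℕ) (α : Bits) (e : KS q) : KS q :=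
  (e.1, fun l => (if b then lin r (e.1 l) ((e.2 l).1 + tr r (e.1 l) α) else (e.2 l).1,
    (e.2 l).2 - iota q b ρ * e.1 l))

lemma Gam_Ginv (b : Bool) (ρ : ℕ) (α : Bits) (e : KS q) : Gam r b ρ α (Ginv r b ρ α e) = e.2 := by
  funext l
  cases b <;> simp [Gam, Ginv, act, lin_lin, add_assoc, om_add_self, - map_add]

lemma continuous_Ginv (b : Bool) (ρ : ℕ) (α : Bits) : Continuous (Ginv (q := q) r b ρ α) := by
  refine continuous_fst.prodMk (continuous_pi fun l => Continuous.prodMk ?_ ?_)
  · have : Continuous fun p : ZMod q × Om =>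
        if b then lin r p.1 (p.2 + tr r p.1 α) else p.2 := by
      rw [continuous_prod_of_discrete_left]
      intro ξ
      cases b
      · exact continuous_id
      · exact (continuous_lin r ξ).comp (continuous_id.add (continuous_const (y := tr r ξ α)))
    exact this.comp (f := fun e : KS q => (e.1 l, (e.2 l).1)) (by fun_prop)
  · exact (continuous_of_discreteTopology (f := fun p : ZMod q × ZMod q =>
      p.1 - iota q b ρ * p.2)).comp (f := fun e : KS q => ((e.2 l).2, e.1 l)) (by fun_prop)

lemma measurePreserving_Ginv (b : Bool) (ρ : ℕ) (α : Bits) (μ : Measure (ℕ → ZMod q))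
    [IsProbabilityMeasure μ] (ν : Measure (PP q)) [IsProbabilityMeasure ν] [ν.IsAddHaarMeasure] :
    MeasurePreserving (Ginv r b ρ α) (μ.prod ν) (μ.prod ν) := by
  refine MeasurePreserving.skew_product (MeasurePreserving.id μ)
    (g := fun ω z => (Ginv r b ρ α (ω, z)).2)
    (continuous_snd.comp (continuous_Ginv r b ρ α)).measurable (Eventually.of_forall fun ω => ?_)
  let L : PP q →+ PP q :=
    { toFun := fun z l => (if b then lin r (ω l) (z l).1 else (z l).1, (z l).2)
      map_zero' := by funext l; cases b <;> simp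
      map_add' := fun z z' => by funext l; cases b <;> simp [Prod.ext_iff] }
  have hL1 : Continuous L := by
    refine continuous_pi fun l => Continuous.prodMk ?_ (by fun_prop)
    cases b
    · show Continuous fun z : PP q => (z l).1
      fun_prop
    · exact (continuous_lin r (ω l)).comp (by fun_prop)
  have hL2 : Function.Surjective L := fun z => ⟨L z, by
    funext l; cases b <;> simp [L, lin_lin]⟩
  have h1 : MeasurePreserving L ν ν := L.measurePreserving hL1 hL2 rfl
  have h2 := h1.comp (measurePreserving_add_left ν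
    (fun l => (if b then tr r (ω l) α else 0, -(iota q b ρ * ω l))))
  refine Eq.trans ?_ h2.map_eq
  congr 1
  funext z l
  cases b <;> simp [L, Ginv, add_comm, sub_eq_add_neg, Prod.ext_iff]

variable {Y : Type*} [NormedAddCommGroup Y] [NormedSpace ℝ Y]

lemma measurable_test (l : KS q → Y →ₗ[ℝ] ℝ) (hl : ∀ y, Measurable fun e => l e y)
    (y : Set (KS q) → Y) (b : Bool) (ρ : ℕ) (α β : Bits) (k : ℕ) (φ : Par q) :
    Measurable fun e => l e (y (Tst r b ρ β k (Gam r b ρ α e) φ)) :=
  measurable_of_locallyConstant (S := fun e => Tst r b ρ β k (Gam r b ρ α e) φ)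
    (H := fun e S => l e (y S))
    ((isLocallyConstant_Tst r b ρ k φ).comp_continuous (f := fun e : KS q => (β, Gam r b ρ α e))
      (continuous_const.prodMk ((continuous_Gam r b ρ).comp (Continuous.prodMk_right α))))
    fun _ => hl _

theorem decorrelate [CompleteSpace Y] (hY : ¬ HasL1 Y) (μ : Measure (ℕ → ZMod q))
    [IsProbabilityMeasure μ] [μ.IsAddHaarMeasure] (ν : Measure (PP q)) [IsProbabilityMeasure ν]
    [ν.IsAddHaarMeasure] (l : KS q → Y →ₗ[ℝ] ℝ) (hl : ∀ y, Measurable fun e => l e y)
    (lam : ℝ) (hlam : 0 ≤ lam) (hl2 : ∀ e y, |l e y| ≤ lam * ‖y‖)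
    (y : ℕ → Set (KS q) → Y) (b : Bool) (ρ : ℕ) (α : Bits) (β : ℕ → Bits) (φ : ℕ → Par q) (B : ℝ)
    (hB : ∀ k z, ‖y k (Tst r b ρ (β k) k z (φ k))‖ ≤ B)
    (u : ZMod q → ℝ) (hu : ∑ x, u x = 0) (hu1 : ∀ x, |u x| ≤ 1) :
    Tendsto (fun k => ∫ e, l e (y k (Tst r b ρ (β k) k (Gam r b ρ α e) (φ k))) * u (e.1 k)
      ∂(μ.prod ν)) atTop (𝓝 0) := by
  have hm : ∀ k, Measurable fun e : KS q =>
      l e (y k (Tst r b ρ (β k) k (Gam r b ρ α e) (φ k))) * u (e.1 k) := fun k =>
    (measurable_test r l hl _ b ρ α _ k _).mul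
      ((uC u k).continuous.comp continuous_fst).measurable
  have hbd : ∀ k (e : KS q),
      |l e (y k (Tst r b ρ (β k) k (Gam r b ρ α e) (φ k))) * u (e.1 k)| ≤ lam * B := fun k e => by
    rw [abs_mul]
    exact (mul_le_of_le_one_right (abs_nonneg _) (hu1 _)).trans
      ((hl2 _ _).trans (mul_le_mul_of_nonneg_left (hB _ _) hlam))
  have hG := measurePreserving_Ginv r b ρ α μ ν
  have hint : ∀ k, Integrable (fun e : KS q => (fun e : KS q =>
      l e (y k (Tst r b ρ (β k) k (Gam r b ρ α e) (φ k))) * u (e.1 k)) (Ginv r b ρ α e))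
      (μ.prod ν) := fun k =>
    Integrable.of_bound ((hm k).comp hG.measurable).aestronglyMeasurable _
      (Eventually.of_forall fun e => hbd k _)
  have e1 : ∀ k, ∫ e, l e (y k (Tst r b ρ (β k) k (Gam r b ρ α e) (φ k))) * u (e.1 k)
      ∂(μ.prod ν) = ∫ z, ∫ ω, l (Ginv r b ρ α (ω, z)) (y k (Tst r b ρ (β k) k z (φ k))) * u (ω k)
        ∂μ ∂ν := by
    intro k
    conv_lhs => rw [← hG.map_eq]
    rw [integral_map hG.measurable.aemeasurable (hm k).aestronglyMeasurable,
      integral_prod_symm _ (hint k)]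
    simp only [Gam_Ginv]
    rfl
  simp only [e1]
  rw [← integral_zero (PP q) ℝ (μ := ν)]
  refine tendsto_integral_of_dominated_convergence (fun _ => lam * B) (fun k => ?_)
    (integrable_const _) (fun k => Eventually.of_forall fun z => ?_)
    (Eventually.of_forall fun z => ?_)
  · have := (hint k).integral_prod_right.aestronglyMeasurable
    simp only [Gam_Ginv] at this
    exact this
  · have := norm_integral_le_of_norm_le_const (μ := μ) (C := lam * B)
      (f := fun ω => l (Ginv r b ρ α (ω, z)) (y k (Tst r b ρ (β k) k z (φ k))) * u (ω k))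
      (Eventually.of_forall fun ω => by
        have := hbd k (Ginv r b ρ α (ω, z))
        rw [Gam_Ginv] at this
        exact this)
    simpa using this
  · exact riesz_tendsto hY μ u hu hu1 (fun ω => l (Ginv r b ρ α (ω, z)))
      (fun y => (hl y).comp (hG.measurable.comp (measurable_id.prodMk measurable_const)))
      lam hlam (fun ω y => hl2 _ y) _ B fun k => hB k z

end Decor

end Pool.Agent.Lib.MP_ac4964_an
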