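import Pool.Agent.Lib.MP_ac4964_an.Core

set_option autoImplicit false

open Set Filter Topology MeasureTheory

namespace Pool.Agent.Lib.MP_ac4964_an

/-- The first `P` sets of the sequence are pairwise disjoint. -/
def Disj {X : Type*} (S : ℕ → Set X) (P : ℕ) : Prop :=
  ∀ i j x, i < P → j < P → x ∈ S i → x ∈ S j → i = j

lemma exists_small_rest {X : Type*} [MeasurableSpace X] (m : Measure X) [IsFiniteMeasure m]
    (A : ℕ → Set X) (h1 : ∀ j, MeasurableSet (A j)) (h2 : ∀ e, ∃ j, e ∈ A j) (ε : ℝ)
    (hε : 0 < ε) : ∃ N, m.real (⋃ j ∈ Finset.range N, A j)ᶜ ≤ ε := by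
  have h3 := tendsto_measure_iInter_atTop (μ := m) (s := fun N => (⋃ j ∈ Finset.range N, A j)ᶜ)
    (fun N => (Finset.measurableSet_biUnion _ fun j _ => h1 j).compl.nullMeasurableSet)
    (fun a b hab => compl_subset_compl.2
      (biUnion_subset_biUnion_left (Finset.range_subset_range.2 hab))) ⟨0, measure_ne_top _ _⟩
  have h4 : ⋂ N, (⋃ j ∈ Finset.range N, A j)ᶜ = ∅ := by
    refine eq_empty_of_forall_notMem fun e he => ?_
    obtain ⟨j, hj⟩ := h2 e
    exact mem_iInter.1 he (j + 1) (mem_iUnion₂.2 ⟨j, Finset.self_mem_range_succ j, hj⟩)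
  rw [h4, measure_empty] at h3
  obtain ⟨N, hN⟩ := (h3.eventually (gt_mem_nhds (ENNReal.ofReal_pos.2 hε))).exists
  exact ⟨N, ENNReal.toReal_le_of_le_ofReal hε.le hN.le⟩

variable {q : ℕ} [Fact q.Prime]

lemma shift_avg (r : ℕ) (μ : Measure (ℕ → ZMod q)) [IsProbabilityMeasure μ] (ν : Measure (PP q))
    [IsProbabilityMeasure ν] [ν.IsAddHaarMeasure] (α β : Bits) (k ρ : ℕ) {P M : ℕ} (hP : 0 < P)
    (hM : P ≤ M) {I : ZMod q} (hI : lin r I = AddMonoidHom.id _) (f : Set (KS q) → ℝ) (δ : ℝ) :
    Integrable (fun e => f (Tst r false ρ β k (Gam r false ρ α e) (I, 0, M, RU M))) (μ.prod ν) ∧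
    ((∀ z : ℕ → PP q, Disj (fun i => Tst r false ρ β k (z i) (I, 0, M, RU M)) P →
      ∑ i ∈ Finset.range P, f (Tst r false ρ β k (z i) (I, 0, M, RU M)) ≤ δ * P) →
    ∫ e, f (Tst r false ρ β k (Gam r false ρ α e) (I, 0, M, RU M)) ∂(μ.prod ν) ≤ δ) := by
  have hc : Continuous fun e => f (Tst r false ρ β k (Gam r false ρ α e) (I, 0, M, RU M)) :=
    (((isLocallyConstant_Tst r false ρ k _).comp_continuous
      (f := fun e : KS q => (β, Gam r false ρ α e)) (continuous_const.prodMk
        ((continuous_Gam r false ρ).comp (Continuous.prodMk_right α)))).comp f).continuous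
  have hi := hc.integrable_of_hasCompactSupport (μ := μ.prod ν) (HasCompactSupport.of_compactSpace _)
  refine ⟨hi, fun hf => ?_⟩
  have hP' : (0 : ℝ) < P := Nat.cast_pos.2 hP
  let w : ℕ → PP q := fun i => Pi.single k ((Pi.single i 1, 0), 0)
  have hτ : ∀ i, MeasurePreserving (fun e : KS q => ((e.1, w i + e.2) : KS q)) (μ.prod ν)
      (μ.prod ν) := fun i => (MeasurePreserving.id μ).prod (measurePreserving_add_left ν (w i))
  have hG : ∀ i (e : KS q), Gam r false ρ α (e.1, w i + e.2) = w i + Gam r false ρ α e := by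
    intro i e
    funext l
    simp [Gam, act, Prod.ext_iff, add_assoc]
  have hii : ∀ i, Integrable (fun e : KS q => f (Tst r false ρ β k (w i + Gam r false ρ α e)
      (I, 0, M, RU M))) (μ.prod ν) := fun i => by
    simpa only [Function.comp_def, hG] using (hτ i).integrable_comp_of_integrable hi
  have e1 : ∀ i, ∫ e : KS q, f (Tst r false ρ β k (w i + Gam r false ρ α e) (I, 0, M, RU M))
      ∂(μ.prod ν) = ∫ e, f (Tst r false ρ β k (Gam r false ρ α e) (I, 0, M, RU M))
      ∂(μ.prod ν) := fun i => by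
    conv_rhs => rw [← (hτ i).map_eq]
    rw [integral_map (hτ i).measurable.aemeasurable hc.aestronglyMeasurable]
    simp only [hG]
  have e2 := integral_mono (integrable_finsetSum (Finset.range P) fun i _ => hii i)
    (integrable_const (δ * P)) fun e => hf (fun i => w i + Gam r false ρ α e)
      fun i j e' hi hj h5 h6 => by
        by_contra hij
        have h7 := h5.2
        have h8 := h6.2
        simp only [pset, hI, mem_ofPred_eq, add_zero, AddMonoidHom.id_apply,
          mem_vset_RU le_rfl] at h7 h8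
        have h9 := (h7 i (by omega)).1
        have h10 := (h8 i (by omega)).1
        simp only [w, Pi.sub_apply, Pi.add_apply, Pi.single_eq_same, Prod.fst_sub,
          Prod.fst_add, Pi.single_eq_of_ne hij, zero_add] at h9 h10
        exact one_ne_zero (α := ZMod 2) (by linear_combination h10 - h9)
  rw [integral_finsetSum _ fun i _ => hii i] at e2
  simp only [e1, Finset.sum_const, Finset.card_range, nsmul_eq_mul, integral_const,
    probReal_univ, smul_eq_mul, one_mul] at e2
  exact le_of_mul_le_mul_left (by linarith) hP'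

open Classical in
theorem core_deep {r : ℕ} (hq : 2 * r + 2 ≤ q) (hr : 0 < r)
    {Y : Type*} [NormedAddCommGroup Y] [NormedSpace ℝ Y] [CompleteSpace Y] (hY : ¬ HasL1 Y)
    (α : Bits) (β : ℕ → Bits)
    (hβ : ∀ k i, i < k + 2 * r * r + r → β k i = α i)
    (y : ℕ → Set (KS q) → Y) (C η : ℝ) (hC : 0 ≤ C) (hη : 0 ≤ η)
    (hy : ∀ (k : ℕ) (ι : Type) (s : Finset ι) (c : ι → ℝ) (b : ι → Bool) (ρ : ι → ℕ)
      (z : ι → PP q) (φ : ι → Par q) (M : ℝ), (∀ i ∈ s, ρ i < r) → 0 ≤ M →
      (∀ e', |∑ i ∈ s, c i * (if e' ∈ Tst r (b i) (ρ i) (β k) k (z i) (φ i) then 1 else 0)| ≤ M) →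
      ‖∑ i ∈ s, c i • y k (Tst r (b i) (ρ i) (β k) k (z i) (φ i))‖ ≤ C * M + η * ∑ i ∈ s, |c i|)
    (l : KS q → Y →ₗ[ℝ] ℝ) (hl : ∀ y, Measurable fun e => l e y) (lam : ℝ) (hlam : 0 ≤ lam)
    (hl2 : ∀ e y, |l e y| ≤ lam * ‖y‖)
    (hnorm : ∀ k ρ e, ρ < r →
      1 / 2 ≤ l e (y k (Tst r false ρ (β k) k (Gam r false ρ α e) (par0 q r))))
    (hsmall : lam * (C / r + 4 * η) ≤ 1 / 20)
    (hdeep : ∀ k, ∃ (ψ : ℕ → Set (KS q) → ℝ) (A : ℕ → Set (KS q)), (∀ j, MeasurableSet (A j)) ∧
      (∀ e, ∃ j, e ∈ A j) ∧ (∀ j, ∀ e ∈ A j, ∀ ρ z φ, ρ < r →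
        l e (y k (Tst r false ρ (β k) k z φ)) ≤ |ψ j (Tst r false ρ (β k) k z φ)| + 1 / 50) ∧
      ∀ j, ∀ ε > 0, ∀ᶠ P : ℕ in atTop, ∀ ρ, ρ < r → ∀ (z : ℕ → PP q) (φ : Par q),
        Disj (fun i => Tst r false ρ (β k) k (z i) φ) P →
        ∑ i ∈ Finset.range P, |ψ j (Tst r false ρ (β k) k (z i) φ)| ≤ ε * P) : False := by
  obtain ⟨μ, _, _⟩ := exists_haar (ℕ → ZMod q)
  obtain ⟨ν, _, _⟩ := exists_haar (PP q)
  set E := lam * (C / r + 4 * η) with hE
  have hr' : (0 : ℝ) < r := Nat.cast_pos.2 hr
  have hq0 : (0 : ℝ) < q := Nat.cast_pos.2 (by omega)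
  let h : ℕ → Bool → ℕ → Par q → KS q → ℝ := fun k b ρ φ e =>
    l e (y k (Tst r b ρ (β k) k (Gam r b ρ α e) φ))
  have hm : ∀ k b ρ φ, Measurable (h k b ρ φ) := fun k b ρ φ =>
    measurable_test r l hl _ b ρ α _ k _
  have hB : ∀ k b ρ φ z, ρ < r → ‖y k (Tst r b ρ (β k) k z φ)‖ ≤ C + η := by
    intro k b ρ φ z hρ
    have := hy k Unit {()} (fun _ => 1) (fun _ => b) (fun _ => ρ) (fun _ => z) (fun _ => φ) 1
      (fun _ _ => hρ) zero_le_one (fun e' => by
        rw [Finset.sum_singleton]; split_ifs <;> simp)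
    simpa using this
  have hb : ∀ k b ρ φ e, ρ < r → |h k b ρ φ e| ≤ lam * (C + η) := fun k b ρ φ e hρ =>
    (hl2 _ _).trans (mul_le_mul_of_nonneg_left (hB _ _ _ _ _ hρ) hlam)
  have hi : ∀ k b ρ φ, ρ < r → Integrable (h k b ρ φ) (μ.prod ν) := fun k b ρ φ hρ =>
    Integrable.of_bound (hm k b ρ φ).aestronglyMeasurable _
      (Eventually.of_forall fun e => hb k b ρ φ e hρ)
  let H : ℕ → Bool → Par q → KS q → ℝ := fun k b φ e => ∑ ρ ∈ Finset.range r, h k b ρ φ e
  have hHi : ∀ k b φ, Integrable (H k b φ) (μ.prod ν) := fun k b φ =>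
    integrable_finsetSum _ fun ρ hρ => hi k b ρ φ (Finset.mem_range.1 hρ)
  let κ : ℕ → Bool → Par q → ℝ := fun k b φ => ∫ e, H k b φ e ∂(μ.prod ν)
  -- transfer
  have transfer : ∀ (ξ : ZMod q) (φ φ' : ℕ → Par q),
      (∀ k d, d ∈ pset r (φ k) ↔ lin r ξ d + tr r ξ (β k + α) ∈ pset r (φ' k)) →
      ∀ ε > 0, ∀ᶠ k in atTop, |κ k false (φ k) - κ k true (φ' k)| ≤ r * E + ε := by
    intro ξ φ φ' hφ ε hε
    let u : ZMod q → ℝ := fun x => (if x = ξ then 1 else 0) - 1 / q
    have hu : ∑ x, u x = 0 := by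
      simp [u, Finset.sum_sub_distrib, ZMod.card, hq0.ne']
    have hq1 : (1 : ℝ) / q ≤ 1 := by
      rw [div_le_one hq0]; exact_mod_cast (show 1 ≤ q by omega)
    have hq2 : (0 : ℝ) ≤ 1 / q := by positivity
    have hu1 : ∀ x, |u x| ≤ 1 := fun x => by
      simp only [u]
      split_ifs <;> rw [abs_le] <;> constructor <;> linarith
    have hum : ∀ k, Measurable fun e : KS q => u (e.1 k) := fun k =>
      ((uC u k).continuous.comp continuous_fst).measurable
    have hdec : ∀ (b : Bool) (ψ : ℕ → Par q),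
        Tendsto (fun k => ∫ e, H k b (ψ k) e * u (e.1 k) ∂(μ.prod ν)) atTop (𝓝 0) := by
      intro b ψ
      have h1 := tendsto_finsetSum (Finset.range r) fun ρ hρ =>
        decorrelate r hY μ ν l hl lam hlam hl2 y b ρ α β ψ (C + η)
          (fun k z => hB k b ρ _ z (Finset.mem_range.1 hρ)) u hu hu1
      rw [Finset.sum_const_zero] at h1
      refine h1.congr fun k => ?_
      rw [← integral_finsetSum _ fun ρ hρ => (hi k b ρ _ (Finset.mem_range.1 hρ)).mul_bdd
        (hum k).aestronglyMeasurable (Eventually.of_forall fun e => hu1 _)]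
      simp only [H, h, Finset.sum_mul]
    have h2 := ((hdec false φ).sub (hdec true φ')).const_mul (q : ℝ)
    rw [sub_zero, mul_zero] at h2
    filter_upwards [Metric.tendsto_nhds.1 h2 ε hε] with k hk
    rw [Real.dist_eq, sub_zero] at hk
    have hint : ∀ b ψ, Integrable (fun e => H k b ψ e * u (e.1 k)) (μ.prod ν) := fun b ψ =>
      (hHi k b ψ).mul_bdd (hum k).aestronglyMeasurable (Eventually.of_forall fun e => hu1 _)
    have h3 : ∀ e : KS q, |(H k false (φ k) e - H k true (φ' k) e) +
        q * (H k false (φ k) e * u (e.1 k) - H k true (φ' k) e * u (e.1 k))| ≤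
        r * E + q * (r * E) * u (e.1 k) := by
      intro e
      have e1 : (H k false (φ k) e - H k true (φ' k) e) +
          q * (H k false (φ k) e * u (e.1 k) - H k true (φ' k) e * u (e.1 k)) =
          (H k false (φ k) e - H k true (φ' k) e) * (q * if e.1 k = ξ then 1 else 0) := by
        simp only [u]; field_simp; ring
      have e2 : r * E + q * (r * E) * u (e.1 k) = (r * E) * (q * if e.1 k = ξ then 1 else 0) := by
        simp only [u]; field_simp; ring
      rw [e1, e2]
      split_ifs with hξ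
      · rw [abs_mul, mul_one, abs_of_pos hq0]
        refine mul_le_mul_of_nonneg_right ?_ hq0.le
        have h4 := hy k (Bool × ℕ) (Finset.univ ×ˢ Finset.range r)
          (fun i => if i.1 then -1 else 1) (fun i => i.1) (fun i => i.2)
          (fun i => Gam r i.1 i.2 α e) (fun i => if i.1 then φ' k else φ k) 1
          (fun i hi => Finset.mem_range.1 (Finset.mem_product.1 hi).2) zero_le_one (fun e' => by
            have := pointwise r (by omega) (α := α) (β := β k) (k := k) (fun i hi => by
              rw [Pi.add_apply, hβ k i (by omega), CharTwo.add_self_eq_zero]) e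
              (φ := φ k) (φ' := φ' k) (by rw [hξ]; exact hφ k) e'
            rw [Finset.sum_product, Fintype.sum_bool]
            simp only [if_true, Bool.false_eq_true, if_false, one_mul, neg_mul,
              Finset.sum_neg_distrib]
            rwa [neg_add_eq_sub])
        have h5 := (hl2 e _).trans (mul_le_mul_of_nonneg_left h4 hlam)
        rw [Finset.sum_product, Fintype.sum_bool, Finset.sum_product, Fintype.sum_bool] at h5
        simp only [if_true, Bool.false_eq_true, if_false, one_smul, neg_smul,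
          Finset.sum_neg_distrib, map_add, map_neg, map_sum, abs_neg, abs_one, Finset.sum_const,
          Finset.card_range, nsmul_eq_mul, mul_one] at h5
        rw [neg_add_eq_sub] at h5
        refine h5.trans ?_
        have : r * E = lam * (C + 4 * η * r) := by rw [hE]; field_simp
        rw [this]
        refine mul_le_mul_of_nonneg_left ?_ hlam
        nlinarith [mul_nonneg hη hr'.le]
      · simp
    have h4 : ∫ e : KS q, u (e.1 k) ∂(μ.prod ν) = 0 := by
      rw [integral_fun_fst (fun ω : ℕ → ZMod q => u (ω k))]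
      have := integral_mul_uC μ u hu (j := k) (c := 1) (fun _ _ => rfl)
      simp only [one_mul] at this
      simpa [uC] using this
    have hui : Integrable (fun e : KS q => u (e.1 k)) (μ.prod ν) :=
      Integrable.of_bound (hum k).aestronglyMeasurable _ (Eventually.of_forall fun e => hu1 _)
    have h5 := norm_integral_le_of_norm_le (μ := μ.prod ν)
      (f := fun e => (H k false (φ k) e - H k true (φ' k) e) +
        q * (H k false (φ k) e * u (e.1 k) - H k true (φ' k) e * u (e.1 k)))
      ((integrable_const (r * E)).add (hui.const_mul (q * (r * E)))) (Eventually.of_forall h3)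
    have i1 : Integrable (fun e => H k false (φ k) e - H k true (φ' k) e) (μ.prod ν) :=
      (hHi ..).sub (hHi ..)
    have i2 : Integrable (fun e : KS q =>
        q * (H k false (φ k) e * u (e.1 k) - H k true (φ' k) e * u (e.1 k))) (μ.prod ν) :=
      ((hint ..).sub (hint ..)).const_mul _
    rw [integral_add i1 i2, integral_const_mul, integral_sub (hHi ..) (hHi ..), integral_sub (hint ..) (hint ..),
      integral_add' (integrable_const _) (hui.const_mul _), integral_const_mul (q * (r * E)),
      h4] at h5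
    simp only [integral_const, probReal_univ, smul_eq_mul, one_mul, mul_zero, add_zero,
      Real.norm_eq_abs] at h5
    rw [abs_le] at h5 ⊢
    rw [abs_lt] at hk
    constructor <;> linarith [h5.1, h5.2, hk.1, hk.2]
  -- a general estimate for combinations with a common centre
  have comb : ∀ (k : ℕ) (b : Bool) (ι : Type) (s : Finset ι) (c : ι → ℝ) (φ : ι → Par q) (M : ℝ),
      0 ≤ M → (∀ d, |∑ i ∈ s, c i * (if d ∈ pset r (φ i) then 1 else 0)| ≤ M) →
      |∑ i ∈ s, c i * κ k b (φ i)| ≤ r * (lam * (C * M + η * ∑ i ∈ s, |c i|)) := by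
    intro k b ι s c φ M hM hφ
    have e1 : ∑ i ∈ s, c i * κ k b (φ i) =
        ∫ e, ∑ ρ ∈ Finset.range r, ∑ i ∈ s, c i * h k b ρ (φ i) e ∂(μ.prod ν) := by
      simp only [κ, ← integral_const_mul]
      rw [← integral_finsetSum _ fun i _ => (hHi ..).const_mul _]
      congr 1
      funext e
      rw [Finset.sum_comm]
      simp only [H, Finset.mul_sum]
    rw [e1]
    refine abs_integral_le _ fun e => (Finset.abs_sum_le_sum_abs _ _).trans ?_
    refine (Finset.sum_le_card_nsmul _ _ (lam * (C * M + η * ∑ i ∈ s, |c i|))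
      fun ρ hρ => ?_).trans (by simp)
    have h4 := hy k ι s c (fun _ => b) (fun _ => ρ) (fun _ => Gam r b ρ α e) φ M
      (fun _ _ => Finset.mem_range.1 hρ) hM (fun e' => by
        by_cases hc : Gam r b ρ (β k) e' - Gam r b ρ α e ∈ Cyl q k (dep r k b ρ)
        · simpa only [Tst, Cnd, mem_ofPred_eq, hc, true_and] using
            hφ ((Gam r b ρ (β k) e' - Gam r b ρ α e) k).1
        · simpa [Tst, Cnd, hc] using hM)
    have h5 := (hl2 e _).trans (mul_le_mul_of_nonneg_left h4 hlam)
    simpa only [map_sum, map_smul, smul_eq_mul] using h5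
  -- wandering sets are small
  have wander : ∀ (φ : ℕ → Par q) (ξ : ℕ → ZMod q) (φ' : ℕ → ℕ → Par q),
      (∀ j, j < r → ∀ k d, d ∈ pset r (φ k) ↔
        lin r (ξ j) d + tr r (ξ j) (β k + α) ∈ pset r (φ' j k)) →
      (∀ k i j d, i < r → j < i → d ∈ pset r (φ' i k) → d ∈ pset r (φ' j k) → False) →
      ∀ ε > 0, ∀ᶠ k in atTop, |κ k false (φ k)| ≤ 2 * r * E + ε := by
    intro φ ξ φ' h1 h2 ε hε
    have h3 : ∀ᶠ k in atTop, ∀ j ∈ Finset.range r,
        |κ k false (φ k) - κ k true (φ' j k)| ≤ r * E + ε := by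
      rw [eventually_all_finset]
      exact fun j hj => transfer (ξ j) φ (φ' j) (h1 j (Finset.mem_range.1 hj)) ε hε
    filter_upwards [h3] with k hk
    have h4 := comb k true ℕ (Finset.range r) (fun _ => 1) (fun j => φ' j k) 1 zero_le_one
      (fun d => by
        simp only [one_mul]
        rw [abs_of_nonneg (Finset.sum_nonneg fun _ _ => by split_ifs <;> simp)]
        refine sum_ite_le_one _ _ fun i hi j hj h5 h6 => ?_
        rcases lt_trichotomy i j with h | h | h
        · exact (h2 k j i d (Finset.mem_range.1 hj) h h6 h5).elim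
        · exact h
        · exact (h2 k i j d (Finset.mem_range.1 hi) h h5 h6).elim)
    simp only [one_mul, abs_one, Finset.sum_const, Finset.card_range, nsmul_eq_mul,
      mul_one] at h4
    have h5 : |∑ j ∈ Finset.range r, (κ k false (φ k) - κ k true (φ' j k))| ≤ r * (r * E + ε) := by
      refine (Finset.abs_sum_le_sum_abs _ _).trans ?_
      have := Finset.sum_le_card_nsmul _ _ _ hk
      rwa [Finset.card_range, nsmul_eq_mul] at this
    rw [Finset.sum_sub_distrib, Finset.sum_const, Finset.card_range, nsmul_eq_mul] at h5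
    have h6 : lam * (C + η * r) ≤ r * E := by
      have : r * E = lam * (C + 4 * η * r) := by rw [hE]; field_simp
      rw [this]
      refine mul_le_mul_of_nonneg_left ?_ hlam
      nlinarith [mul_nonneg hη hr'.le]
    have h7 : |r * κ k false (φ k)| ≤ r * (2 * r * E + ε) := by
      rw [abs_le] at h4 h5 ⊢
      have := mul_le_mul_of_nonneg_left h6 hr'.le
      constructor <;> nlinarith [h4.1, h4.2, h5.1, h5.2]
    rw [abs_mul, abs_of_pos hr'] at h7
    exact le_of_mul_le_mul_left h7 hr'
  -- deep tests are small on average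
  have hI := lin_I hq (show 1 < 2 by omega)
  let I : ZMod q := ((2 * r + 1 : ℕ) : ZMod q)
  have hM : ∀ k, ∃ M, r ≤ M ∧ κ k false (I, 0, M, RU M) ≤ r * (1 / 10) := by
    intro k
    obtain ⟨ψ, A, hA1, hA2, hA3, hA4⟩ := hdeep k
    have hL : 0 ≤ lam * (C + η) := by positivity
    obtain ⟨N, hN⟩ := exists_small_rest (μ.prod ν) A hA1 hA2 (1 / (50 * (lam * (C + η) + 1)))
      (by positivity)
    have h1 : ∀ᶠ P : ℕ in atTop, ∀ j ∈ Finset.range N, ∀ ρ, ρ < r →
        ∀ (z : ℕ → PP q) (φ : Par q), Disj (fun i => Tst r false ρ (β k) k (z i) φ) P →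
        ∑ i ∈ Finset.range P, |ψ j (Tst r false ρ (β k) k (z i) φ)| ≤ 1 / (50 * (N + 1)) * P := by
      rw [eventually_all_finset]
      exact fun j _ => hA4 j _ (by positivity)
    obtain ⟨P, hP, hP0⟩ := (h1.and (eventually_gt_atTop 0)).exists
    refine ⟨P + r, Nat.le_add_left _ _, ?_⟩
    have hR : MeasurableSet (⋃ j ∈ Finset.range N, A j)ᶜ :=
      (Finset.measurableSet_biUnion _ fun j _ => hA1 j).compl
    have hone : ∀ ρ, ρ < r →
        ∫ e, h k false ρ (I, 0, P + r, RU (P + r)) e ∂(μ.prod ν) ≤ 1 / 10 := by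
      intro ρ hρ
      have h2 := fun j => shift_avg r μ ν α (β k) k ρ hP0 (Nat.le_add_right P r) hI
        (fun S => |ψ j S|) (1 / (50 * (N + 1)))
      have i1 : Integrable (fun e => ∑ j ∈ Finset.range N, |ψ j (Tst r false ρ (β k) k
          (Gam r false ρ α e) (I, 0, P + r, RU (P + r)))|) (μ.prod ν) :=
        integrable_finsetSum _ fun j _ => (h2 j).1
      have i2 : Integrable ((⋃ j ∈ Finset.range N, A j)ᶜ.indicator fun _ => lam * (C + η))
          (μ.prod ν) := (integrable_const _).indicator hR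
      have h3 := integral_mono (hi k false ρ (I, 0, P + r, RU (P + r)) hρ)
        ((i1.add (integrable_const (1 / 50))).add i2) fun e => by
          have h4 := fun (s : Finset ℕ) => Finset.sum_nonneg (s := s) fun j _ => abs_nonneg
            (ψ j (Tst r false ρ (β k) k (Gam r false ρ α e) (I, 0, P + r, RU (P + r))))
          by_cases he : e ∈ ⋃ j ∈ Finset.range N, A j
          · obtain ⟨j, hj, he'⟩ := mem_iUnion₂.1 he
            have h5 := Finset.single_le_sum (fun j _ => abs_nonneg (ψ j (Tst r false ρ (β k) k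
              (Gam r false ρ α e) (I, 0, P + r, RU (P + r))))) hj
            have h6 := hA3 j e he' ρ (Gam r false ρ α e) (I, 0, P + r, RU (P + r)) hρ
            simp only [Pi.add_apply, indicator_of_notMem (notMem_compl_iff.2 he), h]
            linarith
          · have h6 := (le_abs_self _).trans (hb k false ρ (I, 0, P + r, RU (P + r)) e hρ)
            simp only [Pi.add_apply, indicator_of_mem (mem_compl he)]
            linarith [h4 (Finset.range N)]
      rw [integral_add' (i1.add (integrable_const _)) i2, integral_add' i1 (integrable_const _),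
        integral_finsetSum _ fun j _ => (h2 j).1, integral_indicator_const _ hR] at h3
      have h4 := Finset.sum_le_card_nsmul (Finset.range N) _ _ fun j hj =>
        (h2 j).2 fun z hz => hP j hj ρ hρ z _ hz
      simp only [Finset.card_range, nsmul_eq_mul] at h4
      simp only [integral_const, probReal_univ, smul_eq_mul, one_mul] at h3
      have h5 : (N : ℝ) * (1 / (50 * (N + 1))) ≤ 1 / 50 := by
        rw [mul_one_div, div_le_div_iff₀ (by positivity) (by positivity)]
        linarith
      have h6 : 1 / (50 * (lam * (C + η) + 1)) * (lam * (C + η)) ≤ 1 / 50 := by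
        rw [one_div_mul_eq_div, div_le_div_iff₀ (by positivity) (by positivity)]
        linarith
      linarith [mul_le_mul_of_nonneg_right hN hL]
    simp only [κ, H]
    rw [integral_finsetSum _ fun ρ hρ => hi k false ρ _ (Finset.mem_range.1 hρ)]
    have := Finset.sum_le_card_nsmul (Finset.range r) _ _ fun ρ hρ =>
      hone ρ (Finset.mem_range.1 hρ)
    simpa using this
  choose M hM1 hM2 using hM
  have hε : (0 : ℝ) < 1 / 200 := by norm_num
  have wA := wander (fun k => (I, 0, M k, RA r)) (fun j => ((r + j : ℕ) : ZMod q))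
    (fun j k => (((r + j : ℕ) : ZMod q), 0, M k, RA r))
    (fun j hj k d => by
      simp only [pset, I, hI, mem_ofPred_eq, tr_ne hq (show r + j < 2 * r + 2 by omega) (by omega),
        add_zero, lin_lin, AddMonoidHom.id_apply])
    (fun k i j d hi hj h1 h2 => by
      simp only [pset, mem_ofPred_eq, add_zero, lin_B hq hi, lin_B hq (hj.trans hi)] at h1 h2
      exact shB_disj (by omega) (by omega) (by omega) h1 h2) _ hε
  have wB := wander (fun k => (I, 0, M k, RB r (M k))) (fun j => ((j : ℕ) : ZMod q))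
    (fun j k => (((j : ℕ) : ZMod q), 0, M k, RB r (M k)))
    (fun j hj k d => by
      simp only [pset, I, hI, mem_ofPred_eq, tr_ne hq (show j < 2 * r + 2 by omega) (by omega),
        add_zero, lin_lin, AddMonoidHom.id_apply])
    (fun k i j d hi hj h1 h2 => by
      simp only [pset, mem_ofPred_eq, add_zero, lin_A hq hi, lin_A hq (hj.trans hi)] at h1 h2
      exact shA_disj (by omega) (by omega) (by omega) h1 h2) _ hε
  obtain ⟨k, h1, h2⟩ := (wA.and wB).exists
  have hMr : r ≤ M k := hM1 k
  have h6 := comb k false (Fin 4) Finset.univ ![1, -1, -1, -1]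
    ![par0 q r, (I, 0, M k, RU (M k)), (I, 0, M k, RA r), (I, 0, M k, RB r (M k))] 0 le_rfl
    (fun d => by
      have := vset_split hMr d
      simp only [Fin.sum_univ_four, Matrix.cons_val_zero, Matrix.cons_val_one, Matrix.cons_val,
        pset, par0, I, hI, mem_ofPred_eq, add_zero, AddMonoidHom.id_apply, mem_vset_RU le_rfl]
      simp only [mem_vset_RU hMr, mem_vset_RU le_rfl] at this
      rw [this]
      refine le_of_eq (abs_eq_zero.2 ?_)
      ring)
  simp only [Fin.sum_univ_four, Matrix.cons_val_zero, Matrix.cons_val_one, Matrix.cons_val,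
    abs_one, abs_neg, mul_zero, zero_add] at h6
  have h7 : r * (1 / 2 : ℝ) ≤ κ k false (par0 q r) := by
    have : ∫ _e, r * (1 / 2 : ℝ) ∂(μ.prod ν) ≤ κ k false (par0 q r) := by
      refine integral_mono (integrable_const _) (hHi ..) fun e => ?_
      have := Finset.card_nsmul_le_sum (Finset.range r) (fun ρ => h k false ρ (par0 q r) e) (1 / 2)
        fun ρ hρ => hnorm k ρ e (Finset.mem_range.1 hρ)
      simpa using this
    simpa using this
  have h8 : lam * (η * (1 + 1 + 1 + 1)) ≤ E := by
    refine mul_le_mul_of_nonneg_left ?_ hlam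
    have : 0 ≤ C / r := by positivity
    linarith
  have h9 := mul_le_mul_of_nonneg_left h8 hr'.le
  have h10 := mul_le_mul_of_nonneg_left hsmall hr'.le
  have h11 : (1 : ℝ) ≤ r := by exact_mod_cast hr
  rw [abs_le] at h1 h2 h6
  linarith [h1.2, h2.2, h6.2, hM2 k]

end Pool.Agent.Lib.MP_ac4964_an
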