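import Mathlib

set_option autoImplicit false

open Set Filter Topology

namespace Pool.Agent.Lib.MP_ac4964_an

/-- `Y` contains an isomorphic copy of `ℓ₁`. -/
def HasL1 (Y : Type*) [NormedAddCommGroup Y] [NormedSpace ℝ Y] : Prop :=
  ∃ T : lp (fun _ : ℕ => ℝ) 1 →L[ℝ] Y, ∃ c : ℝ, 0 < c ∧ ∀ v, c * ‖v‖ ≤ ‖T v‖

lemma lp_hasSum_abs (v : lp (fun _ : ℕ => ℝ) 1) : HasSum (fun n => |v n|) ‖v‖ := by
  have := lp.hasSum_norm (p := 1) (by simp) v
  simpa using this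

lemma hasL1_of_seq {Y : Type*} [NormedAddCommGroup Y] [NormedSpace ℝ Y] [CompleteSpace Y]
    (y : ℕ → Y) (B c : ℝ) (hc : 0 < c) (hB : ∀ n, ‖y n‖ ≤ B)
    (h : ∀ (N : ℕ) (a : ℕ → ℝ),
      c * ∑ n ∈ Finset.range N, |a n| ≤ ‖∑ n ∈ Finset.range N, a n • y n‖) : HasL1 Y := by
  have hs1 : ∀ v : lp (fun _ : ℕ => ℝ) 1, Summable fun n => ‖v n • y n‖ := by
    intro v
    refine Summable.of_nonneg_of_le (fun _ => norm_nonneg _) (fun n => ?_)
      ((lp_hasSum_abs v).summable.mul_right B)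
    rw [norm_smul, Real.norm_eq_abs]
    exact mul_le_mul_of_nonneg_left (hB n) (abs_nonneg _)
  have hs : ∀ v : lp (fun _ : ℕ => ℝ) 1, Summable fun n => v n • y n := fun v => (hs1 v).of_norm
  let T : lp (fun _ : ℕ => ℝ) 1 →ₗ[ℝ] Y :=
    { toFun := fun v => ∑' n, v n • y n
      map_add' := fun v w => by
        rw [← (hs v).tsum_add (hs w)]
        simp [add_smul]
      map_smul' := fun r v => by
        simp only [RingHom.id_apply]
        rw [← (hs v).tsum_const_smul r]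
        simp [smul_smul] }
  have hT : ∀ v, ‖T v‖ ≤ B * ‖v‖ := by
    intro v
    refine tsum_of_norm_bounded (g := fun n => B * |v n|) ((lp_hasSum_abs v).mul_left B) fun n => ?_
    rw [norm_smul, Real.norm_eq_abs, mul_comm]
    exact mul_le_mul_of_nonneg_right (hB n) (abs_nonneg _)
  refine ⟨T.mkContinuous B hT, c, hc, fun v => ?_⟩
  have h1 := ((lp_hasSum_abs v).tendsto_sum_nat).const_mul c
  have h2 := ((hs v).hasSum.tendsto_sum_nat).norm
  exact le_of_tendsto_of_tendsto' h1 h2 fun N => h N _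

lemma seq_of_hasL1 {Y : Type*} [NormedAddCommGroup Y] [NormedSpace ℝ Y] (hY : HasL1 Y) :
    ∃ (y : ℕ → Y) (B c : ℝ), 0 < c ∧ (∀ n, ‖y n‖ ≤ B) ∧ ∀ (s : Finset ℕ) (a : ℕ → ℝ),
      c * ∑ n ∈ s, |a n| ≤ ‖∑ n ∈ s, a n • y n‖ := by
  obtain ⟨T, c, hc, h⟩ := hY
  refine ⟨fun n => T (lp.single 1 n 1), ‖T‖, c, hc, fun n => ?_, fun s a => ?_⟩
  · refine (T.le_opNorm _).trans ?_
    rw [lp.norm_single (by simp)]
    simp
  · have h1 := h (∑ n ∈ s, lp.single 1 n (a n))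
    have h2 := lp.norm_sum_single (p := 1) (E := fun _ : ℕ => ℝ) (by simp) a s
    simp only [ENNReal.toReal_one, Real.rpow_one, Real.norm_eq_abs] at h2
    rw [h2, map_sum] at h1
    convert h1 using 3 with n
    rw [← map_smul, ← lp.single_smul]
    simp

end Pool.Agent.Lib.MP_ac4964_an
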