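import Pool.Agent.Lib.MP_ac4964_an.Retr

set_option autoImplicit false

open Set Filter Topology

namespace Pool.Agent.Lib.MP_ac4964_an

lemma exists_dual_seminorm {V : Type*} [AddCommGroup V] [Module ℝ V] (p : Seminorm ℝ V) (v : V) :
    ∃ ψ : V →ₗ[ℝ] ℝ, ψ v = p v ∧ ∀ x, |ψ x| ≤ p x := by
  by_cases hv : v = 0
  · exact ⟨0, by simp [hv], fun x => by simp⟩
  let f : (ℝ ∙ v) →ₗ[ℝ] ℝ := p v • (LinearEquiv.coord ℝ V v hv).toLinearMap
  have hf : ∀ x : (ℝ ∙ v), f x ≤ p x := by
    rintro ⟨x, hx⟩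
    obtain ⟨a, rfl⟩ := Submodule.mem_span_singleton.1 hx
    have : (LinearEquiv.coord ℝ V v hv) ⟨a • v, hx⟩ = a := by
      have h1 : (⟨a • v, hx⟩ : ℝ ∙ v) = a • ⟨v, Submodule.mem_span_singleton_self v⟩ := rfl
      rw [h1, map_smul, LinearEquiv.coord_self]; simp
    simp only [f, LinearMap.smul_apply, LinearEquiv.coe_coe, this, smul_eq_mul, map_smul_eq_mul]
    rw [mul_comm]
    exact mul_le_mul_of_nonneg_right (le_abs_self a) (apply_nonneg p v)
  obtain ⟨g, hg1, hg2⟩ := Module.Dual.exists_extension_of_le_seminorm_real (ℝ ∙ v) f hf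
  refine ⟨g, ?_, hg2⟩
  have := hg1 ⟨v, Submodule.mem_span_singleton_self v⟩
  simpa [f, LinearEquiv.coord_self] using this

lemma measurableSet_norm_sub_le {A : Type*} [MeasurableSpace A] (j : A → C(ℕ → Bool, ℝ))
    (hj : ∀ t, Measurable fun a => j a t) (g : C(ℕ → Bool, ℝ)) (ρ : ℝ) (hρ : 0 ≤ ρ) :
    MeasurableSet {a | ‖j a - g‖ ≤ ρ} := by
  have e : {a | ‖j a - g‖ ≤ ρ} =
      ⋂ n, {a | |j a (TopologicalSpace.denseSeq (ℕ → Bool) n) -
        g (TopologicalSpace.denseSeq (ℕ → Bool) n)| ≤ ρ} := by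
    ext a
    simp only [mem_ofPred_eq, mem_iInter]
    rw [ContinuousMap.norm_le _ hρ]
    constructor
    · intro h n
      simpa using h (TopologicalSpace.denseSeq (ℕ → Bool) n)
    · intro h x
      have hcl : IsClosed {x | ‖(j a - g) x‖ ≤ ρ} := isClosed_le (by fun_prop) continuous_const
      have hd := (TopologicalSpace.denseRange_denseSeq (ℕ → Bool))
      refine hcl.closure_subset_iff.2 ?_ (hd x)
      rintro _ ⟨n, rfl⟩
      simpa using h n
  rw [e]
  refine MeasurableSet.iInter fun n => measurableSet_le ?_ measurable_const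
  exact ((hj _).sub measurable_const).abs

lemma measurableSet_mem_open {A : Type*} [MeasurableSpace A] (j : A → C(ℕ → Bool, ℝ))
    (hj : ∀ t, Measurable fun a => j a t) (U : Set C(ℕ → Bool, ℝ)) (hU : IsOpen U) :
    MeasurableSet {a | j a ∈ U} := by
  have e : {a | j a ∈ U} = ⋃ n : ℕ, ⋃ m : ℕ,
      ⋃ (_ : Metric.closedBall (TopologicalSpace.denseSeq C(ℕ → Bool, ℝ) n) (1 / (m + 1)) ⊆ U),
        {a | ‖j a - TopologicalSpace.denseSeq C(ℕ → Bool, ℝ) n‖ ≤ 1 / (m + 1)} := by
    ext a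
    simp only [mem_ofPred_eq, mem_iUnion]
    constructor
    · intro h
      obtain ⟨ε, hε, hb⟩ := Metric.isOpen_iff.1 hU _ h
      obtain ⟨m, hm⟩ := exists_nat_one_div_lt (show 0 < ε / 2 by positivity)
      obtain ⟨n, hn⟩ := (TopologicalSpace.denseRange_denseSeq C(ℕ → Bool, ℝ)).exists_dist_lt (j a)
        (show (0 : ℝ) < 1 / (m + 1) by positivity)
      refine ⟨n, m, fun x hx => hb ?_, ?_⟩
      · rw [Metric.mem_closedBall] at hx
        rw [Metric.mem_ball]
        have := dist_triangle_right x (j a) (TopologicalSpace.denseSeq C(ℕ → Bool, ℝ) n)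
        linarith
      · rw [← dist_eq_norm]; exact hn.le
    · rintro ⟨n, m, h1, h2⟩
      exact h1 (by rwa [Metric.mem_closedBall, dist_eq_norm])
  rw [e]
  refine MeasurableSet.iUnion fun n => MeasurableSet.iUnion fun m =>
    MeasurableSet.iUnion fun _ => measurableSet_norm_sub_le j hj _ _ (by positivity)

lemma exists_rat_approx {G E : Type*} [SeminormedAddCommGroup E] [NormedSpace ℝ E]
    (J : (G →₀ ℝ) →ₗ[ℝ] E) (v : G →₀ ℝ) :
    ∀ ε > 0, ∃ w : G →₀ ℚ, ‖J v - J (w.mapRange (fun x : ℚ => (x : ℝ)) Rat.cast_zero)‖ < ε := by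
  induction v using Finsupp.induction_linear with
  | zero => exact fun ε hε => ⟨0, by simpa using hε⟩
  | add f g hf hg =>
    intro ε hε
    obtain ⟨w1, h1⟩ := hf (ε / 2) (by positivity)
    obtain ⟨w2, h2⟩ := hg (ε / 2) (by positivity)
    refine ⟨w1 + w2, ?_⟩
    rw [Finsupp.mapRange_add (by simp), map_add, map_add]
    have := norm_add_le (J f - J (w1.mapRange (fun x : ℚ => (x : ℝ)) Rat.cast_zero))
      (J g - J (w2.mapRange (fun x : ℚ => (x : ℝ)) Rat.cast_zero))
    rw [show ∀ a b c d : E, a + b - (c + d) = (a - c) + (b - d) from fun a b c d => by abel]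
    linarith
  | single g x =>
    intro ε hε
    obtain ⟨y, hy⟩ := exists_rat_near x
      (show 0 < ε / (‖J (Finsupp.single g 1)‖ + 1) by positivity)
    refine ⟨Finsupp.single g y, ?_⟩
    rw [Finsupp.mapRange_single, ← map_sub, ← Finsupp.single_sub,
      show Finsupp.single g (x - y) = (x - y) • Finsupp.single g (1 : ℝ) by simp, map_smul,
      norm_smul, Real.norm_eq_abs]
    rw [lt_div_iff₀ (by positivity)] at hy
    nlinarith [abs_nonneg (x - y)]

theorem exists_embedding {A G : Type} [TopologicalSpace A] [MeasurableSpace A]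
    [OpensMeasurableSpace A] [Countable G]
    (N : A → Seminorm ℝ (G →₀ ℝ)) (husc : ∀ v, UpperSemicontinuous fun a => N a v)
    (c : G → ℝ) (hc : ∀ g, 0 < c g) (hb : ∀ a g, N a (Finsupp.single g 1) ≤ c g) :
    ∃ J : A → (G →₀ ℝ) →ₗ[ℝ] C(ℕ → Bool, ℝ), (∀ a v, ‖J a v‖ = N a v) ∧
      ∀ U, IsOpen U → MeasurableSet {a | (closure (range (J a)) ∩ U).Nonempty} := by
  letI : MetricSpace (G → Icc (-1 : ℝ) 1) := TopologicalSpace.metrizableSpaceMetric _
  haveI : Nonempty (Icc (-1 : ℝ) 1) := ⟨⟨0, by simp⟩⟩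
  obtain ⟨h, hc1, hc2⟩ := exists_nat_bool_continuous_surjective_of_compact (G → Icc (-1 : ℝ) 1)
  let φ : (G → Icc (-1 : ℝ) 1) → (G →₀ ℝ) →ₗ[ℝ] ℝ :=
    fun x => Finsupp.linearCombination ℝ fun g => c g * x g
  have hφ : ∀ v, Continuous fun x => φ x v := by
    intro v
    simp only [φ, Finsupp.linearCombination_apply, Finsupp.sum]
    fun_prop
  let C : Set (A × (ℕ → Bool)) := {p | ∀ v, |φ (h p.2) v| ≤ N p.1 v}
  have hC : IsClosed C := by
    have : C = ⋂ v, {p : A × (ℕ → Bool) | |φ (h p.2) v| ≤ N p.1 v} := by ext; simp [C]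
    rw [this]
    refine isClosed_iInter fun v => ?_
    have h1 : UpperSemicontinuous fun p : A × (ℕ → Bool) => N p.1 v + -|φ (h p.2) v| := by
      refine UpperSemicontinuous.add ((husc v).comp continuous_fst) ?_
      refine Continuous.upperSemicontinuous ?_
      exact (((hφ v).comp (hc1.comp continuous_snd)).abs).neg
    have h2 := h1.isClosed_preimage 0
    convert h2 using 1
    ext p
    simp
  have hsurj : ∀ a (ψ : (G →₀ ℝ) →ₗ[ℝ] ℝ), (∀ x, |ψ x| ≤ N a x) →
      ∃ t, (a, t) ∈ C ∧ φ (h t) = ψ := by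
    intro a ψ hψ
    have hx : ∀ g, ψ (Finsupp.single g 1) / c g ∈ Icc (-1 : ℝ) 1 := by
      intro g
      have := abs_le.1 ((hψ (Finsupp.single g 1)).trans (hb a g))
      constructor
      · rw [le_div_iff₀ (hc g)]; linarith
      · rw [div_le_iff₀ (hc g)]; linarith
    obtain ⟨t, ht⟩ := hc2 fun g => ⟨_, hx g⟩
    have e : φ (h t) = ψ := by
      refine Finsupp.lhom_ext' fun g => LinearMap.ext_ring ?_
      have := (hc g).ne'
      simp [φ, ht]
      field_simp
    exact ⟨t, fun v => by simpa [e] using hψ v, e⟩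
  have hne : ∀ a, ∃ t, (a, t) ∈ C := fun a => by
    obtain ⟨t, ht, -⟩ := hsurj a 0 (fun x => by simp)
    exact ⟨t, ht⟩
  let J : A → (G →₀ ℝ) →ₗ[ℝ] C(ℕ → Bool, ℝ) := fun a =>
    { toFun := fun v => ⟨fun t => φ (h (retr C a t)) v,
        (hφ v).comp (hc1.comp (retr_continuous C a))⟩
      map_add' := fun v w => by ext t; simp
      map_smul' := fun r v => by ext t; simp }
  have hJ : ∀ a v, ‖J a v‖ = N a v := by
    intro a v
    refine le_antisymm ?_ ?_
    · rw [ContinuousMap.norm_le _ (apply_nonneg _ _)]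
      intro t
      exact retr_mem hC a (hne a) t v
    · obtain ⟨ψ, h1, h2⟩ := exists_dual_seminorm (N a) v
      obtain ⟨t, h3, h4⟩ := hsurj a ψ h2
      have : (J a v) t = N a v := by
        show φ (h (retr C a t)) v = _
        rw [retr_fix C a t h3, h4, h1]
      rw [← this]
      exact (le_abs_self _).trans ((J a v).norm_coe_le_norm t)
  refine ⟨J, hJ, fun U hU => ?_⟩
  have e : {a | (closure (range (J a)) ∩ U).Nonempty} =
      ⋃ w : G →₀ ℚ, {a | J a (w.mapRange (fun x : ℚ => (x : ℝ)) Rat.cast_zero) ∈ U} := by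
    ext a
    simp only [mem_ofPred_eq, mem_iUnion]
    constructor
    · rintro ⟨y, hy1, hy2⟩
      obtain ⟨_, hz, v, rfl⟩ := mem_closure_iff.1 hy1 U hU hy2
      obtain ⟨ε, hε, hb⟩ := Metric.isOpen_iff.1 hU _ hz
      obtain ⟨w, hw⟩ := exists_rat_approx (J a) v ε hε
      exact ⟨w, hb (by rwa [Metric.mem_ball, dist_comm, dist_eq_norm])⟩
    · rintro ⟨w, hw⟩
      exact ⟨_, subset_closure ⟨_, rfl⟩, hw⟩
  rw [e]
  refine MeasurableSet.iUnion fun w => measurableSet_mem_open (fun a => J a _) (fun t => ?_) U hU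
  letI : MeasurableSpace (ℕ → Bool) := MeasurableSpace.pi
  exact (((hφ _).comp hc1).measurable).comp (retr_measurable hC t)

end Pool.Agent.Lib.MP_ac4964_an
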