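import Pool.Agent.Lib.MP_ac4964_an.Main
import Pool.Agent.Lib.MP_ac4964_an.Deep

set_option autoImplicit false

open Set Filter Topology MeasureTheory TopologicalSpace

namespace Pool.Agent.Lib.MP_ac4964_an

/-
Outline. Fix one of the norms `NA α`. If an embedding `T` of the space into `Y` is a bounded
pointwise limit of operators whose adjoints have separable range, these operators replace the
nearby parameters of `hasL1_of_universal`: the displacement law is almost invariant under the shears,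
so it lives on arbitrarily deep tests, while a countable family of functionals is small on average
on disjoint tests (`core_deep`).
-/

/-- The adjoint of `S` has separable range for the dual norm of `N`. -/
def SepAdj {V Y : Type*} [AddCommGroup V] [Module ℝ V] [NormedAddCommGroup Y] [NormedSpace ℝ Y]
    (N : V → ℝ) (S : V →ₗ[ℝ] Y) : Prop :=
  ∃ Ψ : ℕ → V →ₗ[ℝ] ℝ, (∀ j, ∃ c, 0 ≤ c ∧ ∀ v, |Ψ j v| ≤ c * N v) ∧
    ∀ φ : Y →L[ℝ] ℝ, ∀ ε > 0, ∃ j, ∀ v, |φ (S v) - Ψ j v| ≤ ε * N v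

/-- `T` is a bounded pointwise limit of operators whose adjoints have separable range. -/
def Appr {G Y : Type*} [NormedAddCommGroup Y] [NormedSpace ℝ Y] (N : (G →₀ ℝ) → ℝ)
    (T : (G →₀ ℝ) →ₗ[ℝ] Y) (Λ : ℝ) : Prop :=
  ∀ (F : Finset G), ∀ ε > 0, ∃ S : (G →₀ ℝ) →ₗ[ℝ] Y, (∀ v, ‖S v‖ ≤ Λ * N v) ∧
    (∀ g ∈ F, ‖S (Finsupp.single g 1) - T (Finsupp.single g 1)‖ ≤ ε) ∧ SepAdj N S

open Classical in
lemma NA_tests (α : Bits) {s J : ℕ} (hJ : s ≤ J) (k : ℕ) (ι : Type) (t : Finset ι) (c : ι → ℝ)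
    (b : ι → Bool) (ρ : ι → ℕ) (z : ι → PP (qq s)) (φ : ι → Par (qq s)) (M : ℝ)
    (hρ : ∀ i ∈ t, ρ i < 4 ^ s) (hM : 0 ≤ M)
    (hsup : ∀ e', |∑ i ∈ t, c i *
      (if e' ∈ Tst (4 ^ s) (b i) (ρ i) α k (z i) (φ i) then 1 else 0)| ≤ M) :
    NA α (∑ i ∈ t, c i • Finsupp.single (pull s (Tst (4 ^ s) (b i) (ρ i) α k (z i) (φ i))) 1) ≤
      2 ^ J * M + 1 / 2 ^ J * ∑ i ∈ t, |c i| := by
  let θ : ι → Idx := fun i =>
    if h : ρ i < 4 ^ s then Sum.inr ⟨s, b i, ⟨ρ i, h⟩, k, z i, φ i⟩ else Sum.inl ⊥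
  have hθ : ∀ i ∈ t, pull s (Tst (4 ^ s) (b i) (ρ i) α k (z i) (φ i)) = Cl α (θ i) :=
    fun i hi => by rw [pull_Tst s _ _ (hρ i hi)]; simp [θ, hρ i hi]
  have hrep := Rep.sum (F := fun α θ => ind (Cl α θ)) (lev := lev) (j := J + 1) t
    (fun i => c i • fun α => ind (Cl α (θ i))) (fun i => |c i| * 1)
    (fun i hi => Rep.smul _ _ _ (Rep.base _ (by simp [θ, hρ i hi, lev]; omega)))
  have h1 := NN_le_of_rep hgen (a := α) (v := ∑ i ∈ t, c i • Finsupp.single
    (pull s (Tst (4 ^ s) (b i) (ρ i) α k (z i) (φ i))) 1) hrep (by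
      simp only [map_sum, map_smul, Finsupp.linearCombination_single, one_smul,
        Finset.sum_apply, Pi.smul_apply]
      exact Finset.sum_congr rfl fun i hi => by rw [hθ i hi])
  refine h1.trans (add_le_add (mul_le_mul_of_nonneg_left ?_ (by positivity)) (le_of_eq ?_))
  · rw [ContinuousMap.norm_le _ hM]
    intro e
    simp only [Finset.sum_apply, Pi.smul_apply, ContinuousMap.coe_sum, ContinuousMap.coe_smul,
      smul_eq_mul, ind_apply, Real.norm_eq_abs]
    convert hsup (e s) using 3 with i hi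
    simp only [θ, hρ i hi, dif_pos, Cl]
    rfl
  · simp only [mul_one]; ring

lemma small_on_disj (α : Bits) (s k : ℕ) (Ψ : (Clopens KT →₀ ℝ) →ₗ[ℝ] ℝ) (c : ℝ) (hc : 0 ≤ c)
    (hΨ : ∀ v, |Ψ v| ≤ c * NA α v) (ε : ℝ) (hε : 0 < ε) :
    ∀ᶠ P : ℕ in atTop, ∀ ρ, ρ < 4 ^ s → ∀ (z : ℕ → PP (qq s)) (φ : Par (qq s)),
      Disj (fun i => Tst (4 ^ s) false ρ α k (z i) φ) P →
      ∑ i ∈ Finset.range P, |Ψ (Finsupp.single (pull s (Tst (4 ^ s) false ρ α k (z i) φ)) 1)| ≤
        ε * P := by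
  classical
  obtain ⟨J, hJ1, hJ2⟩ : ∃ J : ℕ, s ≤ J ∧ 2 * c / ε ≤ 2 ^ J :=
    ((eventually_ge_atTop s).and ((tendsto_pow_atTop_atTop_of_one_lt
      (by norm_num : (1 : ℝ) < 2)).eventually_ge_atTop _)).exists
  filter_upwards [(tendsto_natCast_atTop_atTop (R := ℝ)).eventually_ge_atTop (2 * c * 2 ^ J / ε)]
    with P hP ρ hρ z φ hd
  let σ : ℕ → ℝ := fun i =>
    if 0 ≤ Ψ (Finsupp.single (pull s (Tst (4 ^ s) false ρ α k (z i) φ)) 1) then 1 else -1
  have hσ : ∀ i, |σ i| = 1 := fun i => by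
    simp only [σ]
    split_ifs <;> simp
  have h1 := NA_tests α hJ1 k ℕ (Finset.range P) σ (fun _ => false) (fun _ => ρ) z (fun _ => φ) 1
    (fun _ _ => hρ) zero_le_one fun e' => by
      refine (Finset.abs_sum_le_sum_abs _ _).trans (le_trans (le_of_eq ?_)
        (sum_ite_le_one (Finset.range P) (fun i => e' ∈ Tst (4 ^ s) false ρ α k (z i) φ)
          fun i hi j hj => hd i j e' (Finset.mem_range.1 hi) (Finset.mem_range.1 hj)))
      refine Finset.sum_congr rfl fun i _ => ?_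
      rw [abs_mul, hσ]
      split_ifs <;> simp
  have h2 := ((le_abs_self _).trans (hΨ _)).trans (mul_le_mul_of_nonneg_left h1 hc)
  simp only [map_sum, map_smul, smul_eq_mul, hσ, Finset.sum_const, Finset.card_range,
    nsmul_eq_mul, mul_one] at h2
  have h3 : ∀ i, |Ψ (Finsupp.single (pull s (Tst (4 ^ s) false ρ α k (z i) φ)) 1)| =
      σ i * Ψ (Finsupp.single (pull s (Tst (4 ^ s) false ρ α k (z i) φ)) 1) := fun i => by
    simp only [σ]
    split_ifs with h
    · rw [one_mul, abs_of_nonneg h]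
    · rw [neg_one_mul, abs_of_neg (not_le.1 h)]
  simp only [h3]
  refine h2.trans ?_
  have h4 : (0 : ℝ) < 2 ^ J := by positivity
  have h5 : (0 : ℝ) ≤ P := Nat.cast_nonneg _
  rw [div_le_iff₀ hε] at hJ2 hP
  have h6 : c * (1 / 2 ^ J) ≤ ε / 2 := by
    rw [mul_one_div, div_le_iff₀ h4]
    linarith
  nlinarith [mul_le_mul_of_nonneg_right h6 h5]

theorem hasL1_of_appr_sep {Y : Type*} [NormedAddCommGroup Y] [NormedSpace ℝ Y] [CompleteSpace Y]
    [SeparableSpace Y] (α : Bits) (T : (Clopens KT →₀ ℝ) →ₗ[ℝ] Y) (lam : ℕ)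
    (hα : ∀ v, NA α v ≤ lam * ‖T v‖) (Λ : ℝ) (hΛ : 0 ≤ Λ) (hT : Appr (NA α) T Λ) : HasL1 Y := by
  classical
  by_contra hY
  obtain ⟨s, hs⟩ : ∃ s : ℕ, (lam : ℝ) * Λ * 100 < 2 ^ s :=
    ((tendsto_pow_atTop_atTop_of_one_lt (by norm_num)).eventually_gt_atTop _).exists
  let sec : KS (qq s) → KT := fun e => Function.update (fun _ => 0) s e
  have hsec : Continuous sec := continuous_const.update s continuous_id
  have hsec2 : ∀ e, sec e s = e := fun e => by simp [sec]
  let ev : KS (qq s) → (Clopens KT →₀ ℝ) →ₗ[ℝ] ℝ := fun e =>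
    (ContinuousMap.evalCLM ℝ (sec e)).toLinearMap.comp (Finsupp.linearCombination ℝ ind)
  obtain ⟨l, hl1, hl2, hl3⟩ := exists_measurable_lift T ev
    (fun v => (Finsupp.linearCombination ℝ ind v).continuous.comp hsec) lam (by positivity)
    (fun e v => (((Finsupp.linearCombination ℝ ind v).norm_coe_le_norm (sec e)).trans
      (norm_le_NN (lev := lev) hgen α v)).trans (hα v))
  have hfin : ∀ k : ℕ, (⋃ ρ ∈ Iio (4 ^ s), range fun z =>
      pull s (Tst (4 ^ s) false ρ α k z (par0 _ (4 ^ s)))).Finite := by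
    intro k
    refine (finite_Iio _).biUnion fun ρ _ => IsLocallyConstant.range_finite ?_
    exact ((isLocallyConstant_Tst (4 ^ s) false ρ k (par0 _ (4 ^ s))).comp_continuous
      (f := fun z => (α, z)) (by fun_prop)).comp (pull s)
  choose S hS1 hS2 hS3 using fun k => hT (hfin k).toFinset (1 / (2 * (lam + 1))) (by positivity)
  refine core_deep (q := qq s) (r := 4 ^ s) (le_qq s) (by positivity) hY α (fun _ => α)
    (fun _ _ _ => rfl) (fun k U => S k (Finsupp.single (pull s U) 1)) (Λ * 2 ^ s)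
    (Λ * (1 / 2 ^ s)) (by positivity) (by positivity) ?_ l hl1 lam (by positivity) hl2 ?_ ?_ ?_
  · intro k ι t c b ρ z φ M hρ hM hsup
    have h1 := (hS1 k _).trans (mul_le_mul_of_nonneg_left
      (NA_tests α le_rfl k ι t c b ρ z φ M hρ hM hsup) hΛ)
    simp only [map_sum, map_smul] at h1
    exact h1.trans (le_of_eq (by ring))
  · intro k ρ e hρ
    have h1 := hl3 e (Finsupp.single
      (pull s (Tst (4 ^ s) false ρ α k (Gam (4 ^ s) false ρ α e) (par0 _ (4 ^ s)))) 1)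
    have h2 : ev e (Finsupp.single
        (pull s (Tst (4 ^ s) false ρ α k (Gam (4 ^ s) false ρ α e) (par0 _ (4 ^ s)))) 1) = 1 := by
      simp only [ev, LinearMap.comp_apply, Finsupp.linearCombination_single, one_smul,
        ContinuousLinearMap.coe_coe, ContinuousMap.evalCLM_apply, ind_apply]
      rw [if_pos]
      rw [pull_Tst s _ _ hρ]
      show sec e s ∈ Tst _ _ _ _ _ _ _
      rw [hsec2]
      simp only [Tst, Cnd, Cyl, pset, par0, mem_ofPred_eq, sub_self, Pi.zero_apply, Prod.snd_zero,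
        Prod.fst_zero, map_zero, add_zero, implies_true, true_and]
      exact ⟨fun _ _ _ _ => ⟨rfl, rfl⟩, zero_mem_vset_RU le_rfl⟩
    have h3 := (hl2 e _).trans (mul_le_mul_of_nonneg_left
      (hS2 k _ ((hfin k).mem_toFinset.2
        (mem_iUnion₂.2 ⟨ρ, hρ, Gam (4 ^ s) false ρ α e, rfl⟩))) (by positivity))
    rw [map_sub, h1, h2, abs_le] at h3
    have h4 : (lam : ℝ) * (1 / (2 * (lam + 1))) ≤ 1 / 2 := by
      rw [mul_one_div, div_le_div_iff₀ (by positivity) (by positivity)]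
      linarith
    linarith [h3.1]
  · have h1 : ((4 ^ s : ℕ) : ℝ) = 2 ^ s * 2 ^ s := by
      push_cast
      rw [← mul_pow]; norm_num
    rw [h1]
    have h2 : (0 : ℝ) < 2 ^ s := by positivity
    have : (lam : ℝ) * (Λ * 2 ^ s / (2 ^ s * 2 ^ s) + 4 * (Λ * (1 / 2 ^ s))) =
        lam * Λ * 5 / 2 ^ s := by
      field_simp
      ring
    rw [this, div_le_iff₀ h2]
    linarith
  · intro k
    obtain ⟨Ψ, hΨ1, hΨ2⟩ := hS3 k
    have hB : (0 : ℝ) < 2 ^ s + 1 / 2 ^ s := by positivity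
    refine ⟨fun j U => Ψ j (Finsupp.single (pull s U) 1), fun j => ⋂ g : Clopens KT,
      ⋂ _ : NA α (Finsupp.single g 1) ≤ 2 ^ s + 1 / 2 ^ s,
        {e | l e (S k (Finsupp.single g 1)) ≤ |Ψ j (Finsupp.single g 1)| + 1 / 50},
      fun j => MeasurableSet.iInter fun g => MeasurableSet.iInter fun _ =>
        measurableSet_le (hl1 _) measurable_const, fun e => ?_, fun j e he ρ z φ hρ => ?_,
      fun j ε hε => ?_⟩
    · obtain ⟨j, hj⟩ := hΨ2 ((l e).mkContinuous lam (hl2 e)) (1 / (50 * (2 ^ s + 1 / 2 ^ s)))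
        (by positivity)
      refine ⟨j, mem_iInter₂.2 fun g hg => ?_⟩
      have h1 := (hj (Finsupp.single g 1)).trans (mul_le_mul_of_nonneg_left hg (by positivity))
      rw [show 1 / (50 * ((2 : ℝ) ^ s + 1 / 2 ^ s)) * (2 ^ s + 1 / 2 ^ s) = 1 / 50 by field_simp,
        LinearMap.mkContinuous_apply, abs_le] at h1
      simp only [mem_ofPred_eq]
      linarith [h1.2, le_abs_self (Ψ j (Finsupp.single g 1))]
    · refine mem_iInter₂.1 he _ ?_
      have := NA_tests α le_rfl k Unit {()} (fun _ => 1) (fun _ => false) (fun _ => ρ) (fun _ => z)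
        (fun _ => φ) 1 (fun _ _ => hρ) zero_le_one (fun e' => by
          rw [Finset.sum_singleton]; split_ifs <;> simp)
      simpa using this
    · obtain ⟨c, hc, hc'⟩ := hΨ1 j
      exact small_on_disj α s k (Ψ j) c hc hc' ε hε

theorem hasL1_of_appr {Y : Type*} [NormedAddCommGroup Y] [NormedSpace ℝ Y] [CompleteSpace Y]
    (α : Bits) (T : (Clopens KT →₀ ℝ) →ₗ[ℝ] Y) (lam : ℕ)
    (hα : ∀ v, NA α v ≤ lam * ‖T v‖) (Λ : ℝ) (hΛ : 0 ≤ Λ) (hT : Appr (NA α) T Λ) : HasL1 Y := by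
  choose S hS1 hS2 hS3 using fun (p : Finset (Clopens KT) × ℕ) =>
    hT p.1 (1 / ((p.2 : ℝ) + 1)) (by positivity)
  let D : Set Y := range (fun g => T (Finsupp.single g 1)) ∪
    range fun p : (Finset (Clopens KT) × ℕ) × Clopens KT => S p.1 (Finsupp.single p.2 1)
  let Z : Submodule ℝ Y := (Submodule.span ℝ D).topologicalClosure
  have hD : D.Countable := (countable_range _).union (countable_range _)
  have hZ : IsSeparable (Z : Set Y) := hD.isSeparable.span.closure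
  have : SeparableSpace Z := hZ.separableSpace
  have : CompleteSpace Z := (Submodule.isClosed_topologicalClosure _).completeSpace_coe
  have key : ∀ U : (Clopens KT →₀ ℝ) →ₗ[ℝ] Y, (∀ g, U (Finsupp.single g 1) ∈ D) →
      ∀ v, U v ∈ Z := by
    intro U hU v
    induction v using Finsupp.induction_linear with
    | zero => simp
    | add f g hf hg => rw [map_add]; exact Z.add_mem hf hg
    | single g a =>
      rw [← mul_one a, ← smul_eq_mul, ← Finsupp.smul_single, map_smul]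
      exact Z.smul_mem _ (Submodule.le_topologicalClosure _ (Submodule.subset_span (hU g)))
  obtain ⟨U, c, hc, hU⟩ := hasL1_of_appr_sep (Y := Z) α
    (T.codRestrict Z (key T fun g => Or.inl ⟨g, rfl⟩)) lam hα Λ hΛ fun F ε hε => by
      obtain ⟨n, hn⟩ := exists_nat_one_div_lt hε
      refine ⟨(S (F, n)).codRestrict Z (key _ fun g => Or.inr ⟨((F, n), g), rfl⟩), hS1 _,
        fun g hg => (hS2 (F, n) g hg).trans hn.le, ?_⟩
      obtain ⟨Ψ, h1, h2⟩ := hS3 (F, n)
      refine ⟨Ψ, h1, fun φ δ hδ => ?_⟩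
      obtain ⟨φ', h3, -⟩ := exists_extension_norm_eq Z φ
      obtain ⟨j, hj⟩ := h2 φ' δ hδ
      exact ⟨j, fun v => by rw [← h3]; exact hj v⟩
  exact ⟨Z.subtypeL.comp U, c, hc, hU⟩

theorem exists_space (α : Bits) : ∃ (X : ClosedSubmodule ℝ C(ℕ → Bool, ℝ))
    (j : (Clopens KT →₀ ℝ) →ₗ[ℝ] X.toSubmodule), ¬ HasL1 X.toSubmodule ∧ ∀ v, ‖j v‖ = NA α v := by
  obtain ⟨J, hJ1, -⟩ := exists_embedding NA (NN_usc continuous_Cl hgen)
    (fun g => 2 ^ lev (Sum.inl g) + 1) (fun g => by positivity) NA_single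
  exact ⟨⟨(LinearMap.range (J α)).topologicalClosure, Submodule.isClosed_topologicalClosure _⟩,
    (J α).codRestrict (LinearMap.range (J α)).topologicalClosure
      (fun v => Submodule.le_topologicalClosure _ (LinearMap.mem_range_self _ v)),
    not_hasL1_closure α (J α) (hJ1 α), hJ1 α⟩

end Pool.Agent.Lib.MP_ac4964_an
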