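import Mathlib

set_option autoImplicit false

open Set Filter Topology

namespace Pool.Agent.Lib.MP_ac4964_an

section Interp

variable {A Θ E : Type} [NormedAddCommGroup E] [NormedSpace ℝ E]

/-- `w` is a combination of tests of level `< j` with coefficients of total size at most `m`. -/
inductive Rep (F : A → Θ → E) (lev : Θ → ℕ) (j : ℕ) : (A → E) → ℝ → Prop
  | zero : Rep F lev j 0 0
  | base (θ : Θ) (h : lev θ < j) : Rep F lev j (fun a => F a θ) 1
  | smul (t : ℝ) (w : A → E) (m : ℝ) (h : Rep F lev j w m) : Rep F lev j (t • w) (|t| * m)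
  | add (w w' : A → E) (m m' : ℝ) (h : Rep F lev j w m) (h' : Rep F lev j w' m') :
      Rep F lev j (w + w') (m + m')

variable {F : A → Θ → E} {lev : Θ → ℕ}

lemma Rep.nonneg {j : ℕ} {w : A → E} {m : ℝ} (h : Rep F lev j w m) : 0 ≤ m := by
  induction h <;> positivity

lemma Rep.mono {j j' : ℕ} (hj : j ≤ j') {w : A → E} {m : ℝ} (h : Rep F lev j w m) :
    Rep F lev j' w m := by
  induction h with
  | zero => exact Rep.zero
  | base θ h => exact Rep.base θ (h.trans_le hj)
  | smul t w m _ ih => exact Rep.smul t w m ih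
  | add w w' m m' _ _ ih ih' => exact Rep.add w w' m m' ih ih'

lemma Rep.eq_zero {w : A → E} {m : ℝ} (h : Rep F lev 0 w m) : w = 0 := by
  induction h with
  | zero => rfl
  | base θ h => simp at h
  | smul t w m _ ih => simp [ih]
  | add w w' m m' _ _ ih ih' => simp [ih, ih']

lemma Rep.continuous [TopologicalSpace A] (hF : ∀ θ, Continuous fun a => F a θ) {j : ℕ}
    {w : A → E} {m : ℝ} (h : Rep F lev j w m) : Continuous w := by
  induction h with
  | zero => exact continuous_const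
  | base θ h => exact hF θ
  | smul t w m _ ih => exact ih.const_smul t
  | add w w' m m' _ _ ih ih' => exact ih.add ih'

lemma Rep.sum {ι : Type*} {j : ℕ} (s : Finset ι) (w : ι → A → E) (m : ι → ℝ)
    (h : ∀ i ∈ s, Rep F lev j (w i) (m i)) : Rep F lev j (∑ i ∈ s, w i) (∑ i ∈ s, m i) := by
  classical
  induction s using Finset.induction_on with
  | empty => simpa using Rep.zero
  | insert i s hi ih =>
    rw [Finset.sum_insert hi, Finset.sum_insert hi]
    exact Rep.add _ _ _ _ (h i (by simp)) (ih fun i hi => h i (by simp [hi]))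

variable (F lev) in
/-- The `j`-th interpolation seminorm. -/
noncomputable def pn (j : ℕ) (a : A) (g : E) : ℝ :=
  sInf {x | ∃ w m, Rep F lev j w m ∧ x = 2 ^ j * ‖g - w a‖ + m / 2 ^ j}

lemma pn_le {j : ℕ} (a : A) (g : E) {w : A → E} {m : ℝ} (h : Rep F lev j w m) :
    pn F lev j a g ≤ 2 ^ j * ‖g - w a‖ + m / 2 ^ j := by
  refine csInf_le ⟨0, ?_⟩ ⟨w, m, h, rfl⟩
  rintro _ ⟨w, m, h, rfl⟩
  have := h.nonneg
  positivity

lemma le_pn {j : ℕ} {a : A} {g : E} {y : ℝ}
    (h : ∀ w m, Rep F lev j w m → y ≤ 2 ^ j * ‖g - w a‖ + m / 2 ^ j) : y ≤ pn F lev j a g := by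
  refine le_csInf ⟨_, 0, 0, Rep.zero, rfl⟩ ?_
  rintro _ ⟨w, m, hw, rfl⟩
  exact h w m hw

lemma exists_of_pn_lt {j : ℕ} {a : A} {g : E} {y : ℝ} (h : pn F lev j a g < y) :
    ∃ w m, Rep F lev j w m ∧ 2 ^ j * ‖g - w a‖ + m / 2 ^ j < y := by
  by_contra hc
  push Not at hc
  exact absurd (le_pn hc) (not_le.2 h)

lemma pn_nonneg (j : ℕ) (a : A) (g : E) : 0 ≤ pn F lev j a g :=
  le_pn fun w m h => by have := h.nonneg; positivity

lemma pn_le_norm (j : ℕ) (a : A) (g : E) : pn F lev j a g ≤ 2 ^ j * ‖g‖ := by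
  simpa using pn_le a g (Rep.zero (F := F) (lev := lev) (j := j))

lemma norm_le_pn (a : A) (g : E) : ‖g‖ ≤ pn F lev 0 a g :=
  le_pn fun w m h => by have := h.nonneg; simpa [h.eq_zero] using this

lemma pn_add_le (j : ℕ) (a : A) (g g' : E) :
    pn F lev j a (g + g') ≤ pn F lev j a g + pn F lev j a g' := by
  refine le_of_forall_pos_le_add fun ε hε => ?_
  obtain ⟨w, m, h1, h2⟩ := exists_of_pn_lt (show pn F lev j a g < pn F lev j a g + ε / 2 by linarith)
  obtain ⟨w', m', h3, h4⟩ :=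
    exists_of_pn_lt (show pn F lev j a g' < pn F lev j a g' + ε / 2 by linarith)
  have h5 := pn_le a (g + g') (Rep.add _ _ _ _ h1 h3)
  have h6 : ‖g + g' - (w + w') a‖ ≤ ‖g - w a‖ + ‖g' - w' a‖ := by
    rw [Pi.add_apply, show g + g' - (w a + w' a) = (g - w a) + (g' - w' a) by abel]
    exact norm_add_le _ _
  have h7 := mul_le_mul_of_nonneg_left h6 (show (0 : ℝ) ≤ 2 ^ j by positivity)
  rw [add_div] at h5
  linarith

lemma pn_smul_le (j : ℕ) (a : A) (t : ℝ) (g : E) :
    pn F lev j a (t • g) ≤ |t| * pn F lev j a g := by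
  rcases eq_or_ne t 0 with rfl | ht
  · simpa using pn_le_norm (F := F) (lev := lev) j a 0
  have ht' : 0 < |t| := abs_pos.2 ht
  rw [mul_comm, ← div_le_iff₀ ht']
  refine le_pn fun w m h => ?_
  rw [div_le_iff₀ ht']
  have := pn_le a (t • g) (Rep.smul t _ _ h)
  rw [Pi.smul_apply, ← smul_sub, norm_smul, Real.norm_eq_abs] at this
  refine this.trans (le_of_eq ?_)
  ring

lemma pn_usc [TopologicalSpace A] (hF : ∀ θ, Continuous fun a => F a θ) (j : ℕ) (g : E) :
    UpperSemicontinuous fun a => pn F lev j a g := by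
  intro a y hy
  obtain ⟨w, m, h1, h2⟩ := exists_of_pn_lt hy
  have h3 := h1.continuous hF
  have h4 : Continuous fun a => 2 ^ j * ‖g - w a‖ + m / 2 ^ j := by fun_prop
  filter_upwards [h4.continuousAt.eventually_lt continuousAt_const h2] with b hb
  exact (pn_le b g h1).trans_lt hb

lemma pn_le_of_rep {s : ℕ} {w : A → E} {m : ℝ} (h : Rep F lev (s + 1) w m) (a : A) (j : ℕ) :
    pn F lev j a (w a) ≤ 2 ^ s * ‖w a‖ + m / 2 ^ s := by
  have hm := h.nonneg
  rcases le_or_gt j s with hj | hj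
  · refine (pn_le_norm j a _).trans ?_
    have : (2 : ℝ) ^ j ≤ 2 ^ s := pow_le_pow_right₀ (by norm_num) hj
    have := mul_le_mul_of_nonneg_right this (norm_nonneg (w a))
    have : 0 ≤ m / 2 ^ s := by positivity
    linarith
  · refine (pn_le a _ (h.mono hj)).trans ?_
    have : (2 : ℝ) ^ s ≤ 2 ^ j := pow_le_pow_right₀ (by norm_num) hj.le
    have : m / 2 ^ j ≤ m / 2 ^ s := div_le_div_of_nonneg_left hm (by positivity) this
    have : (0 : ℝ) ≤ 2 ^ s * ‖w a‖ := by positivity
    simp only [sub_self, norm_zero, mul_zero, zero_add]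
    linarith

variable {G : Type} {gen : G → E}

lemma exists_rep (hgen : ∀ g, ∃ θ, ∀ a, F a θ = gen g) (v : G →₀ ℝ) :
    ∃ s m, Rep F lev (s + 1) (fun _ => Finsupp.linearCombination ℝ gen v) m := by
  induction v using Finsupp.induction_linear with
  | zero => exact ⟨0, 0, by rw [map_zero]; exact Rep.zero⟩
  | add f g hf hg =>
    obtain ⟨s, m, h⟩ := hf
    obtain ⟨s', m', h'⟩ := hg
    refine ⟨max s s', m + m', ?_⟩
    have := Rep.add _ _ _ _ (h.mono (Nat.succ_le_succ (le_max_left s s')))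
      (h'.mono (Nat.succ_le_succ (le_max_right s s')))
    convert this using 1
    funext a; simp
  | single g x =>
    obtain ⟨θ, hθ⟩ := hgen g
    refine ⟨lev θ, |x| * 1, ?_⟩
    have := Rep.smul x _ _ (Rep.base (F := F) (lev := lev) θ (Nat.lt_succ_self _))
    convert this using 1
    funext a; simp [hθ]

lemma pn_bdd (hgen : ∀ g, ∃ θ, ∀ a, F a θ = gen g) (a : A) (v : G →₀ ℝ) :
    BddAbove (range fun j => pn F lev j a (Finsupp.linearCombination ℝ gen v)) := by
  obtain ⟨s, m, h⟩ := exists_rep (lev := lev) hgen v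
  refine ⟨2 ^ s * ‖Finsupp.linearCombination ℝ gen v‖ + m / 2 ^ s, ?_⟩
  rintro _ ⟨j, rfl⟩
  exact pn_le_of_rep h a j

lemma pn_small (hgen : ∀ g, ∃ θ, ∀ a, F a θ = gen g) (v : G →₀ ℝ) {ε : ℝ} (hε : 0 < ε) :
    ∃ J, ∀ j, J ≤ j → ∀ a, pn F lev j a (Finsupp.linearCombination ℝ gen v) ≤ ε := by
  obtain ⟨s, m, h⟩ := exists_rep (lev := lev) hgen v
  have h1 : Tendsto (fun j : ℕ => m / 2 ^ j) atTop (𝓝 0) :=
    tendsto_const_nhds.div_atTop (tendsto_pow_atTop_atTop_of_one_lt (by norm_num))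
  obtain ⟨J, hJ⟩ := eventually_atTop.1
    ((h1.eventually (ge_mem_nhds hε)).and (eventually_ge_atTop (s + 1)))
  refine ⟨J, fun j hj a => ?_⟩
  have := pn_le a (Finsupp.linearCombination ℝ gen v) (h.mono (hJ j hj).2)
  simp only [sub_self, norm_zero, mul_zero, zero_add] at this
  exact this.trans (hJ j hj).1

variable (lev) in
/-- The interpolation norm. -/
noncomputable def NN (hgen : ∀ g, ∃ θ, ∀ a, F a θ = gen g) (a : A) : Seminorm ℝ (G →₀ ℝ) :=
  Seminorm.ofSMulLE (fun v => ⨆ j, pn F lev j a (Finsupp.linearCombination ℝ gen v))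
    (by
      have : ∀ j, pn F lev j a 0 = 0 :=
        fun j => le_antisymm (by simpa using pn_le_norm (F := F) (lev := lev) j a 0) (pn_nonneg ..)
      simp [this])
    (fun v w => ciSup_le fun j => by
      rw [map_add]
      exact (pn_add_le j a _ _).trans
        (add_le_add (le_ciSup (pn_bdd hgen a v) j) (le_ciSup (pn_bdd hgen a w) j)))
    (fun r v => ciSup_le fun j => by
      rw [map_smul]
      exact (pn_smul_le j a _ _).trans
        (mul_le_mul_of_nonneg_left (le_ciSup (pn_bdd hgen a v) j) (abs_nonneg r)))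

lemma pn_le_NN (hgen : ∀ g, ∃ θ, ∀ a, F a θ = gen g) (a : A) (v : G →₀ ℝ) (j : ℕ) :
    pn F lev j a (Finsupp.linearCombination ℝ gen v) ≤ NN lev hgen a v :=
  le_ciSup (pn_bdd hgen a v) j

lemma NN_le (hgen : ∀ g, ∃ θ, ∀ a, F a θ = gen g) {a : A} {v : G →₀ ℝ} {y : ℝ}
    (h : ∀ j, pn F lev j a (Finsupp.linearCombination ℝ gen v) ≤ y) : NN lev hgen a v ≤ y :=
  ciSup_le h

lemma norm_le_NN (hgen : ∀ g, ∃ θ, ∀ a, F a θ = gen g) (a : A) (v : G →₀ ℝ) :
    ‖Finsupp.linearCombination ℝ gen v‖ ≤ NN lev hgen a v :=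
  (norm_le_pn a _).trans (pn_le_NN hgen a v 0)

lemma NN_le_of_rep (hgen : ∀ g, ∃ θ, ∀ a, F a θ = gen g) {a : A} {v : G →₀ ℝ} {s : ℕ}
    {w : A → E} {m : ℝ} (h : Rep F lev (s + 1) w m)
    (e : Finsupp.linearCombination ℝ gen v = w a) :
    NN lev hgen a v ≤ 2 ^ s * ‖w a‖ + m / 2 ^ s :=
  NN_le hgen fun j => e ▸ pn_le_of_rep h a j

lemma NN_usc [TopologicalSpace A] (hF : ∀ θ, Continuous fun a => F a θ)
    (hgen : ∀ g, ∃ θ, ∀ a, F a θ = gen g) (v : G →₀ ℝ) :
    UpperSemicontinuous fun a => NN lev hgen a v := by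
  intro a y hy
  obtain ⟨y', h1, h2⟩ := exists_between hy
  obtain ⟨J, hJ⟩ := pn_small (lev := lev) hgen v ((apply_nonneg _ _).trans_lt h1)
  have : ∀ᶠ b in 𝓝 a, ∀ j ∈ Finset.range J,
      pn F lev j b (Finsupp.linearCombination ℝ gen v) < y' := by
    rw [eventually_all_finset]
    exact fun j _ => pn_usc hF j _ a y' ((pn_le_NN hgen a v j).trans_lt h1)
  filter_upwards [this] with b hb
  refine lt_of_le_of_lt (NN_le hgen fun j => ?_) h2
  rcases lt_or_ge j J with hj | hj
  · exact (hb j (Finset.mem_range.2 hj)).le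
  · exact hJ j hj b

lemma seminorm_sum_le {V ι : Type*} [AddCommGroup V] [Module ℝ V] (p : Seminorm ℝ V)
    (s : Finset ι) (f : ι → V) : p (∑ i ∈ s, f i) ≤ ∑ i ∈ s, p (f i) :=
  Finset.le_sum_of_subadditive p (map_zero p).le (map_add_le_add p) s f

theorem no_l1_seq (hgen : ∀ g, ∃ θ, ∀ a, F a θ = gen g) (a : A)
    (hsmall : ∀ (f : ℕ → E) (B ε : ℝ), (∀ n j, pn F lev j a (f n) ≤ B) → 0 < ε →
      ¬ ∀ (N : ℕ) (c : ℕ → ℝ), ε * ∑ n ∈ Finset.range N, |c n| ≤ ‖∑ n ∈ Finset.range N, c n • f n‖)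
    (v : ℕ → G →₀ ℝ) (B c : ℝ) (hc : 0 < c) (hB : ∀ n, NN lev hgen a (v n) ≤ B) :
    ¬ ∀ (N : ℕ) (x : ℕ → ℝ),
      c * ∑ n ∈ Finset.range N, |x n| ≤ NN lev hgen a (∑ n ∈ Finset.range N, x n • v n) := by
  intro h
  have hB0 : 0 ≤ B := (apply_nonneg _ _).trans (hB 0)
  have block : ∀ (N₀ : ℕ) (ε : ℝ), 0 < ε → ∃ (N : ℕ) (x : ℕ → ℝ),
      ∑ n ∈ Finset.range N, |x n| = 1 ∧
      ‖Finsupp.linearCombination ℝ gen (∑ n ∈ Finset.range N, x n • v (N₀ + n))‖ ≤ ε := by
    intro N₀ ε hε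
    have := hsmall (fun n => Finsupp.linearCombination ℝ gen (v (N₀ + n))) B ε
      (fun n j => (pn_le_NN hgen a _ j).trans (hB _)) hε
    push Not at this
    obtain ⟨N, x, hx⟩ := this
    have hpos : 0 < ∑ n ∈ Finset.range N, |x n| :=
      pos_of_mul_pos_right ((norm_nonneg _).trans_lt hx) hε.le
    refine ⟨N, fun n => (∑ n ∈ Finset.range N, |x n|)⁻¹ * x n, ?_, ?_⟩
    · simp only [abs_mul, ← Finset.mul_sum]
      rw [abs_of_pos (inv_pos.2 hpos), inv_mul_cancel₀ hpos.ne']
    · simp only [mul_smul, ← Finset.smul_sum, map_smul, map_sum, norm_smul]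
      rw [Real.norm_eq_abs, abs_of_pos (inv_pos.2 hpos), inv_mul_le_iff₀ hpos, mul_comm]
      exact hx.le
  have key : ∀ S : ℕ, ∃ (N : ℕ) (x : ℕ → ℝ), ∑ n ∈ Finset.range N, |x n| = S ∧
      NN lev hgen a (∑ n ∈ Finset.range N, x n • v n) ≤ B + S * (c / 2) := by
    intro S
    induction S with
    | zero => exact ⟨0, 0, by simp, by simpa using hB0⟩
    | succ S ih =>
      obtain ⟨N, x, h1, h2⟩ := ih
      obtain ⟨J, hJ⟩ := pn_small (lev := lev) hgen (∑ n ∈ Finset.range N, x n • v n)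
        (show 0 < c / 2 by positivity)
      obtain ⟨N', x', h3, h4⟩ := block N (c / 2 / 2 ^ J) (by positivity)
      refine ⟨N + N', fun n => if n < N then x n else x' (n - N), ?_, ?_⟩
      · rw [Finset.sum_range_add, Nat.cast_succ, ← h1, ← h3]
        congr 1
        · exact Finset.sum_congr rfl fun n hn => by simp [Finset.mem_range.1 hn]
        · simp
      · have e : ∑ n ∈ Finset.range (N + N'), (if n < N then x n else x' (n - N)) • v n =
            ∑ n ∈ Finset.range N, x n • v n + ∑ n ∈ Finset.range N', x' n • v (N + n) := by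
          rw [Finset.sum_range_add]
          congr 1
          · exact Finset.sum_congr rfl fun n hn => by simp [Finset.mem_range.1 hn]
          · simp
        rw [e]
        refine NN_le hgen fun j => ?_
        rw [map_add]
        refine (pn_add_le j a _ _).trans ?_
        have hS : (0 : ℝ) ≤ S * (c / 2) := by positivity
        push_cast
        rcases lt_or_ge j J with hj | hj
        · have h5 := (pn_le_NN hgen a _ j).trans h2
          have h6 := pn_le_norm (F := F) (lev := lev) j a (Finsupp.linearCombination ℝ gen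
            (∑ n ∈ Finset.range N', x' n • v (N + n)))
          have h7 : (2 : ℝ) ^ j ≤ 2 ^ J := pow_le_pow_right₀ (by norm_num) hj.le
          have h8 := mul_le_mul h7 h4 (norm_nonneg _) (by positivity)
          rw [mul_div_cancel₀ _ (by positivity)] at h8
          linarith
        · have h5 := hJ j hj a
          have h6 : NN lev hgen a (∑ n ∈ Finset.range N', x' n • v (N + n)) ≤ B := by
            refine (seminorm_sum_le _ _ _).trans ?_
            rw [← one_mul B, ← h3, Finset.sum_mul]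
            refine Finset.sum_le_sum fun n _ => ?_
            rw [map_smul_eq_mul]
            exact mul_le_mul_of_nonneg_left (hB _) (abs_nonneg _)
          have h7 := pn_le_NN (lev := lev) hgen a (∑ n ∈ Finset.range N', x' n • v (N + n)) j
          linarith
  obtain ⟨S, hS⟩ := exists_nat_gt (B / (c / 2))
  obtain ⟨N, x, h1, h2⟩ := key S
  have h3 := h N x
  rw [h1] at h3
  rw [div_lt_iff₀ (by positivity)] at hS
  linarith

end Interp

end Pool.Agent.Lib.MP_ac4964_an
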