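import Pool.Agent.Lib.MP_ac4964_an.Retr

set_option autoImplicit false

open Set Filter Topology

namespace Pool.Agent.Lib.MP_ac4964_an

lemma exists_lift {V Y : Type*} [AddCommGroup V] [Module ℝ V] [NormedAddCommGroup Y]
    [NormedSpace ℝ Y] (T : V →ₗ[ℝ] Y) (ψ : V →ₗ[ℝ] ℝ) (lam : ℝ) (hlam : 0 ≤ lam)
    (h : ∀ v, |ψ v| ≤ lam * ‖T v‖) :
    ∃ y : StrongDual ℝ Y, ‖y‖ ≤ lam ∧ ∀ v, y (T v) = ψ v := by
  have hker : LinearMap.ker T ≤ LinearMap.ker ψ := by
    intro v hv
    have := h v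
    rw [LinearMap.mem_ker.1 hv] at this
    simpa using this
  let f : LinearMap.range T →ₗ[ℝ] ℝ :=
    ((LinearMap.ker T).liftQ ψ hker).comp T.quotKerEquivRange.symm.toLinearMap
  have hf : ∀ v, f ⟨T v, LinearMap.mem_range_self T v⟩ = ψ v := by
    intro v
    simp [f, LinearMap.quotKerEquivRange_symm_apply_image]
  obtain ⟨lam, rfl⟩ : ∃ l : NNReal, (l : ℝ) = lam := ⟨⟨lam, hlam⟩, rfl⟩
  let p : Seminorm ℝ Y := lam • normSeminorm ℝ Y
  have hp : ∀ x, p x = lam * ‖x‖ := fun x => rfl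
  obtain ⟨g, hg1, hg2⟩ := Module.Dual.exists_extension_of_le_seminorm_real (LinearMap.range T) f
    (p := p) (by
      rintro ⟨_, v, rfl⟩
      rw [hp]
      exact (hf v).le.trans ((le_abs_self _).trans (h v)))
  refine ⟨g.mkContinuous lam fun x => by simpa [hp] using hg2 x,
    LinearMap.mkContinuous_norm_le _ hlam _, fun v => ?_⟩
  have := hg1 ⟨T v, LinearMap.mem_range_self T v⟩
  rw [hf] at this
  simpa using this

theorem exists_measurable_lift {K V Y : Type*} [TopologicalSpace K] [CompactSpace K]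
    [TopologicalSpace.MetrizableSpace K] [Nonempty K] [MeasurableSpace K] [OpensMeasurableSpace K]
    [AddCommGroup V] [Module ℝ V] [NormedAddCommGroup Y] [NormedSpace ℝ Y]
    [TopologicalSpace.SeparableSpace Y]
    (T : V →ₗ[ℝ] Y) (ev : K → V →ₗ[ℝ] ℝ) (hev : ∀ v, Continuous fun e => ev e v)
    (lam : ℝ) (hlam : 0 ≤ lam) (h : ∀ e v, |ev e v| ≤ lam * ‖T v‖) :
    ∃ l : K → Y →ₗ[ℝ] ℝ, (∀ y, Measurable fun e => l e y) ∧ (∀ e y, |l e y| ≤ lam * ‖y‖) ∧
      ∀ e v, l e (T v) = ev e v := by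
  let B : Set (WeakDual ℝ Y) := WeakDual.toStrongDual ⁻¹' Metric.closedBall 0 lam
  have hB : IsCompact B := WeakDual.isCompact_closedBall 0 lam
  haveI : CompactSpace B := isCompact_iff_compactSpace.1 hB
  haveI : TopologicalSpace.MetrizableSpace B := WeakDual.metrizable_of_isCompact ℝ Y B hB
  have hc : ∀ y, Continuous fun b : B => b.1 y :=
    fun y => (WeakDual.eval_continuous y).comp continuous_subtype_val
  let L : Set (K × B) := {p | ∀ v, p.2.1 (T v) = ev p.1 v}
  have hL : IsClosed L := by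
    have : L = ⋂ v, {p : K × B | p.2.1 (T v) = ev p.1 v} := by ext; simp [L]
    rw [this]
    exact isClosed_iInter fun v =>
      isClosed_eq ((hc _).comp continuous_snd) ((hev v).comp continuous_fst)
  have hfib : ∀ e, ∃ b : B, (e, b) ∈ L := by
    intro e
    obtain ⟨y, hy1, hy2⟩ := exists_lift T (ev e) lam hlam (h e)
    exact ⟨⟨StrongDual.toWeakDual y, by simpa [B] using hy1⟩, hy2⟩
  haveI : CompactSpace L := isCompact_iff_compactSpace.1 hL.isCompact
  haveI : Nonempty L := by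
    obtain ⟨e⟩ := ‹Nonempty K›
    obtain ⟨b, hb⟩ := hfib e
    exact ⟨⟨_, hb⟩⟩
  letI : MetricSpace L := TopologicalSpace.metrizableSpaceMetric _
  obtain ⟨g, hg1, hg2⟩ := exists_nat_bool_continuous_surjective_of_compact L
  let C : Set (K × (ℕ → Bool)) := {p | (g p.2).1.1 = p.1}
  have hC : IsClosed C := isClosed_eq (by fun_prop) continuous_fst
  have hne : ∀ e, ∃ t, (e, t) ∈ C := by
    intro e
    obtain ⟨b, hb⟩ := hfib e
    obtain ⟨t, ht⟩ := hg2 ⟨_, hb⟩
    exact ⟨t, by simp [C, ht]⟩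
  have hr1 : ∀ e, (e, retr C e fun _ => false) ∈ C := fun e => retr_mem hC e (hne e) _
  have hr2 : Measurable fun e => retr C e fun _ => false := retr_measurable hC _
  generalize hr : (fun e => retr C e fun _ => false) = r at hr2
  have hr3 : ∀ e, (g (r e)).1.1 = e := by subst hr; exact hr1
  refine ⟨fun e => (WeakDual.toStrongDual (g (r e)).1.2.1).toLinearMap,
    fun y => ?_, fun e y => ?_, fun e v => ?_⟩
  · have h1 : Continuous fun t => (g t).1.2.1 y := (hc y).comp (by fun_prop)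
    exact h1.measurable.comp hr2
  · have h1 : ‖WeakDual.toStrongDual (g (r e)).1.2.1‖ ≤ lam :=
      mem_closedBall_zero_iff.1 (g (r e)).1.2.2
    have h2 := (WeakDual.toStrongDual (g (r e)).1.2.1).le_opNorm y
    exact h2.trans (mul_le_mul_of_nonneg_right h1 (norm_nonneg _))
  · have h1 := (g (r e)).2 v
    rw [hr3 e] at h1
    exact h1

end Pool.Agent.Lib.MP_ac4964_an
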