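import Pool.Agent.Lib.MP_ac4964_an.Tame
import Pool.Agent.Lib.MP_ac4964_an.Interp

set_option autoImplicit false

open Set Filter Topology MeasureTheory
open scoped Pointwise

namespace Pool.Agent.Lib.MP_ac4964_an

lemma exists_signs {ι : Type} [Fintype ι] (w : ι → ℝ) (hw1 : ∑ i, w i = 1) (p q : ι → ℕ)
    (hpq : ∀ i, p i ≠ q i) (N : ℕ) (hp : ∀ i, p i < N) (hq : ∀ i, q i < N) :
    ∃ σ : ℕ → ℝ, (∀ n, |σ n| ≤ 1) ∧ 2 ≤ ∑ i, w i * (σ (p i) - σ (q i)) ^ 2 := by
  classical
  let s : (Fin N → Bool) → ℕ → ℝ := fun b n => if h : n < N then (if b ⟨n, h⟩ then 1 else -1) else 0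
  have hs : ∀ b n, |s b n| ≤ 1 := by
    intro b n
    simp only [s]
    split_ifs <;> simp
  have h1 : ∀ i, ∑ b : Fin N → Bool, (s b (p i) - s b (q i)) ^ 2 = ∑ _b : Fin N → Bool, (2 : ℝ) := by
    intro i
    let e : (Fin N → Bool) ≃ (Fin N → Bool) := Function.Involutive.toPerm
      (fun b => Function.update b ⟨p i, hp i⟩ (!b ⟨p i, hp i⟩)) (fun b => by simp)
    have h2 : ∑ b : Fin N → Bool, (s b (p i) - s b (q i)) ^ 2 =
        ∑ b : Fin N → Bool, (s (e b) (p i) - s (e b) (q i)) ^ 2 :=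
      (Equiv.sum_comp e fun b => (s b (p i) - s b (q i)) ^ 2).symm
    have h3 : ∀ b : Fin N → Bool, (s b (p i) - s b (q i)) ^ 2 +
        (s (e b) (p i) - s (e b) (q i)) ^ 2 = 2 + 2 := by
      intro b
      have hne : (⟨q i, hq i⟩ : Fin N) ≠ ⟨p i, hp i⟩ := fun h => hpq i (Fin.mk.inj h).symm
      simp only [s, e, hp i, hq i, dif_pos, Function.Involutive.coe_toPerm, Function.update_self,
        Function.update_of_ne hne]
      cases b ⟨p i, hp i⟩ <;> cases b ⟨q i, hq i⟩ <;> norm_num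
    have h4 := Finset.sum_congr (rfl : (Finset.univ : Finset (Fin N → Bool)) = _) fun b _ => h3 b
    rw [Finset.sum_add_distrib, Finset.sum_add_distrib, ← h2] at h4
    linarith
  have h2 : ∑ _b : Fin N → Bool, (2 : ℝ) ≤
      ∑ b : Fin N → Bool, ∑ i, w i * (s b (p i) - s b (q i)) ^ 2 := by
    rw [Finset.sum_comm]
    simp only [← Finset.mul_sum, h1]
    rw [← Finset.sum_mul, hw1, one_mul]
  obtain ⟨b, -, hb⟩ := Finset.exists_le_of_sum_le Finset.univ_nonempty h2
  exact ⟨s b, hs b, hb⟩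

section Small

variable {K : Type} [TopologicalSpace K] [CompactSpace K] [T2Space K] [MeasurableSpace K]
  [BorelSpace K]

lemma exists_point (f : ℕ → C(K, ℝ)) (ε : ℝ) (hε : 0 < ε)
    (h : ∀ (N : ℕ) (c : ℕ → ℝ),
      ε * ∑ n ∈ Finset.range N, |c n| ≤ ‖∑ n ∈ Finset.range N, c n • f n‖)
    {ι : Type} [Fintype ι] (w : ι → ℝ) (hw0 : ∀ i, 0 ≤ w i) (hw1 : ∑ i, w i = 1) (p q : ι → ℕ)
    (hpq : ∀ i, p i ≠ q i) : ∃ x, ε ≤ ∑ i, w i * |f (p i) x - f (q i) x| := by
  classical
  obtain ⟨N, hN⟩ := ((finite_range p).union (finite_range q)).bddAbove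
  have hp : ∀ i, p i < N + 1 := fun i => Nat.lt_succ_of_le (hN (Or.inl ⟨i, rfl⟩))
  have hq : ∀ i, q i < N + 1 := fun i => Nat.lt_succ_of_le (hN (Or.inr ⟨i, rfl⟩))
  obtain ⟨σ, hσ, h2⟩ := exists_signs w hw1 p q hpq (N + 1) hp hq
  let c : ℕ → ℝ := fun n => ∑ i, w i * (σ (p i) - σ (q i)) *
    ((if p i = n then 1 else 0) - (if q i = n then 1 else 0))
  have hc : ∀ g : ℕ → ℝ, ∑ n ∈ Finset.range (N + 1), c n * g n =
      ∑ i, w i * (σ (p i) - σ (q i)) * (g (p i) - g (q i)) := by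
    intro g
    simp only [c, Finset.sum_mul]
    rw [Finset.sum_comm]
    refine Finset.sum_congr rfl fun i _ => ?_
    simp only [mul_assoc, ← Finset.mul_sum, sub_mul, Finset.sum_sub_distrib, ite_mul, one_mul,
      zero_mul, Finset.sum_ite_eq, Finset.mem_range, hp i, hq i, if_true]
  have h3 : 2 ≤ ∑ n ∈ Finset.range (N + 1), |c n| := by
    refine h2.trans ?_
    have := hc σ
    simp only [mul_assoc, ← sq] at this
    rw [← this]
    refine Finset.sum_le_sum fun n _ => (le_abs_self _).trans ?_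
    rw [abs_mul]
    exact mul_le_of_le_one_right (abs_nonneg _) (hσ n)
  by_contra hcon
  push Not at hcon
  have h4 : ‖∑ n ∈ Finset.range (N + 1), c n • f n‖ < 2 * ε := by
    rw [ContinuousMap.norm_lt_iff _ (by positivity)]
    intro x
    simp only [ContinuousMap.coe_sum, ContinuousMap.coe_smul, Finset.sum_apply, Pi.smul_apply,
      smul_eq_mul, Real.norm_eq_abs]
    rw [hc fun n => f n x]
    refine (Finset.abs_sum_le_sum_abs _ _).trans_lt ?_
    refine lt_of_le_of_lt ?_ (mul_lt_mul_of_pos_left (hcon x) two_pos)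
    rw [Finset.mul_sum]
    refine Finset.sum_le_sum fun i _ => ?_
    rw [abs_mul, abs_mul, abs_of_nonneg (hw0 i)]
    have h5 : |σ (p i) - σ (q i)| ≤ 2 := (abs_sub _ _).trans (by linarith [hσ (p i), hσ (q i)])
    have h6 := mul_le_mul_of_nonneg_right h5
      (mul_nonneg (hw0 i) (abs_nonneg (f (p i) x - f (q i) x)))
    linarith
  have h5 := h (N + 1) c
  nlinarith

lemma exists_measure_sep (f : ℕ → C(K, ℝ)) (ε : ℝ) (hε : 0 < ε)
    (h : ∀ (N : ℕ) (c : ℕ → ℝ),
      ε * ∑ n ∈ Finset.range N, |c n| ≤ ‖∑ n ∈ Finset.range N, c n • f n‖) :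
    ∃ (ν : Measure K) (_ : IsFiniteMeasure ν) (δ : ℝ), 0 < δ ∧
      ∀ m n, m ≠ n → δ ≤ ∫ x, |f m x - f n x| ∂ν := by
  let O : Set C(K, ℝ) := {g | MapsTo g univ (Iio 0)}
  have hO1 : IsOpen O := ContinuousMap.isOpen_setOfPred_mapsTo isCompact_univ isOpen_Iio
  have hO2 : Convex ℝ O := by
    intro g hg g' hg' a b ha hb hab x _
    simpa using convex_Iio (0 : ℝ) (hg (mem_univ x)) (hg' (mem_univ x)) ha hb hab
  let S : Set C(K, ℝ) := {g | ∃ m n, m ≠ n ∧ g = |f m - f n| - ε • 1}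
  have hd : Disjoint O (convexHull ℝ S) := by
    rw [Set.disjoint_right]
    intro g hg hgO
    obtain ⟨ι, _, w, z, hw0, hw1, hz, rfl⟩ := mem_convexHull_iff_exists_fintype.1 hg
    choose p q hpq e using hz
    obtain ⟨x, hx⟩ := exists_point f ε hε h w hw0 hw1 p q hpq
    have := hgO (mem_univ x)
    simp only [e, ContinuousMap.coe_sum, ContinuousMap.coe_smul, Finset.sum_apply, Pi.smul_apply,
      smul_eq_mul, mem_Iio, ContinuousMap.coe_sub, Pi.sub_apply, ContinuousMap.abs_apply,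
      ContinuousMap.coe_one, Pi.one_apply, mul_one, mul_sub, Finset.sum_sub_distrib,
      ← Finset.sum_mul, hw1, one_mul] at this
    linarith
  obtain ⟨L, u, h1, h2⟩ := geometric_hahn_banach_open hO2 hO1 (convex_convexHull ℝ S) hd
  have hneg : ∀ g ∈ O, L g ≤ 0 := by
    intro g hg
    by_contra hc
    push Not at hc
    have : ((|u| + 1) / L g) • g ∈ O := fun x _ => by
      have := hg (mem_univ x)
      simp only [ContinuousMap.coe_smul, Pi.smul_apply, smul_eq_mul, mem_Iio] at this ⊢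
      exact mul_neg_of_pos_of_neg (by positivity) this
    have := h1 _ this
    rw [map_smul, smul_eq_mul, div_mul_cancel₀ _ hc.ne'] at this
    linarith [le_abs_self u]
  have hpos : ∀ g : C(K, ℝ), 0 ≤ g → 0 ≤ L g := by
    intro g hg
    refine le_of_forall_pos_le_add fun η hη => ?_
    have : -g - (η / (|L 1| + 1)) • 1 ∈ O := fun x _ => by
      have h3 : 0 ≤ g x := hg x
      have h4 : 0 < η / (|L 1| + 1) := by positivity
      simp only [ContinuousMap.coe_sub, ContinuousMap.coe_neg, ContinuousMap.coe_smul,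
        ContinuousMap.coe_one, Pi.sub_apply, Pi.neg_apply, Pi.smul_apply, Pi.one_apply,
        smul_eq_mul, mul_one, mem_Iio]
      linarith
    have h3 := hneg _ this
    rw [map_sub, map_neg, map_smul, smul_eq_mul] at h3
    have h4 : η / (|L 1| + 1) * L 1 ≤ η := by
      rw [div_mul_eq_mul_div, div_le_iff₀ (by positivity)]
      nlinarith [le_abs_self (L 1)]
    linarith
  have hu : 0 ≤ u := by
    refine le_of_forall_pos_le_add fun η hη => ?_
    have : (η / (|L 1| + 1)) • (-1 : C(K, ℝ)) ∈ O := fun x _ => by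
      have h4 : 0 < η / (|L 1| + 1) := by positivity
      simpa using h4
    have h3 := h1 _ this
    rw [map_smul, map_neg, smul_eq_mul] at h3
    have h4 : η / (|L 1| + 1) * L 1 ≤ η := by
      rw [div_mul_eq_mul_div, div_le_iff₀ (by positivity)]
      nlinarith [le_abs_self (L 1)]
    linarith
  have hS : ∀ m n, m ≠ n → u + ε * L 1 ≤ L |f m - f n| := by
    intro m n hmn
    have := h2 _ (subset_convexHull ℝ S ⟨m, n, hmn, rfl⟩)
    rw [map_sub, map_smul, smul_eq_mul] at this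
    linarith
  have hδ : 0 < u + ε * L 1 := by
    have h3 := h1 (-1) (fun x _ => by simp)
    have h4 := hpos 1 zero_le_one
    rw [map_neg] at h3
    rcases h4.lt_or_eq with h4 | h4
    · positivity
    · rw [← h4] at h3 ⊢; linarith
  let Λ : CompactlySupportedContinuousMap K ℝ →ₚ[ℝ] ℝ :=
    PositiveLinearMap.mk₀
      { toFun := fun g => L g.toContinuousMap
        map_add' := fun g g' => by rw [← map_add]; rfl
        map_smul' := fun r g => by rw [RingHom.id_apply, ← map_smul]; rfl }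
      (fun g hg => hpos _ fun x => hg x)
  refine ⟨RealRMK.rieszMeasure Λ, inferInstance, _, hδ, fun m n hmn => (hS m n hmn).trans ?_⟩
  have := RealRMK.integral_rieszMeasure Λ
    (CompactlySupportedContinuousMap.continuousMapEquiv |f m - f n|)
  exact le_of_eq this.symm

/-- The indicator function of a clopen set. -/
noncomputable def ind (C : TopologicalSpace.Clopens K) : C(K, ℝ) :=
  ⟨(C : Set K).indicator 1, C.isClopen.continuous_indicator continuous_const⟩

open Classical in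
lemma ind_apply (C : TopologicalSpace.Clopens K) (x : K) :
    ind C x = if x ∈ (C : Set K) then 1 else 0 := by
  simp [ind, indicator_apply]

lemma norm_ind_le (C : TopologicalSpace.Clopens K) : ‖ind C‖ ≤ 1 := by
  rw [ContinuousMap.norm_le _ zero_le_one]
  intro x
  rw [ind_apply]
  split_ifs <;> simp

lemma norm_toLp (ν : Measure K) [IsFiniteMeasure ν] (g : C(K, ℝ)) :
    ‖ContinuousMap.toLp 1 ν ℝ g‖ = ∫ x, |g x| ∂ν := by
  rw [L1.norm_eq_integral_norm]
  refine integral_congr_ae ?_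
  filter_upwards [ContinuousMap.coeFn_toLp (p := 1) (𝕜 := ℝ) ν g] with x hx
  rw [hx, Real.norm_eq_abs]

lemma totallyBounded_of_tame (ν : Measure K) [IsFiniteMeasure ν]
    (𝒞 : Set (TopologicalSpace.Clopens K)) (h : Tame {S | ∃ C ∈ 𝒞, S = (C : Set K)}) :
    TotallyBounded ((fun C => ContinuousMap.toLp 1 ν ℝ (ind C)) '' 𝒞) := by
  classical
  rw [Metric.totallyBounded_iff]
  intro ε hε
  by_contra hc
  push Not at hc
  have h1 : ∀ t : Set (TopologicalSpace.Clopens K), t.Finite → ∃ C, C ∈ 𝒞 ∧ ∀ D ∈ t,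
      ε ≤ dist (ContinuousMap.toLp 1 ν ℝ (ind C)) (ContinuousMap.toLp 1 ν ℝ (ind D)) := by
    intro t ht
    obtain ⟨_, ⟨C, hC, rfl⟩, h2⟩ := not_subset.1 (hc _ (ht.image
      fun C => ContinuousMap.toLp 1 ν ℝ (ind C)))
    refine ⟨C, hC, fun D hD => not_lt.1 fun h3 => h2 ?_⟩
    exact mem_biUnion (mem_image_of_mem _ hD) h3
  obtain ⟨u, hu⟩ := seq_of_forall_finite_exists h1
  obtain ⟨φ, hφ, h2⟩ := h (fun n => u n) fun n => ⟨u n, (hu n).1, rfl⟩
  have h3 : Tendsto (fun n => ∫ x, |(ind (u (φ (n + 1))) - ind (u (φ n))) x| ∂ν) atTop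
      (𝓝 (∫ _x, (0 : ℝ) ∂ν)) := by
    refine tendsto_integral_of_dominated_convergence (fun _ => 1)
      (fun n => Continuous.aestronglyMeasurable (by fun_prop)) (integrable_const _)
      (fun n => Eventually.of_forall fun x => ?_) (Eventually.of_forall fun x => ?_)
    · simp only [ContinuousMap.sub_apply, ind_apply]
      split_ifs <;> simp
    · refine tendsto_const_nhds.congr' ?_
      rcases h2 x with h4 | h4
      · filter_upwards [h4, (tendsto_add_atTop_nat 1).eventually h4] with n h5 h6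
        simp only [ContinuousMap.sub_apply, ind_apply, if_pos h5, if_pos h6, sub_self, abs_zero]
      · filter_upwards [h4, (tendsto_add_atTop_nat 1).eventually h4] with n h5 h6
        simp only [ContinuousMap.sub_apply, ind_apply, if_neg h5, if_neg h6, sub_self, abs_zero]
  rw [integral_zero] at h3
  obtain ⟨n, hn⟩ := (h3.eventually (gt_mem_nhds hε)).exists
  have h4 := (hu (φ (n + 1))).2 (u (φ n)) ⟨φ n, hφ (Nat.lt_succ_self n), rfl⟩
  rw [dist_eq_norm, ← map_sub, norm_toLp] at h4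
  exact absurd hn (not_lt.2 h4)

lemma Rep.mem_smul {A Θ E E' : Type} [NormedAddCommGroup E] [NormedSpace ℝ E]
    [NormedAddCommGroup E'] [NormedSpace ℝ E'] {F : A → Θ → E} {lev : Θ → ℕ} {j : ℕ}
    (L : E →L[ℝ] E') (a : A) {W : Set E'} (hW0 : (0 : E') ∈ W) (hW1 : Convex ℝ W)
    (hW2 : Balanced ℝ W) (hW3 : ∀ θ, lev θ < j → L (F a θ) ∈ W) {w : A → E} {m : ℝ}
    (h : Rep F lev j w m) : L (w a) ∈ m • W := by
  induction h with
  | zero => exact ⟨0, hW0, by simp⟩
  | base θ h => simpa using hW3 θ h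
  | smul t w m _ ih =>
    obtain ⟨x, hx, e⟩ := ih
    have e : m • x = L (w a) := e
    rcases le_total 0 t with ht | ht
    · refine ⟨x, hx, ?_⟩
      simp only [Pi.smul_apply, map_smul, ← e, abs_of_nonneg ht, mul_smul]
    · refine ⟨-x, hW2.neg_mem_iff.2 hx, ?_⟩
      simp only [Pi.smul_apply, map_smul, ← e, abs_of_nonpos ht, mul_smul]
      simp
  | add w w' m m' h h' ih ih' =>
    rw [hW1.add_smul h.nonneg h'.nonneg, Pi.add_apply, map_add]
    exact add_mem_add ih ih'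

theorem small_of_tame {A Θ : Type} (Cl : A → Θ → TopologicalSpace.Clopens K) (lev : Θ → ℕ) (a : A)
    (ht : ∀ j, Tame {S | ∃ θ, lev θ < j ∧ S = (Cl a θ : Set K)})
    (f : ℕ → C(K, ℝ)) (B ε : ℝ) (hB : ∀ n j, pn (fun a θ => ind (Cl a θ)) lev j a (f n) ≤ B)
    (hε : 0 < ε) : ¬ ∀ (N : ℕ) (c : ℕ → ℝ),
      ε * ∑ n ∈ Finset.range N, |c n| ≤ ‖∑ n ∈ Finset.range N, c n • f n‖ := by
  intro h
  obtain ⟨ν, _, δ, hδ, hν⟩ := exists_measure_sep f ε hε h
  set L := ContinuousMap.toLp (E := ℝ) 1 ν ℝ with hL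
  have hB0 : 0 ≤ B := (pn_nonneg ..).trans (hB 0 0)
  obtain ⟨j, hj⟩ : ∃ j : ℕ, ‖L‖ * (B + 1) / 2 ^ j < δ / 4 := by
    have h1 : Tendsto (fun j : ℕ => ‖L‖ * (B + 1) / 2 ^ j) atTop (𝓝 0) :=
      tendsto_const_nhds.div_atTop (tendsto_pow_atTop_atTop_of_one_lt (by norm_num))
    exact (h1.eventually (gt_mem_nhds (by positivity))).exists
  let W := absConvexHull ℝ (insert 0 ((fun C => L (ind C)) '' {C | ∃ θ, lev θ < j ∧ C = Cl a θ}))
  have hW : TotallyBounded W :=
    TotallyBounded.absConvexHull ((totallyBounded_of_tame ν _ ((ht j).mono (by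
      rintro _ ⟨_, ⟨θ, h1, rfl⟩, rfl⟩
      exact ⟨θ, h1, rfl⟩))).insert 0)
  have hW0 : (0 : Lp ℝ 1 ν) ∈ W := subset_absConvexHull (mem_insert _ _)
  have hW' : TotallyBounded ((2 ^ j * (B + 1) : ℝ) • W) :=
    hW.image (uniformContinuous_const_smul _)
  have h1 : ∀ n, ∃ x ∈ (2 ^ j * (B + 1) : ℝ) • W, dist (L (f n)) x < δ / 4 := by
    intro n
    obtain ⟨w, m, h1, h2⟩ := exists_of_pn_lt ((hB n j).trans_lt (lt_add_one B))
    have h3 := Rep.mem_smul L a hW0 convex_absConvexHull balanced_absConvexHull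
      (fun θ hθ => subset_absConvexHull (mem_insert_of_mem _ ⟨_, ⟨θ, hθ, rfl⟩, rfl⟩)) h1
    have hm := h1.nonneg
    have h4 : (0 : ℝ) ≤ 2 ^ j * ‖f n - w a‖ := by positivity
    have h5 : 0 ≤ m / 2 ^ j := by positivity
    have h6 : m ≤ 2 ^ j * (B + 1) := by
      have : m / 2 ^ j ≤ B + 1 := by linarith
      rwa [div_le_iff₀ (by positivity), mul_comm] at this
    refine ⟨L (w a), balanced_absConvexHull.smul_mono ?_ h3, ?_⟩
    · rw [Real.norm_of_nonneg hm, Real.norm_of_nonneg (by positivity)]; exact h6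
    · rw [dist_eq_norm, ← map_sub]
      refine (L.le_opNorm _).trans_lt (lt_of_le_of_lt ?_ hj)
      rw [mul_div_assoc]
      refine mul_le_mul_of_nonneg_left ?_ (norm_nonneg _)
      rw [le_div_iff₀ (by positivity)]
      linarith
  choose x hx1 hx2 using h1
  obtain ⟨t, ht1, ht2⟩ := Metric.totallyBounded_iff.1 hW' (δ / 4) (by positivity)
  have h2 : ∀ n, ∃ y : t, dist (x n) y < δ / 4 := by
    intro n
    obtain ⟨y, hy, h3⟩ := mem_iUnion₂.1 (ht2 (hx1 n))
    exact ⟨⟨y, hy⟩, h3⟩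
  choose y hy using h2
  haveI := ht1.to_subtype
  obtain ⟨m, n, hmn, e⟩ := Finite.exists_ne_map_eq_of_infinite y
  have h3 := hν m n hmn
  have h4 : dist (L (f m)) (L (f n)) = ∫ x, |f m x - f n x| ∂ν := by
    rw [dist_eq_norm, ← map_sub, norm_toLp]; rfl
  have h5 := dist_triangle4_right (L (f m)) (L (f n)) (x m) (x n)
  have h6 := dist_triangle_right (x m) (x n) (y m)
  have h7 := hy n
  rw [← e] at h7
  linarith [hx2 m, hx2 n, hy m]

end Small

end Pool.Agent.Lib.MP_ac4964_an
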