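import Pool.Agent.Lib.MP_ac4964_an.Core
import Pool.Agent.Lib.MP_ac4964_an.Small
import Pool.Agent.Lib.MP_ac4964_an.Embed
import Pool.Agent.Lib.MP_ac4964_an.Select

set_option autoImplicit false

open Set Filter Topology MeasureTheory TopologicalSpace

namespace Pool.Agent.Lib.MP_ac4964_an

/-
Outline. For each parameter `α` in Cantor space, `NA α` is an interpolation norm (a supremum of
Davis-Figiel-Johnson-Pelczynski seminorms) built from a tame family of clopen tests `Cl α θ` on the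
compact space `KT`. Tameness gives that the completion has no copy of `ℓ₁` (`NA_no_l1`).
If a separable space `Y` contains all these spaces, two nearby parameters embed almost compatibly;
lifting point evaluations to functionals on `Y`, Riesz products (`riesz_tendsto`) show that without
`ℓ₁` in `Y` the averaged displacement law is almost invariant under two families of shears and a
small translation, which a wandering set count forbids (`core`).
-/

lemma exists_accumulation {A Z : Type*} [TopologicalSpace Z] [SecondCountableTopology Z]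
    (Φ : A → Z) {S : Set A} (hS : ¬ S.Countable) :
    ∃ a ∈ S, ∀ U ∈ 𝓝 (Φ a), ∃ b ∈ S, b ≠ a ∧ Φ b ∈ U := by
  by_contra hc
  push Not at hc
  have h : ∀ a : S, ∃ V : countableBasis Z, Φ a ∈ V.1 ∧ ∀ b ∈ S, b ≠ a → Φ b ∉ V.1 := by
    intro a
    obtain ⟨U, hU, h1⟩ := hc a a.2
    obtain ⟨V, hV, h2, h3⟩ := (isBasis_countableBasis Z).mem_nhds_iff.1 hU
    exact ⟨⟨V, hV⟩, h2, fun b hb hba h4 => h1 b hb hba (h3 h4)⟩
  choose V h1 h2 using h
  haveI := (countable_countableBasis Z).to_subtype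
  have : Function.Injective V := fun a b hab => by
    by_contra hne
    exact h2 b a a.2 (fun h => hne (Subtype.ext h)) (hab ▸ h1 a)
  exact hS this.countable

lemma not_countable_bits : ¬ (univ : Set Bits).Countable := by
  intro h
  obtain ⟨f, hf⟩ := h.exists_eq_range ⟨0, trivial⟩
  have : (fun n => f n n + 1) ∈ range f := hf ▸ mem_univ _
  obtain ⟨n, hn⟩ := this
  have := congrFun hn n
  simp at this

/-- The prime used at stage `s`. -/
noncomputable def qq (s : ℕ) : ℕ := Classical.choose (Nat.exists_infinite_primes (2 * 4 ^ s + 2))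

lemma le_qq (s : ℕ) : 2 * 4 ^ s + 2 ≤ qq s :=
  (Classical.choose_spec (Nat.exists_infinite_primes (2 * 4 ^ s + 2))).1

instance prime_qq (s : ℕ) : Fact (qq s).Prime :=
  ⟨(Classical.choose_spec (Nat.exists_infinite_primes (2 * 4 ^ s + 2))).2⟩

instance compactKS (s : ℕ) : CompactSpace (KS (qq s)) := inferInstance

instance t2KS (s : ℕ) : T2Space (KS (qq s)) := inferInstance

instance secondKS (s : ℕ) : SecondCountableTopology (KS (qq s)) := inferInstance

instance tdOm : TotallyDisconnectedSpace Om := inferInstance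

instance tdPP (s : ℕ) : TotallyDisconnectedSpace (PP (qq s)) :=
  @Pi.totallyDisconnectedSpace ℕ (fun _ => Om × ZMod (qq s)) _ (fun _ => inferInstance)

instance tdKS (s : ℕ) : TotallyDisconnectedSpace (KS (qq s)) := inferInstance

instance metrizableKS (s : ℕ) : MetrizableSpace (KS (qq s)) := inferInstance

/-- The compact space carrying all the tests. -/
abbrev KT : Type := ∀ s, KS (qq s)

instance countableClopens : Countable (Clopens KT) :=
  Clopens.countable_iff_secondCountable.2 inferInstance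

/-- The index set of the tests. -/
abbrev Idx : Type := Clopens KT ⊕ (Σ s : ℕ, Bool × Fin (4 ^ s) × ℕ × PP (qq s) × Par (qq s))

/-- The level of a test. -/
noncomputable def lev : Idx → ℕ
  | Sum.inl g => Classical.choose (exists_injective_nat (Clopens KT)) g
  | Sum.inr p => p.1

/-- The tests. -/
def Cl (α : Bits) : Idx → Clopens KT
  | Sum.inl g => g
  | Sum.inr p => ⟨(fun e : KT => e p.1) ⁻¹'
      Tst (4 ^ p.1) p.2.1 p.2.2.1 α p.2.2.2.1 p.2.2.2.2.1 p.2.2.2.2.2,
      (isClopen_Tst _ _ _ _ _ _ _).preimage (continuous_apply _)⟩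

lemma hgen : ∀ g : Clopens KT, ∃ θ, ∀ α, (fun α θ => ind (Cl α θ)) α θ = ind g :=
  fun g => ⟨Sum.inl g, fun _ => rfl⟩

lemma continuous_Cl (θ : Idx) : Continuous fun α => ind (Cl α θ) := by
  refine (IsLocallyConstant.comp (f := fun α => Cl α θ) ?_ ind).continuous
  rcases θ with g | ⟨s, b, ρ, k, z, φ⟩
  · exact IsLocallyConstant.const g
  · have := (isLocallyConstant_Tst (4 ^ s) b ρ k φ).comp_continuous
      (f := fun α : Bits => (α, z)) (by fun_prop)
    rw [IsLocallyConstant.iff_eventually_eq] at this ⊢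
    intro α
    filter_upwards [this α] with β hβ
    refine Clopens.ext ?_
    exact congrArg (fun T => (fun e : KT => e s) ⁻¹' T) hβ

lemma tame_Cl (α : Bits) (j : ℕ) : Tame {S | ∃ θ, lev θ < j ∧ S = (Cl α θ : Set KT)} := by
  have h1 : Tame ((fun g : Clopens KT => (g : Set KT)) '' {g | lev (Sum.inl g) < j}) :=
    tame_finite (Finite.image _ ((finite_Iio j).preimage
      (Classical.choose_spec (exists_injective_nat (Clopens KT))).injOn))
  have h2 := tame_iUnion fun s : Fin j => tame_iUnion fun b : Bool =>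
    tame_iUnion fun ρ : Fin (4 ^ s.1) =>
      (tame_Tst (q := qq s) (4 ^ s.1) b ρ α).preimage fun e : KT => e s
  refine (h1.union h2).mono ?_
  rintro _ ⟨g | ⟨s, b, ρ, k, z, φ⟩, h, rfl⟩
  · exact Or.inl ⟨g, h, rfl⟩
  · exact Or.inr (mem_iUnion.2 ⟨⟨s, h⟩, mem_iUnion.2 ⟨b, mem_iUnion.2
      ⟨ρ, _, ⟨k, z, φ, rfl⟩, rfl⟩⟩⟩)

/-- The family of norms. -/
noncomputable def NA (α : Bits) : Seminorm ℝ (Clopens KT →₀ ℝ) := NN lev hgen α

lemma NA_single (α : Bits) (g : Clopens KT) :
    NA α (Finsupp.single g 1) ≤ 2 ^ lev (Sum.inl g) + 1 := by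
  have := NN_le_of_rep (lev := lev) hgen (a := α) (v := Finsupp.single g 1)
    (Rep.base (Sum.inl g) (Nat.lt_succ_self _)) (by simp [Cl])
  refine this.trans (add_le_add ?_ ?_)
  · exact mul_le_of_le_one_right (by positivity) (norm_ind_le _)
  · exact div_le_self zero_le_one (one_le_pow₀ (by norm_num))

lemma NA_no_l1 (α : Bits) (v : ℕ → Clopens KT →₀ ℝ) (B c : ℝ) (hc : 0 < c)
    (hB : ∀ n, NA α (v n) ≤ B) : ¬ ∀ (N : ℕ) (x : ℕ → ℝ),
      c * ∑ n ∈ Finset.range N, |x n| ≤ NA α (∑ n ∈ Finset.range N, x n • v n) := by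
  letI : MeasurableSpace KT := borel KT
  haveI : BorelSpace KT := ⟨rfl⟩
  exact no_l1_seq hgen α (fun f B ε h1 h2 => small_of_tame Cl lev α (tame_Cl α) f B ε h1 h2)
    v B c hc hB

lemma not_hasL1_closure {E : Type*} [NormedAddCommGroup E] [NormedSpace ℝ E] (α : Bits)
    (J : (Clopens KT →₀ ℝ) →ₗ[ℝ] E) (hJ : ∀ v, ‖J v‖ = NA α v) :
    ¬ HasL1 (LinearMap.range J).topologicalClosure := by
  intro h
  obtain ⟨y, B, c, hc, hB, hy⟩ := seq_of_hasL1 h
  have h1 : ∀ n, ∃ v, ‖(y n : E) - J v‖ < c / 2 := by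
    intro n
    obtain ⟨_, ⟨v, rfl⟩, hv⟩ := Metric.mem_closure_iff.1 (y n).2 (c / 2) (by positivity)
    exact ⟨v, by rwa [dist_eq_norm] at hv⟩
  choose v hv using h1
  refine NA_no_l1 α v (B + c / 2) (c / 2) (by positivity) (fun n => ?_) fun N x => ?_
  · rw [← hJ]
    have h2 : ‖(y n : E)‖ ≤ B := hB n
    have := norm_sub_norm_le (J (v n)) (y n : E)
    rw [norm_sub_rev] at this
    linarith [hv n]
  · have h2 := hy (Finset.range N) x
    have h3 : ((∑ n ∈ Finset.range N, x n • y n : (LinearMap.range J).topologicalClosure) : E) =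
        J (∑ n ∈ Finset.range N, x n • v n) +
          ∑ n ∈ Finset.range N, x n • ((y n : E) - J (v n)) := by
      simp [smul_sub]
    have h4 : ‖∑ n ∈ Finset.range N, x n • ((y n : E) - J (v n))‖ ≤
        c / 2 * ∑ n ∈ Finset.range N, |x n| := by
      rw [Finset.mul_sum]
      refine norm_sum_le_of_le _ fun n _ => ?_
      rw [norm_smul, mul_comm]
      exact mul_le_mul_of_nonneg_right (hv n).le (abs_nonneg _)
    have h5 := norm_add_le (J (∑ n ∈ Finset.range N, x n • v n))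
      (∑ n ∈ Finset.range N, x n • ((y n : E) - J (v n)))
    rw [← h3, hJ] at h5
    have h6 : ‖((∑ n ∈ Finset.range N, x n • y n : (LinearMap.range J).topologicalClosure) : E)‖ =
      ‖(∑ n ∈ Finset.range N, x n • y n : (LinearMap.range J).topologicalClosure)‖ := rfl
    linarith

open Classical in
/-- The clopen set of `KT` attached to a subset of the stage `s` space. -/
noncomputable def pull (s : ℕ) (S : Set (KS (qq s))) : Clopens KT :=
  if h : IsClopen S then ⟨(fun e : KT => e s) ⁻¹' S, h.preimage (continuous_apply _)⟩ else ⊥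

lemma pull_Tst (s : ℕ) (b : Bool) (ρ : ℕ) (hρ : ρ < 4 ^ s) (α : Bits) (k : ℕ) (z : PP (qq s))
    (φ : Par (qq s)) :
    pull s (Tst (4 ^ s) b ρ α k z φ) = Cl α (Sum.inr ⟨s, b, ⟨ρ, hρ⟩, k, z, φ⟩) := by
  rw [pull, dif_pos (isClopen_Tst _ _ _ _ _ _ _)]
  rfl

theorem hasL1_of_universal {Y : Type*} [NormedAddCommGroup Y] [NormedSpace ℝ Y] [CompleteSpace Y]
    [SeparableSpace Y] (T : Bits → (Clopens KT →₀ ℝ) →ₗ[ℝ] Y)
    (hT1 : ∀ α v, ‖T α v‖ ≤ NA α v) (hT2 : ∀ α, ∃ lam : ℕ, ∀ v, NA α v ≤ lam * ‖T α v‖) :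
    HasL1 Y := by
  classical
  by_contra hY
  obtain ⟨lam, hlam⟩ : ∃ lam : ℕ, ¬ {α | ∀ v, NA α v ≤ lam * ‖T α v‖}.Countable := by
    by_contra hc
    push Not at hc
    refine not_countable_bits ((countable_iUnion hc).mono fun α _ => mem_iUnion.2 (hT2 α))
  haveI : SecondCountableTopology Y := UniformSpace.secondCountable_of_separable Y
  obtain ⟨α, hα, hacc⟩ := exists_accumulation
    (fun α : Bits => (α, fun g : Clopens KT => T α (Finsupp.single g 1))) hlam
  obtain ⟨s, hs⟩ : ∃ s : ℕ, (lam : ℝ) * 100 < 2 ^ s :=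
    ((tendsto_pow_atTop_atTop_of_one_lt (by norm_num)).eventually_gt_atTop _).exists
  let sec : KS (qq s) → KT := fun e => Function.update (fun _ => 0) s e
  have hsec : Continuous sec := continuous_const.update s continuous_id
  have hsec2 : ∀ e, sec e s = e := fun e => by simp [sec]
  let ev : KS (qq s) → (Clopens KT →₀ ℝ) →ₗ[ℝ] ℝ := fun e =>
    (ContinuousMap.evalCLM ℝ (sec e)).toLinearMap.comp (Finsupp.linearCombination ℝ ind)
  obtain ⟨l, hl1, hl2, hl3⟩ := exists_measurable_lift (T α) ev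
    (fun v => (Finsupp.linearCombination ℝ ind v).continuous.comp hsec) lam (by positivity)
    (fun e v => (((Finsupp.linearCombination ℝ ind v).norm_coe_le_norm (sec e)).trans
      (norm_le_NN (lev := lev) hgen α v)).trans (hα v))
  have hβ : ∀ k : ℕ, ∃ β, β ≠ α ∧ (∀ i, i < k + 2 * 4 ^ s * 4 ^ s + 4 ^ s → β i = α i) ∧
      ∀ ρ z, ρ < 4 ^ s →
        ‖T β (Finsupp.single (pull s (Tst (4 ^ s) false ρ α k z (par0 _ (4 ^ s)))) 1) -
          T α (Finsupp.single (pull s (Tst (4 ^ s) false ρ α k z (par0 _ (4 ^ s)))) 1)‖ ≤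
          1 / (2 * (lam + 1)) := by
    intro k
    have hfin : (⋃ ρ ∈ Iio (4 ^ s), range fun z =>
        pull s (Tst (4 ^ s) false ρ α k z (par0 _ (4 ^ s)))).Finite := by
      refine (finite_Iio _).biUnion fun ρ _ => IsLocallyConstant.range_finite ?_
      exact ((isLocallyConstant_Tst (4 ^ s) false ρ k (par0 _ (4 ^ s))).comp_continuous
        (f := fun z => (α, z)) (by fun_prop)).comp (pull s)
    have h1 : ∀ᶠ p : Bits × (Clopens KT → Y) in 𝓝 (α, fun g => T α (Finsupp.single g 1)),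
        (∀ i, i < k + 2 * 4 ^ s * 4 ^ s + 4 ^ s → p.1 i = α i) ∧
        ∀ g ∈ ⋃ ρ ∈ Iio (4 ^ s), range fun z =>
          pull s (Tst (4 ^ s) false ρ α k z (par0 _ (4 ^ s))),
          ‖p.2 g - T α (Finsupp.single g 1)‖ ≤ 1 / (2 * (lam + 1)) := by
      refine (eventually_agree (continuous_fst.tendsto _) _).and ?_
      rw [hfin.eventually_all]
      intro g _
      have : Continuous fun p : Bits × (Clopens KT → Y) => ‖p.2 g - T α (Finsupp.single g 1)‖ := by
        fun_prop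
      refine (this.continuousAt.eventually_lt continuousAt_const ?_).mono fun p hp => hp.le
      simp only [sub_self, norm_zero]
      positivity
    obtain ⟨β, -, h2, h3, h4⟩ := hacc _ h1
    exact ⟨β, h2, h3, fun ρ z hρ => h4 _ (mem_iUnion₂.2 ⟨ρ, hρ, z, rfl⟩)⟩
  choose β hβ1 hβ2 hβ3 using hβ
  refine core (q := qq s) (r := 4 ^ s) (le_qq s) (by positivity) hY α β hβ1 hβ2
    (fun k S => T (β k) (Finsupp.single (pull s S) 1)) (2 ^ s) (1 / 2 ^ s) (by positivity)
    (by positivity) ?_ l hl1 lam (by positivity) hl2 ?_ ?_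
  · intro k ι t c b ρ z φ M hρ hM hsup
    let θ : ι → Idx := fun i =>
      if h : ρ i < 4 ^ s then Sum.inr ⟨s, b i, ⟨ρ i, h⟩, k, z i, φ i⟩ else Sum.inl ⊥
    have hθ : ∀ i ∈ t, pull s (Tst (4 ^ s) (b i) (ρ i) (β k) k (z i) (φ i)) = Cl (β k) (θ i) :=
      fun i hi => by rw [pull_Tst s _ _ (hρ i hi)]; simp [θ, hρ i hi]
    have hrep := Rep.sum (F := fun α θ => ind (Cl α θ)) (lev := lev) (j := s + 1) t
      (fun i => c i • fun α => ind (Cl α (θ i))) (fun i => |c i| * 1)
      (fun i hi => Rep.smul _ _ _ (Rep.base _ (by simp [θ, hρ i hi, lev])))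
    have h1 := NN_le_of_rep hgen (a := β k) (v := ∑ i ∈ t, c i • Finsupp.single
      (pull s (Tst (4 ^ s) (b i) (ρ i) (β k) k (z i) (φ i))) 1) hrep (by
        simp only [map_sum, map_smul, Finsupp.linearCombination_single, one_smul,
          Finset.sum_apply, Pi.smul_apply]
        exact Finset.sum_congr rfl fun i hi => by rw [hθ i hi])
    have h2 := hT1 (β k) (∑ i ∈ t, c i • Finsupp.single
      (pull s (Tst (4 ^ s) (b i) (ρ i) (β k) k (z i) (φ i))) 1)
    simp only [map_sum, map_smul] at h2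
    refine h2.trans (h1.trans (add_le_add (mul_le_mul_of_nonneg_left ?_ (by positivity))
      (le_of_eq ?_)))
    · rw [ContinuousMap.norm_le _ hM]
      intro e
      simp only [Finset.sum_apply, Pi.smul_apply, ContinuousMap.coe_sum, ContinuousMap.coe_smul,
        smul_eq_mul, ind_apply, Real.norm_eq_abs]
      convert hsup (e s) using 3 with i hi
      simp only [θ, hρ i hi, dif_pos, Cl]
      rfl
    · simp only [mul_one]; ring
  · intro k ρ e hρ
    have e1 : Tst (4 ^ s) false ρ (β k) k (Gam (4 ^ s) false ρ α e) (par0 _ (4 ^ s)) =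
        Tst (4 ^ s) false ρ α k (Gam (4 ^ s) false ρ α e) (par0 _ (4 ^ s)) := rfl
    rw [e1]
    have h1 := hl3 e (Finsupp.single
      (pull s (Tst (4 ^ s) false ρ α k (Gam (4 ^ s) false ρ α e) (par0 _ (4 ^ s)))) 1)
    have h2 : ev e (Finsupp.single
        (pull s (Tst (4 ^ s) false ρ α k (Gam (4 ^ s) false ρ α e) (par0 _ (4 ^ s)))) 1) = 1 := by
      simp only [ev, LinearMap.comp_apply, Finsupp.linearCombination_single, one_smul,
        ContinuousLinearMap.coe_coe, ContinuousMap.evalCLM_apply, ind_apply]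
      rw [if_pos]
      rw [pull_Tst s _ _ hρ]
      show sec e s ∈ Tst _ _ _ _ _ _ _
      rw [hsec2]
      simp only [Tst, Cnd, Cyl, pset, par0, mem_ofPred_eq, sub_self, Pi.zero_apply, Prod.snd_zero,
        Prod.fst_zero, map_zero, add_zero, implies_true, true_and]
      exact ⟨fun _ _ _ _ => ⟨rfl, rfl⟩, zero_mem_vset_RU le_rfl⟩
    have h3 := (hl2 e _).trans (mul_le_mul_of_nonneg_left
      (hβ3 k ρ (Gam (4 ^ s) false ρ α e) hρ) (by positivity))
    rw [map_sub, h1, h2, abs_le] at h3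
    have h4 : (lam : ℝ) * (1 / (2 * (lam + 1))) ≤ 1 / 2 := by
      rw [mul_one_div, div_le_div_iff₀ (by positivity) (by positivity)]
      linarith
    linarith [h3.1]
  · have h1 : ((4 ^ s : ℕ) : ℝ) = 2 ^ s * 2 ^ s := by
      push_cast
      rw [← mul_pow]; norm_num
    rw [h1]
    have h2 : (0 : ℝ) < 2 ^ s := by positivity
    have : (lam : ℝ) * (2 ^ s / (2 ^ s * 2 ^ s) + 4 * (1 / 2 ^ s)) = lam * 5 / 2 ^ s := by
      field_simp
      ring
    rw [this, div_le_iff₀ h2]
    linarith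

lemma normalise {V X Y : Type*} [AddCommGroup V] [Module ℝ V] [NormedAddCommGroup X]
    [NormedSpace ℝ X] [NormedAddCommGroup Y] [NormedSpace ℝ Y] (N : V → ℝ) (j : V →ₗ[ℝ] X)
    (hj : ∀ v, ‖j v‖ = N v) (T : X →L[ℝ] Y) (c : ℝ) (hc : 0 < c) (hT : ∀ v, c * ‖v‖ ≤ ‖T v‖) :
    ∃ S : V →ₗ[ℝ] Y, (∀ v, ‖S v‖ ≤ N v) ∧ ∃ lam : ℕ, ∀ v, N v ≤ lam * ‖S v‖ := by
  have hp : 0 < ‖T‖ + 1 := by positivity
  obtain ⟨lam, hlam⟩ := exists_nat_ge ((‖T‖ + 1) / c)
  have e : ∀ v, ‖((‖T‖ + 1)⁻¹ • T.toLinearMap.comp j) v‖ = (‖T‖ + 1)⁻¹ * ‖T (j v)‖ := by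
    intro v
    rw [LinearMap.smul_apply, norm_smul, Real.norm_of_nonneg (by positivity)]
    rfl
  refine ⟨(‖T‖ + 1)⁻¹ • T.toLinearMap.comp j, fun v => ?_, lam, fun v => ?_⟩
  · rw [e, inv_mul_le_iff₀ hp, ← hj]
    have := T.le_opNorm (j v)
    nlinarith [norm_nonneg (j v)]
  · rw [e, ← hj]
    have h1 := hT (j v)
    rw [div_le_iff₀ hc] at hlam
    rw [← mul_assoc, mul_comm (lam : ℝ), mul_assoc, le_inv_mul_iff₀ hp]
    have h2 : (0 : ℝ) ≤ lam := Nat.cast_nonneg _
    nlinarith [mul_le_mul_of_nonneg_left h1 h2,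
      mul_le_mul_of_nonneg_right hlam (norm_nonneg (j v))]

theorem hasL1_of_family (J : Bits → (Clopens KT →₀ ℝ) →ₗ[ℝ] C(ℕ → Bool, ℝ))
    (hJ : ∀ α v, ‖J α v‖ = NA α v) (Y : Submodule ℝ C(ℕ → Bool, ℝ))
    (hY : IsClosed (Y : Set C(ℕ → Bool, ℝ)))
    (h : ∀ α, ∃ T : (LinearMap.range (J α)).topologicalClosure →L[ℝ] Y,
      ∃ c : ℝ, 0 < c ∧ ∀ v, c * ‖v‖ ≤ ‖T v‖) : HasL1 Y := by
  haveI : CompleteSpace Y := hY.completeSpace_coe
  have key : ∀ α, ∃ S : (Clopens KT →₀ ℝ) →ₗ[ℝ] Y, (∀ v, ‖S v‖ ≤ NA α v) ∧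
      ∃ lam : ℕ, ∀ v, NA α v ≤ lam * ‖S v‖ := by
    intro α
    obtain ⟨T, c, hc, hT⟩ := h α
    exact normalise (X := (LinearMap.range (J α)).topologicalClosure) (Y := Y) (NA α)
      ((J α).codRestrict (LinearMap.range (J α)).topologicalClosure
      (fun v => Submodule.le_topologicalClosure _ (LinearMap.mem_range_self _ v))) (hJ α) T c hc hT
  choose T hT1 hT2 using key
  exact hasL1_of_universal T hT1 hT2

end Pool.Agent.Lib.MP_ac4964_an
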