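import Pool.Agent.Lib.MP_ac4964_an.Tame

set_option autoImplicit false

open Set Filter Topology

namespace Pool.Agent.Lib.MP_ac4964_an

abbrev Bits : Type := ℕ → ZMod 2

abbrev Om : Type := Bits × Bits

lemma bits_add_self (x : Bits) : x + x = 0 := by
  funext n
  exact CharTwo.add_self_eq_zero (x n)

lemma om_add_self (d : Om) : d + d = 0 := Prod.ext (bits_add_self _) (bits_add_self _)

/-- The shear `(x, y) ↦ (x + σ^j y, y)`. -/
def shA (j : ℕ) : Om →+ Om where
  toFun d := (d.1 + fun n => d.2 (n + j), d.2)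
  map_zero' := by ext <;> simp
  map_add' d e := by ext <;> simp; ring

/-- The shear `(x, y) ↦ (x, y + σ^j x)`. -/
def shB (j : ℕ) : Om →+ Om where
  toFun d := (d.1, d.2 + fun n => d.1 (n + j))
  map_zero' := by ext <;> simp
  map_add' d e := by ext <;> simp; ring

lemma shA_apply (j : ℕ) (d : Om) : shA j d = (d.1 + fun n => d.2 (n + j), d.2) := rfl

lemma shB_apply (j : ℕ) (d : Om) : shB j d = (d.1, d.2 + fun n => d.1 (n + j)) := rfl

lemma shA_shA (j : ℕ) (d : Om) : shA j (shA j d) = d := by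
  simp only [shA_apply, add_assoc, bits_add_self, add_zero]

lemma shB_shB (j : ℕ) (d : Om) : shB j (shB j d) = d := by
  simp only [shB_apply, add_assoc, bits_add_self, add_zero]

lemma continuous_shA (j : ℕ) : Continuous (shA j) := by
  show Continuous fun d : Om => ((d.1 + fun n => d.2 (n + j), d.2) : Om)
  fun_prop

lemma continuous_shB (j : ℕ) : Continuous (shB j) := by
  show Continuous fun d : Om => ((d.1, d.2 + fun n => d.1 (n + j)) : Om)
  fun_prop

/-- The open subgroup of points vanishing to depth `t`. -/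
def Ub (t : ℕ) : Set Om := {d | ∀ i, i < t → d.1 i = 0 ∧ d.2 i = 0}

lemma Ub_mono {t t' : ℕ} (h : t ≤ t') {d : Om} (hd : d ∈ Ub t') : d ∈ Ub t :=
  fun i hi => hd i (hi.trans_le h)

lemma Ub_add {t : ℕ} {d e : Om} (hd : d ∈ Ub t) (he : e ∈ Ub t) : d + e ∈ Ub t :=
  fun i hi => by simp [hd i hi, he i hi]

lemma shA_Ub {j r t : ℕ} (hj : j ≤ r) {d : Om} (hd : d ∈ Ub (t + r)) : shA j d ∈ Ub t :=
  fun i hi => by simp [shA_apply, hd i (by omega), hd (i + j) (by omega)]

lemma shB_Ub {j r t : ℕ} (hj : j ≤ r) {d : Om} (hd : d ∈ Ub (t + r)) : shB j d ∈ Ub t :=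
  fun i hi => by simp [shB_apply, hd i (by omega), hd (i + j) (by omega)]

lemma isClopen_coord {X F : Type*} [TopologicalSpace X] [TopologicalSpace F] [DiscreteTopology F]
    {f : X → F} (hf : Continuous f) (a : F) : IsClopen {x | f x = a} :=
  (isClopen_discrete {a}).preimage hf

lemma isClopen_Ub (t : ℕ) : IsClopen (Ub t) := by
  have : Ub t = ⋂ i ∈ Finset.range t, ({d : Om | d.1 i = 0} ∩ {d : Om | d.2 i = 0}) := by
    ext d; simp [Ub]
  rw [this]
  exact isClopen_biInter_finset fun i _ =>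
    (isClopen_coord (by fun_prop) _).inter (isClopen_coord (by fun_prop) _)

/-- The position of the first nonzero bit, truncated at `M`. -/
def vM (M : ℕ) (x : Bits) : ℕ :=
  Nat.find (p := fun n => M ≤ n ∨ x n ≠ 0) ⟨M, Or.inl le_rfl⟩

lemma le_vM {M n : ℕ} {x : Bits} : n ≤ vM M x ↔ n ≤ M ∧ ∀ i, i < n → x i = 0 := by
  rw [vM, Nat.le_find_iff]
  constructor
  · intro h
    refine ⟨?_, fun i hi => ?_⟩
    · by_contra hc
      exact h M (not_le.1 hc) (Or.inl le_rfl)
    · by_contra hc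
      exact h i hi (Or.inr hc)
  · rintro ⟨h1, h2⟩ m hm (h | h)
    · omega
    · exact h (h2 m hm)

lemma vM_le (M : ℕ) (x : Bits) : vM M x ≤ M := (le_vM.1 le_rfl).1

lemma vM_zero {M i : ℕ} {x : Bits} (h : i < vM M x) : x i = 0 := (le_vM.1 le_rfl).2 i h

lemma vM_ne {M : ℕ} {x : Bits} (h : vM M x < M) : x (vM M x) ≠ 0 := by
  intro hc
  have : vM M x + 1 ≤ vM M x := le_vM.2 ⟨h, fun i hi => by
    rcases Nat.lt_succ_iff_lt_or_eq.1 hi with hi | rfl
    · exact vM_zero hi
    · exact hc⟩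
  omega

lemma vM_congr {M : ℕ} {x y : Bits} (h : ∀ i, i < M → x i = y i) : vM M x = vM M y := by
  refine eq_of_forall_le_iff fun n => ?_
  rw [le_vM, le_vM]
  exact and_congr_right fun hn => forall₂_congr fun i hi => by rw [h i (hi.trans_le hn)]

lemma vM_eq_min {M m : ℕ} {x : Bits} (h1 : x m ≠ 0) (h2 : ∀ i, i < m → x i = 0) :
    vM M x = min m M := by
  refine eq_of_forall_le_iff fun n => ?_
  rw [le_vM, le_min_iff, and_comm]
  refine and_congr_left fun _ => ⟨fun h => ?_, fun h i hi => h2 i (hi.trans_le h)⟩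
  by_contra hc
  exact h1 (h m (not_le.1 hc))

lemma eventually_agree {ι F : Type*} [TopologicalSpace F] [DiscreteTopology F] {l : Filter ι}
    {w : ι → ℕ → F} {a : ℕ → F} (h : Tendsto w l (𝓝 a)) (M : ℕ) :
    ∀ᶠ n in l, ∀ i, i < M → w n i = a i := by
  have : ∀ᶠ n in l, ∀ i ∈ Finset.range M, w n i = a i := by
    rw [eventually_all_finset]
    intro i _
    have := tendsto_pi_nhds.1 h i
    rwa [nhds_discrete, tendsto_pure] at this
  exact this.mono fun n hn i hi => hn i (Finset.mem_range.2 hi)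

lemma continuous_vM (M : ℕ) : Continuous (vM M) := by
  refine IsLocallyConstant.continuous ?_
  rw [IsLocallyConstant.iff_eventually_eq]
  intro x
  exact (eventually_agree (tendsto_id (x := 𝓝 x)) M).mono fun y hy => vM_congr hy

/-- Sets determined by the pair of truncated valuations. -/
def vset (M : ℕ) (R : Set (ℕ × ℕ)) : Set Om := {d | (vM M d.1, vM M d.2) ∈ R}

lemma isClopen_vset (M : ℕ) (R : Set (ℕ × ℕ)) : IsClopen (vset M R) :=
  (isClopen_discrete R).preimage
    (((continuous_vM M).comp continuous_fst).prodMk ((continuous_vM M).comp continuous_snd))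

open Classical in
/-- The position of the first nonzero bit, if any. -/
noncomputable def ty (x : Bits) : Option ℕ :=
  if h : ∃ n, x n ≠ 0 then some (Nat.find h) else none

lemma vM_eventually {w : ℕ → Bits} {a : Bits} (h : Tendsto w atTop (𝓝 a)) (M : ℕ → ℕ) (x : Bits) :
    ∀ᶠ n in atTop, vM (M n) (x + w n) =
      (ty (x + a)).elim (vM (M n) (a + w n)) fun m => min m (M n) := by
  classical
  by_cases h1 : ∃ n, (x + a) n ≠ 0
  · rw [ty, dif_pos h1]
    filter_upwards [eventually_agree h (Nat.find h1 + 1)] with n hn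
    refine vM_eq_min ?_ fun i hi => ?_
    · simpa [hn _ (Nat.lt_succ_self _)] using Nat.find_spec h1
    · simpa [hn i (by omega)] using Nat.find_min h1 hi
  · rw [ty, dif_neg h1]
    push Not at h1
    have : x = a := by
      have h2 : x + a = 0 := funext h1
      rw [← add_zero x, ← bits_add_self a, ← add_assoc, h2, zero_add]
    simp [this]

lemma tame_vset : Tame {S : Set Om | ∃ w M R, S = {d | d + w ∈ vset M R}} := by
  intro S hS
  choose w M R e using hS
  obtain ⟨a, φ, h1, h2⟩ := CompactSpace.tendsto_subseq w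
  refine SubConv.of_comp h1 (subConv_of_types _ (fun d => (ty (d.1 + a.1), ty (d.2 + a.2)))
    (fun n t => (t.1.elim (vM (M (φ n)) (a.1 + (w (φ n)).1)) (fun m => min m (M (φ n))),
      t.2.elim (vM (M (φ n)) (a.2 + (w (φ n)).2)) (fun m => min m (M (φ n)))) ∈ R (φ n))
    fun d => ?_)
  have h3 := vM_eventually ((continuous_fst.tendsto a).comp h2) (fun n => M (φ n)) d.1
  have h4 := vM_eventually ((continuous_snd.tendsto a).comp h2) (fun n => M (φ n)) d.2
  filter_upwards [h3, h4] with n h5 h6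
  simp only [Function.comp] at h5 h6
  simp only [e, vset, mem_ofPred_eq, Prod.fst_add, Prod.snd_add, h5, h6]

/-- The diagonal corner, describing `Ub M`. -/
def RU (M : ℕ) : Set (ℕ × ℕ) := {p | M ≤ p.1 ∧ M ≤ p.2}

/-- The sector where the first coordinate is larger. -/
def RA (L : ℕ) : Set (ℕ × ℕ) := {p | L ≤ p.1 ∧ p.1 < p.2}

/-- The sector where the second coordinate is larger. -/
def RB (L M : ℕ) : Set (ℕ × ℕ) := {p | L ≤ p.2 ∧ p.2 < M ∧ p.2 ≤ p.1}

lemma shA_disj {r M i j : ℕ} (hi : i ≤ r) (hj : 1 ≤ j) (hij : j < i) {d : Om}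
    (h1 : shA i d ∈ vset M (RB r M)) (h2 : shA j d ∈ vset M (RB r M)) : False := by
  obtain ⟨h3, h4, h5⟩ := h1
  obtain ⟨-, -, h6⟩ := h2
  simp only [shA_apply] at h3 h4 h5 h6
  have h7 := vM_zero (i := vM M d.2 - i) (lt_of_lt_of_le (by omega) h5)
  have h8 := vM_zero (i := vM M d.2 - i) (lt_of_lt_of_le (by omega) h6)
  have h9 : d.2 (vM M d.2 - i + j) = 0 := vM_zero (M := M) (by omega)
  simp only [Pi.add_apply, h9, add_zero] at h7 h8
  rw [h8, zero_add, Nat.sub_add_cancel (by omega)] at h7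
  exact vM_ne h4 h7

lemma shB_disj {r M i j : ℕ} (hi : i ≤ r) (_hj : 1 ≤ j) (hij : j < i) {d : Om}
    (h1 : shB i d ∈ vset M (RA r)) (h2 : shB j d ∈ vset M (RA r)) : False := by
  obtain ⟨h3, h5⟩ := h1
  obtain ⟨-, h6⟩ := h2
  simp only [shB_apply] at h3 h5 h6
  have h4 : vM M d.1 < M := h5.trans_le (vM_le _ _)
  have h7 := vM_zero (i := vM M d.1 - i) (lt_of_le_of_lt (by omega) h5)
  have h8 := vM_zero (i := vM M d.1 - i) (lt_of_le_of_lt (by omega) h6)
  have h9 : d.1 (vM M d.1 - i + j) = 0 := vM_zero (M := M) (by omega)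
  simp only [Pi.add_apply, h9, add_zero] at h7 h8
  rw [h8, zero_add, Nat.sub_add_cancel (by omega)] at h7
  exact vM_ne h4 h7

lemma translate_subset {r M : ℕ} {τ : Bits} (h1 : r ≤ vM M τ) (h2 : vM M τ < M) {d : Om}
    (hd : d + (τ, 0) ∈ vset M (RU M)) : d ∈ vset M (RA r) := by
  obtain ⟨h3, h4⟩ := hd
  simp only [Prod.fst_add, Prod.snd_add, add_zero] at h3 h4
  have h5 : vM M d.1 = vM M τ := vM_congr fun i hi => by
    have := (le_vM.1 h3).2 i hi
    simp only [Pi.add_apply] at this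
    rw [← add_zero (d.1 i), ← CharTwo.add_self_eq_zero (τ i), ← add_assoc, this, zero_add]
  exact ⟨h5 ▸ h1, by simp only [h5]; omega⟩

lemma zero_mem_vset_RU {L M : ℕ} (h : L ≤ M) : (0 : Om) ∈ vset M (RU L) :=
  ⟨le_vM.2 ⟨h, fun _ _ => rfl⟩, le_vM.2 ⟨h, fun _ _ => rfl⟩⟩

lemma mem_vset_RU {L M : ℕ} (h : L ≤ M) {d : Om} : d ∈ vset M (RU L) ↔ d ∈ Ub L := by
  simp only [vset, RU, mem_ofPred_eq, le_vM, h, true_and, Ub, imp_and, forall_and]

open Classical in
lemma vset_split {L M : ℕ} (h : L ≤ M) (d : Om) :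
    (if d ∈ vset M (RU L) then (1 : ℝ) else 0) = (if d ∈ vset M (RU M) then 1 else 0) +
      (if d ∈ vset M (RA L) then 1 else 0) + (if d ∈ vset M (RB L M) then 1 else 0) := by
  have h1 := vM_le M d.1
  have h2 := vM_le M d.2
  simp only [vset, RU, RA, RB, mem_ofPred_eq]
  split_ifs <;> first | omega | simp

end Pool.Agent.Lib.MP_ac4964_an
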