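import Mathlib

set_option autoImplicit false

open Set Filter Topology

namespace Pool.Agent.Lib.MP_ac4964_an

section Retr

variable {A : Type*}

open Classical in
/-- The greedy retraction of Cantor space onto the fibre of `C` above `a`. -/
noncomputable def retr (C : Set (A × (ℕ → Bool))) (a : A) (t : ℕ → Bool) (n : ℕ) : Bool :=
  if ∃ t', (a, t') ∈ C ∧ (∀ i, i < n → t' i = retr C a t i) ∧ t' n = t n then t n else !t n
termination_by n

lemma retr_ext (C : Set (A × (ℕ → Bool))) (a : A) (ha : ∃ t, (a, t) ∈ C) (t : ℕ → Bool) (n : ℕ) :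
    ∃ t', (a, t') ∈ C ∧ ∀ i, i < n → t' i = retr C a t i := by
  induction n with
  | zero => obtain ⟨t', h⟩ := ha; exact ⟨t', h, by simp⟩
  | succ n ih =>
    obtain ⟨t', h1, h2⟩ := ih
    by_cases h : ∃ t', (a, t') ∈ C ∧ (∀ i, i < n → t' i = retr C a t i) ∧ t' n = t n
    · obtain ⟨t'', h3, h4, h5⟩ := id h
      refine ⟨t'', h3, fun i hi => ?_⟩
      rcases Nat.lt_succ_iff_lt_or_eq.1 hi with hi | rfl
      · exact h4 i hi
      · rw [retr, if_pos h, h5]
    · refine ⟨t', h1, fun i hi => ?_⟩
      rcases Nat.lt_succ_iff_lt_or_eq.1 hi with hi | rfl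
      · exact h2 i hi
      · rw [retr, if_neg h]
        have : t' i ≠ t i := fun e => h ⟨t', h1, h2, e⟩
        cases h3 : t' i <;> cases h4 : t i <;> simp_all

lemma retr_mem [TopologicalSpace A] {C : Set (A × (ℕ → Bool))} (hC : IsClosed C) (a : A)
    (ha : ∃ t, (a, t) ∈ C) (t : ℕ → Bool) : (a, retr C a t) ∈ C := by
  choose u hu1 hu2 using retr_ext C a ha t
  have h : Tendsto u atTop (𝓝 (retr C a t)) := by
    rw [tendsto_pi_nhds]
    intro i
    refine tendsto_const_nhds.congr' ?_
    filter_upwards [eventually_gt_atTop i] with n hn using (hu2 n i hn).symm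
  exact hC.mem_of_tendsto (tendsto_const_nhds.prodMk_nhds h) (Eventually.of_forall hu1)

lemma retr_fix (C : Set (A × (ℕ → Bool))) (a : A) (t : ℕ → Bool) (ht : (a, t) ∈ C) :
    retr C a t = t := by
  funext n
  induction n using Nat.strong_induction_on with
  | _ n ih =>
    rw [retr, if_pos ⟨t, ht, fun i hi => (ih i hi).symm, rfl⟩]

lemma retr_dep (C : Set (A × (ℕ → Bool))) (a : A) (t t' : ℕ → Bool) (n : ℕ)
    (h : ∀ i, i ≤ n → t i = t' i) : retr C a t n = retr C a t' n := by
  induction n using Nat.strong_induction_on with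
  | _ n ih =>
    have e : ∀ i, i < n → retr C a t i = retr C a t' i :=
      fun i hi => ih i hi fun j hj => h j (hj.trans hi.le)
    rw [retr, retr, h n le_rfl]
    congr 1
    refine propext ⟨?_, ?_⟩
    · rintro ⟨s, h1, h2, h3⟩
      exact ⟨s, h1, fun i hi => (h2 i hi).trans (e i hi), h3⟩
    · rintro ⟨s, h1, h2, h3⟩
      exact ⟨s, h1, fun i hi => (h2 i hi).trans (e i hi).symm, h3⟩

lemma retr_continuous (C : Set (A × (ℕ → Bool))) (a : A) : Continuous (retr C a) := by
  refine continuous_pi fun n => ?_
  refine IsLocallyConstant.continuous ?_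
  rw [IsLocallyConstant.iff_eventually_eq]
  intro t
  have : ∀ᶠ t' in 𝓝 t, ∀ i ∈ Finset.range (n + 1), t' i = t i := by
    rw [eventually_all_finset]
    intro i _
    have := (continuous_apply i).continuousAt (x := t)
    exact this.eventually (p := fun b => b = t i) (by simp [nhds_discrete])
  filter_upwards [this] with t' ht'
  exact retr_dep C a t' t n fun i hi => ht' i (Finset.mem_range.2 (Nat.lt_succ_of_le hi))

lemma retr_measurable [TopologicalSpace A] [MeasurableSpace A] [OpensMeasurableSpace A]
    {C : Set (A × (ℕ → Bool))} (hC : IsClosed C) (t : ℕ → Bool) :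
    Measurable fun a => retr C a t := by
  classical
  have key : ∀ n, Measurable fun a => retr C a t n := by
    intro n
    induction n using Nat.strong_induction_on with
    | _ n ih =>
      have hE : IsClosed {p : A × (ℕ → Bool) | ∃ t', (p.1, t') ∈ C ∧ ∀ i, i ≤ n → t' i = p.2 i} := by
        have h1 : IsClosed {q : (A × (ℕ → Bool)) × (ℕ → Bool) |
            (q.1.1, q.2) ∈ C ∧ ∀ i, i ≤ n → q.2 i = q.1.2 i} := by
          have h3 : IsClosed (⋂ i, ⋂ (_ : i ≤ n),
              {q : (A × (ℕ → Bool)) × (ℕ → Bool) | q.2 i = q.1.2 i}) := by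
            refine isClosed_iInter fun i => isClosed_iInter fun _ => isClosed_eq ?_ ?_ <;> fun_prop
          have h4 : IsClosed {q : (A × (ℕ → Bool)) × (ℕ → Bool) | (q.1.1, q.2) ∈ C} :=
            hC.preimage (f := fun q : (A × (ℕ → Bool)) × (ℕ → Bool) => (q.1.1, q.2)) (by fun_prop)
          convert h4.inter h3 using 1
          ext q
          simp
        have h2 := isClosedMap_fst_of_compactSpace _ h1
        convert h2 using 1
        ext p
        simp
      have hm : Measurable fun a : A =>
          ((a, fun i => if i < n then retr C a t i else t n) : A × (ℕ → Bool)) := by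
        refine measurable_id.prodMk (measurable_pi_lambda _ fun i => ?_)
        by_cases hi : i < n
        · simpa [hi] using ih i hi
        · simp [hi]
      have hS := hm hE.measurableSet
      have e : (fun a => retr C a t n) = fun a => if a ∈ ((fun a : A =>
          ((a, fun i => if i < n then retr C a t i else t n) : A × (ℕ → Bool))) ⁻¹'
          {p : A × (ℕ → Bool) | ∃ t', (p.1, t') ∈ C ∧ ∀ i, i ≤ n → t' i = p.2 i})
          then t n else !t n := by
        funext a
        rw [retr]
        congr 1
        refine propext ⟨?_, ?_⟩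
        · rintro ⟨s, h1, h2, h3⟩
          refine ⟨s, h1, fun i hi => ?_⟩
          rcases hi.lt_or_eq with hi | rfl
          · simp [hi, h2 i hi]
          · simp [h3]
        · rintro ⟨s, h1, h2⟩
          refine ⟨s, h1, fun i hi => ?_, ?_⟩
          · simpa [hi] using h2 i hi.le
          · simpa using h2 n le_rfl
      rw [e]
      exact Measurable.ite hS measurable_const measurable_const
  exact measurable_pi_lambda _ key

end Retr

end Pool.Agent.Lib.MP_ac4964_an
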