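import Pool.Agent.Lib.MP_ac4964_an.Omega

set_option autoImplicit false

open Set Filter Topology MeasureTheory

namespace Pool.Agent.Lib.MP_ac4964_an

section Struct

variable {q : ℕ} (r : ℕ)

/-- The linear map attached to a label. -/
def lin (ξ : ZMod q) : Om →+ Om :=
  if ξ.val < r then shA (ξ.val + 1) else if ξ.val < 2 * r then shB (ξ.val - r + 1)
  else AddMonoidHom.id _

/-- The translation attached to a label. -/
def tr (ξ : ZMod q) (α : Bits) : Om := if ξ.val = 2 * r then (α, 0) else 0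

lemma lin_lin (ξ : ZMod q) (d : Om) : lin r ξ (lin r ξ d) = d := by
  unfold lin
  split_ifs
  · exact shA_shA _ _
  · exact shB_shB _ _
  · rfl

lemma continuous_lin (ξ : ZMod q) : Continuous (lin r ξ) := by
  unfold lin
  split_ifs
  · exact continuous_shA _
  · exact continuous_shB _
  · exact continuous_id

lemma lin_Ub (ξ : ZMod q) {t : ℕ} {d : Om} (hd : d ∈ Ub (t + r)) : lin r ξ d ∈ Ub t := by
  unfold lin
  split_ifs
  · exact shA_Ub (by omega) hd
  · exact shB_Ub (by omega) hd
  · exact Ub_mono (by omega) hd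

lemma continuous_tr (ξ : ZMod q) : Continuous (tr r ξ) := by
  unfold tr
  split_ifs <;> fun_prop

lemma tr_add (ξ : ZMod q) (α β : Bits) : tr r ξ (α + β) = tr r ξ α + tr r ξ β := by
  unfold tr
  split_ifs <;> simp

lemma tr_Ub (ξ : ZMod q) {t : ℕ} {α : Bits} (h : ∀ i, i < t → α i = 0) : tr r ξ α ∈ Ub t := by
  unfold tr
  split_ifs
  · exact fun i hi => ⟨h i hi, rfl⟩
  · exact fun i hi => ⟨rfl, rfl⟩

/-- The affine map on `Om` used by the factors of class `b`. -/
def act (b : Bool) (α : Bits) (ξ : ZMod q) (d : Om) : Om :=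
  if b then lin r ξ d + tr r ξ α else d

/-- The slope attached to a factor. -/
def iota (q : ℕ) (b : Bool) (ρ : ℕ) : ZMod q := ((2 * ρ + b.toNat : ℕ) : ZMod q)

abbrev PP (q : ℕ) : Type := ℕ → Om × ZMod q

abbrev KS (q : ℕ) : Type := (ℕ → ZMod q) × PP q

/-- The factor maps. -/
def Gam (b : Bool) (ρ : ℕ) (α : Bits) (e : KS q) : PP q :=
  fun l => (act r b α (e.1 l) (e.2 l).1, (e.2 l).2 + iota q b ρ * e.1 l)

lemma continuous_act (b : Bool) :
    Continuous fun p : ZMod q × Bits × Om => act r b p.2.1 p.1 p.2.2 := by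
  rw [continuous_prod_of_discrete_left]
  intro ξ
  cases b
  · exact continuous_snd
  · exact ((continuous_lin r ξ).comp continuous_snd).add ((continuous_tr r ξ).comp continuous_fst)

lemma continuous_Gam (b : Bool) (ρ : ℕ) :
    Continuous fun p : Bits × KS q => Gam r b ρ p.1 p.2 := by
  refine continuous_pi fun l => Continuous.prodMk ?_ ?_
  · exact (continuous_act r b).comp (f := fun p : Bits × KS q => (p.2.1 l, p.1, (p.2.2 l).1))
      (by fun_prop)
  · exact (continuous_of_discreteTopology (f := fun p : ZMod q × ZMod q =>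
      p.1 + iota q b ρ * p.2)).comp (f := fun p : Bits × KS q => ((p.2.2 l).2, p.2.1 l))
      (by fun_prop)

/-- The depth of localisation. -/
def dep (k : ℕ) (b : Bool) (ρ : ℕ) : ℕ := k + 2 * r * ρ + r * b.toNat

abbrev Par (q : ℕ) : Type := ZMod q × Om × ℕ × Set (ℕ × ℕ)

/-- The subset of `Om` described by a parameter. -/
def pset (φ : Par q) : Set Om := {d | lin r φ.1 d + φ.2.1 ∈ vset φ.2.2.1 φ.2.2.2}

lemma isClopen_pset (φ : Par q) : IsClopen (pset r φ) :=
  (isClopen_vset _ _).preimage ((continuous_lin r φ.1).add continuous_const)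

/-- The localising cylinder. -/
def Cyl (q k t : ℕ) : Set (PP q) :=
  {y | (∀ l, l ≤ k → (y l).2 = 0) ∧ ∀ l, l < k → (y l).1 ∈ Ub t}

lemma isClopen_Cyl (k t : ℕ) : IsClopen (Cyl q k t) := by
  have : Cyl q k t = (⋂ l ∈ Finset.range (k + 1), {y : PP q | (y l).2 = 0}) ∩
      ⋂ l ∈ Finset.range k, (fun y : PP q => (y l).1) ⁻¹' Ub t := by
    ext y; simp [Cyl]
  rw [this]
  exact (isClopen_biInter_finset fun l _ => isClopen_coord (by fun_prop) _).inter
    (isClopen_biInter_finset fun l _ => (isClopen_Ub t).preimage (by fun_prop))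

/-- The test condition on a difference of two points of the factor space. -/
def Cnd (k t : ℕ) (φ : Par q) : Set (PP q) := {y | y ∈ Cyl q k t ∧ (y k).1 ∈ pset r φ}

lemma isClopen_Cnd (k t : ℕ) (φ : Par q) : IsClopen (Cnd r k t φ) :=
  (isClopen_Cyl k t).inter ((isClopen_pset r φ).preimage (f := fun y : PP q => (y k).1)
    (by fun_prop))

/-- The test sets. -/
def Tst (b : Bool) (ρ : ℕ) (α : Bits) (k : ℕ) (z : PP q) (φ : Par q) : Set (KS q) :=
  {e | Gam r b ρ α e - z ∈ Cnd r k (dep r k b ρ) φ}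

instance : IsTopologicalAddGroup (ZMod q) where
  continuous_add := continuous_of_discreteTopology
  continuous_neg := continuous_of_discreteTopology

variable [Fact q.Prime]

lemma tame_level (k t : ℕ) : Tame {T : Set (PP q) | ∃ z φ, T = {y | y - z ∈ Cnd r k t φ}} := by
  have h1 := tame_translates (isClopen_Cyl (q := q) k t)
  have h2 := tame_iUnion fun ξ : ZMod q => tame_vset.preimage fun y : PP q => lin r ξ (y k).1
  refine (h1.inter h2).mono ?_
  rintro _ ⟨z, φ, rfl⟩
  refine ⟨_, ⟨z, rfl⟩, _, mem_iUnion.2 ⟨φ.1, _, ⟨φ.2.1 - lin r φ.1 (z k).1, φ.2.2.1, φ.2.2.2, rfl⟩,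
    rfl⟩, ?_⟩
  ext y
  simp only [Cnd, pset, mem_ofPred_eq, mem_inter_iff, mem_preimage, Pi.sub_apply, Prod.fst_sub,
    map_sub]
  rw [show lin r φ.1 (y k).1 - lin r φ.1 (z k).1 + φ.2.1 =
    lin r φ.1 (y k).1 + (φ.2.1 - lin r φ.1 (z k).1) by abel]

lemma tame_all (t : ℕ → ℕ) (ht : ∀ k, k ≤ t k) :
    Tame {T : Set (PP q) | ∃ k z φ, T = {y | y - z ∈ Cnd r k (t k) φ}} := by
  classical
  intro S hS
  choose k z φ e using hS
  by_cases h : ∃ k₀, ∃ᶠ n in atTop, k n = k₀
  · obtain ⟨k₀, h⟩ := h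
    obtain ⟨ψ, h1, h2⟩ := extraction_of_frequently_atTop h
    exact SubConv.of_comp h1 (tame_level r k₀ (t k₀) _ fun n => ⟨z (ψ n), φ (ψ n), by
      rw [e, h2]⟩)
  · push Not at h
    have hk : Tendsto k atTop atTop := by
      refine tendsto_atTop.2 fun b => ?_
      have : ∀ᶠ n in atTop, ∀ i ∈ Finset.range b, k n ≠ i := by
        rw [eventually_all_finset]
        exact fun i _ => h i
      refine this.mono fun n hn => ?_
      by_contra hc
      exact hn _ (Finset.mem_range.2 (not_le.1 hc)) rfl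
    obtain ⟨a, ψ, h1, h2⟩ := CompactSpace.tendsto_subseq z
    refine SubConv.of_comp h1 (subConv_of_types _ (fun y => decide (y = a))
      (fun n c => c = true ∧ a ∈ S (ψ n)) fun y => ?_)
    by_cases hy : y = a
    · simp [hy]
    · simp only [hy, decide_false, Bool.false_eq_true, false_and, iff_false]
      obtain ⟨l, hl⟩ := Function.ne_iff.1 hy
      have h3 := tendsto_pi_nhds.1 h2 l
      have h4 := (hk.comp h1.tendsto_atTop).eventually_gt_atTop
      by_cases h5 : (y l).2 = (a l).2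
      · have h6 : ∃ p, (y l).1.1 p ≠ (a l).1.1 p ∨ (y l).1.2 p ≠ (a l).1.2 p := by
          by_contra hc
          push Not at hc
          exact hl (Prod.ext (Prod.ext (funext fun p => (hc p).1) (funext fun p => (hc p).2)) h5)
        obtain ⟨p, hp⟩ := h6
        have h7 := eventually_agree
          (((continuous_fst.comp continuous_fst).tendsto (a l)).comp h3) (p + 1)
        have h8 := eventually_agree
          (((continuous_snd.comp continuous_fst).tendsto (a l)).comp h3) (p + 1)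
        filter_upwards [h4 l, h4 p, h7, h8] with n h9 h10 h11 h12 hc
        rw [e] at hc
        have h13 := hc.1.2 l h9 p (lt_of_lt_of_le h10 (ht _))
        have h14 := h11 p (Nat.lt_succ_self _)
        have h15 := h12 p (Nat.lt_succ_self _)
        simp only [Function.comp] at h14 h15
        simp only [Pi.sub_apply, Prod.fst_sub, Prod.snd_sub, sub_eq_zero, h14, h15] at h13
        tauto
      · have h7 := (continuous_snd.tendsto (a l)).comp h3
        rw [nhds_discrete, tendsto_pure] at h7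
        filter_upwards [h4 l, h7] with n h9 h10 hc
        rw [e] at hc
        have h13 := hc.1.1 l h9.le
        simp only [Function.comp] at h10
        simp only [Pi.sub_apply, Prod.snd_sub, sub_eq_zero, h10] at h13
        exact h5 h13

lemma tame_Tst (b : Bool) (ρ : ℕ) (α : Bits) :
    Tame {T : Set (KS q) | ∃ k z φ, T = Tst r b ρ α k z φ} := by
  refine ((tame_all r (fun k => dep r k b ρ) fun k => by unfold dep; omega).preimage
    (Gam r b ρ α)).mono ?_
  rintro _ ⟨k, z, φ, rfl⟩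
  exact ⟨_, ⟨k, z, φ, rfl⟩, rfl⟩

lemma isClopen_Tst (b : Bool) (ρ : ℕ) (α : Bits) (k : ℕ) (z : PP q) (φ : Par q) :
    IsClopen (Tst r b ρ α k z φ) :=
  (isClopen_Cnd r k _ φ).preimage (f := fun e : KS q => Gam r b ρ α e - z)
    (((continuous_Gam r b ρ).comp (Continuous.prodMk_right α)).sub continuous_const)

lemma isLocallyConstant_slice {X K P : Type*} [TopologicalSpace X] [TopologicalSpace K]
    [TopologicalSpace P] [CompactSpace K] {f : X × K → P} (hf : Continuous f) {C : Set P}
    (hC : IsClopen C) : IsLocallyConstant fun x => {e | f (x, e) ∈ C} := by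
  rw [IsLocallyConstant.iff_eventually_eq]
  intro x₀
  have := isCompact_univ.eventually_forall_of_forall_eventually (x₀ := x₀)
    (P := fun x e => f (x, e) ∈ C ↔ f (x₀, e) ∈ C) (fun y _ => by
      have h1 : Tendsto (fun p : X × K => f (p.1, p.2)) (𝓝 (x₀, y)) (𝓝 (f (x₀, y))) :=
        hf.tendsto _
      have h2 : Tendsto (fun p : X × K => f (x₀, p.2)) (𝓝 (x₀, y)) (𝓝 (f (x₀, y))) :=
        (hf.comp (f := fun p : X × K => (x₀, p.2)) (by fun_prop)).tendsto (x₀, y)
      by_cases h : f (x₀, y) ∈ C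
      · filter_upwards [h1.eventually (hC.isOpen.mem_nhds h), h2.eventually (hC.isOpen.mem_nhds h)]
          with p h3 h4 using iff_of_true h3 h4
      · filter_upwards [h1.eventually (hC.isClosed.isOpen_compl.mem_nhds h),
          h2.eventually (hC.isClosed.isOpen_compl.mem_nhds h)] with p h3 h4
          using iff_of_false h3 h4)
  filter_upwards [this] with x hx
  ext e
  exact hx e (mem_univ e)

lemma isLocallyConstant_Tst (b : Bool) (ρ k : ℕ) (φ : Par q) :
    IsLocallyConstant fun p : Bits × PP q => Tst r b ρ p.1 k p.2 φ :=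
  isLocallyConstant_slice (f := fun p : (Bits × PP q) × KS q => Gam r b ρ p.1.1 p.2 - p.1.2)
    (((continuous_Gam r b ρ).comp (f := fun p : (Bits × PP q) × KS q => (p.1.1, p.2))
      (by fun_prop)).sub (by fun_prop)) (isClopen_Cnd r k _ φ)

lemma iota_inj (hq : 2 * r ≤ q) {b b' : Bool} {ρ ρ' : ℕ} (h1 : ρ < r) (h2 : ρ' < r)
    (h : iota q b ρ = iota q b' ρ') : b = b' ∧ ρ = ρ' := by
  unfold iota at h
  have h3 := Bool.toNat_le b
  have h4 := Bool.toNat_le b'
  rw [ZMod.natCast_eq_natCast_iff', Nat.mod_eq_of_lt (by omega), Nat.mod_eq_of_lt (by omega)] at h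
  cases b <;> cases b' <;> simp at h ⊢ <;> omega

lemma act_sub (α β : Bits) (ξ : ZMod q) (d d' : Om) :
    act r true β ξ d' - act r true α ξ d = lin r ξ (d' - d) + tr r ξ (β + α) := by
  simp only [act, if_true, map_sub, tr_add]
  have := om_add_self (tr r ξ α)
  rw [← sub_eq_zero]
  rw [← neg_eq_zero] at this
  rw [← this]
  abel

lemma sum_ite_le_one {ι : Type*} (s : Finset ι) (p : ι → Prop) [DecidablePred p]
    (h : ∀ i ∈ s, ∀ j ∈ s, p i → p j → i = j) : ∑ i ∈ s, (if p i then (1 : ℝ) else 0) ≤ 1 := by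
  rw [Finset.sum_boole]
  have : (s.filter p).card ≤ 1 := Finset.card_le_one.2 fun i hi j hj =>
    h i (Finset.mem_filter.1 hi).1 j (Finset.mem_filter.1 hj).1 (Finset.mem_filter.1 hi).2
      (Finset.mem_filter.1 hj).2
  exact_mod_cast this

lemma alternating (a b : ℕ → ℝ) (n : ℕ) (h1 : ∀ i, i < n → b i ≤ a i)
    (h2 : ∀ i, i + 1 < n → a (i + 1) ≤ b i) (h3 : a 0 ≤ 1) (h4 : ∀ i, 0 ≤ b i) :
    |∑ i ∈ Finset.range n, a i - ∑ i ∈ Finset.range n, b i| ≤ 1 := by
  rw [abs_le]
  constructor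
  · have : ∑ i ∈ Finset.range n, b i ≤ ∑ i ∈ Finset.range n, a i :=
      Finset.sum_le_sum fun i hi => h1 i (Finset.mem_range.1 hi)
    linarith
  · cases n with
    | zero => simp
    | succ n =>
      rw [Finset.sum_range_succ', Finset.sum_range_succ]
      have : ∑ i ∈ Finset.range n, a (i + 1) ≤ ∑ i ∈ Finset.range n, b i :=
        Finset.sum_le_sum fun i hi => h2 i (by have := Finset.mem_range.1 hi; omega)
      linarith [h4 n]

open Classical in
lemma pointwise (hq : 2 * r ≤ q) {α β : Bits} {k : ℕ}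
    (hαβ : ∀ i, i < k + 2 * r * r → (β + α) i = 0) (e : KS q) {φ φ' : Par q}
    (H : ∀ d, d ∈ pset r φ ↔ lin r (e.1 k) d + tr r (e.1 k) (β + α) ∈ pset r φ') (e' : KS q) :
    |∑ ρ ∈ Finset.range r, (if e' ∈ Tst r false ρ β k (Gam r false ρ α e) φ then (1 : ℝ) else 0) -
      ∑ ρ ∈ Finset.range r,
        (if e' ∈ Tst r true ρ β k (Gam r true ρ α e) φ' then (1 : ℝ) else 0)| ≤ 1 := by
  by_cases hd : ∀ l, l ≤ k → e'.1 l = e.1 l ∧ (e'.2 l).2 = (e.2 l).2
  · have e0 : ∀ ρ, e' ∈ Tst r false ρ β k (Gam r false ρ α e) φ ↔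
        (∀ l, l < k → (e'.2 l).1 - (e.2 l).1 ∈ Ub (dep r k false ρ)) ∧
          (e'.2 k).1 - (e.2 k).1 ∈ pset r φ := by
      intro ρ
      simp only [Tst, Cnd, Cyl, Gam, act, mem_ofPred_eq, Pi.sub_apply, Prod.mk_sub_mk,
        Bool.false_eq_true, if_false]
      refine and_congr_left fun _ => and_iff_right fun l hl => ?_
      rw [(hd l hl).1, (hd l hl).2, sub_self]
    have e1 : ∀ ρ, e' ∈ Tst r true ρ β k (Gam r true ρ α e) φ' ↔
        (∀ l, l < k → lin r (e.1 l) ((e'.2 l).1 - (e.2 l).1) + tr r (e.1 l) (β + α) ∈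
          Ub (dep r k true ρ)) ∧ (e'.2 k).1 - (e.2 k).1 ∈ pset r φ := by
      intro ρ
      simp only [Tst, Cnd, Cyl, Gam, mem_ofPred_eq, Pi.sub_apply, Prod.mk_sub_mk]
      rw [H, (hd k le_rfl).1, act_sub]
      refine and_congr_left fun _ => ?_
      rw [and_iff_right fun l hl => by rw [(hd l hl).1, (hd l hl).2, sub_self]]
      exact forall₂_congr fun l hl => by rw [(hd l hl.le).1, act_sub]
    simp only [e0, e1]
    have hτ : ∀ ρ, ρ < r → ∀ ξ : ZMod q, tr r ξ (β + α) ∈ Ub (dep r k true ρ) := by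
      intro ρ hρ ξ
      refine tr_Ub r ξ fun i hi => hαβ i (hi.trans_le ?_)
      have : 2 * r * (ρ + 1) ≤ 2 * r * r := Nat.mul_le_mul_left _ hρ
      simp only [dep, Bool.toNat_true]
      nlinarith
    refine alternating _ _ r (fun ρ hρ => ?_) (fun ρ hρ => ?_) (by split_ifs <;> simp)
      (fun ρ => by split_ifs <;> simp)
    · split_ifs with h1 h2 h2 <;> try (first | exact le_rfl | exact zero_le_one)
      exfalso
      refine h2 ⟨fun l hl => ?_, h1.2⟩
      have h3 := Ub_add (h1.1 l hl) (hτ ρ hρ (e.1 l))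
      rw [add_assoc, om_add_self, add_zero] at h3
      rw [← lin_lin r (e.1 l) ((e'.2 l).1 - (e.2 l).1)]
      exact lin_Ub r _ (by simpa [dep] using h3)
    · split_ifs with h1 h2 h2 <;> try (first | exact le_rfl | exact zero_le_one)
      exfalso
      refine h2 ⟨fun l hl => Ub_add (lin_Ub r _ (Ub_mono (le_of_eq ?_) (h1.1 l hl)))
        (hτ ρ (by omega) _), h1.2⟩
      simp only [dep, Bool.toNat_true, Bool.toNat_false]
      ring
  · push Not at hd
    obtain ⟨l, hl, hd⟩ := hd
    have key : ∀ (b : Bool) (ψ : Par q), ∑ ρ ∈ Finset.range r,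
        (if e' ∈ Tst r b ρ β k (Gam r b ρ α e) ψ then (1 : ℝ) else 0) ≤ 1 := by
      intro b ψ
      refine sum_ite_le_one _ _ fun i hi j hj h1 h2 => ?_
      by_contra hij
      have h3 := h1.1.1 l hl
      have h4 := h2.1.1 l hl
      simp only [Gam, Pi.sub_apply, Prod.mk_sub_mk] at h3 h4
      have h5 : iota q b i - iota q b j ≠ 0 := fun h => hij
        (iota_inj r hq (Finset.mem_range.1 hi) (Finset.mem_range.1 hj) (sub_eq_zero.1 h)).2
      have h6 : (iota q b i - iota q b j) * (e'.1 l - e.1 l) = 0 := by linear_combination h3 - h4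
      have h7 : e'.1 l = e.1 l := sub_eq_zero.1 ((mul_eq_zero.1 h6).resolve_left h5)
      refine hd h7 ?_
      rw [h7] at h3
      linear_combination h3
    have key2 : ∀ (b : Bool) (ψ : Par q), 0 ≤ ∑ ρ ∈ Finset.range r,
        (if e' ∈ Tst r b ρ β k (Gam r b ρ α e) ψ then (1 : ℝ) else 0) :=
      fun b ψ => Finset.sum_nonneg fun ρ _ => by split_ifs <;> simp
    rw [abs_le]
    constructor <;> linarith [key false φ, key true φ', key2 false φ, key2 true φ']

end Struct

end Pool.Agent.Lib.MP_ac4964_an
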