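import Mathlib

set_option autoImplicit false

open Set Filter Topology

namespace Pool.Agent.Lib.MP_ac4964_an

/-- The sequence of sets has a pointwise convergent subsequence. -/
def SubConv {X : Type*} (S : ℕ → Set X) : Prop :=
  ∃ φ : ℕ → ℕ, StrictMono φ ∧ ∀ x, (∀ᶠ n in atTop, x ∈ S (φ n)) ∨ (∀ᶠ n in atTop, x ∉ S (φ n))

/-- Every sequence from the family has a pointwise convergent subsequence. -/
def Tame {X : Type*} (𝒮 : Set (Set X)) : Prop := ∀ S : ℕ → Set X, (∀ n, S n ∈ 𝒮) → SubConv S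

variable {X Z : Type*}

lemma SubConv.of_comp {S : ℕ → Set X} {ψ : ℕ → ℕ} (hψ : StrictMono ψ)
    (h : SubConv fun n => S (ψ n)) : SubConv S := by
  obtain ⟨φ, h1, h2⟩ := h
  exact ⟨ψ ∘ φ, hψ.comp h1, h2⟩

lemma Tame.mono {𝒮 𝒯 : Set (Set X)} (h : Tame 𝒯) (hst : 𝒮 ⊆ 𝒯) : Tame 𝒮 :=
  fun S hS => h S fun n => hst (hS n)

lemma tame_iUnion {ι : Type*} [Finite ι] {𝒮 : ι → Set (Set X)} (h : ∀ i, Tame (𝒮 i)) :
    Tame (⋃ i, 𝒮 i) := by
  intro S hS
  have h1 : ∃ i, ∃ᶠ n in atTop, S n ∈ 𝒮 i := by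
    by_contra hc
    push Not at hc
    obtain ⟨n, hn⟩ := (eventually_all.2 hc).exists
    obtain ⟨i, hi⟩ := mem_iUnion.1 (hS n)
    exact hn i hi
  obtain ⟨i, hi⟩ := h1
  obtain ⟨ψ, h2, h3⟩ := extraction_of_frequently_atTop hi
  exact SubConv.of_comp h2 (h i _ h3)

lemma Tame.union {𝒮 𝒯 : Set (Set X)} (h1 : Tame 𝒮) (h2 : Tame 𝒯) : Tame (𝒮 ∪ 𝒯) := by
  rw [union_eq_iUnion]
  exact tame_iUnion fun b => by cases b <;> simpa

lemma tame_singleton (C : Set X) : Tame {C} := by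
  intro S hS
  refine ⟨id, strictMono_id, fun x => ?_⟩
  have : ∀ n, S n = C := hS
  by_cases hx : x ∈ C <;> simp [this, hx]

lemma tame_finite {𝒮 : Set (Set X)} (h : 𝒮.Finite) : Tame 𝒮 := by
  haveI := h.to_subtype
  have : 𝒮 = ⋃ C : 𝒮, {C.1} := by simp
  rw [this]
  exact tame_iUnion fun C => tame_singleton _

lemma Tame.preimage {𝒮 : Set (Set X)} (h : Tame 𝒮) (f : Z → X) :
    Tame {T | ∃ S ∈ 𝒮, T = f ⁻¹' S} := by
  intro T hT
  choose S h1 h2 using hT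
  obtain ⟨φ, h3, h4⟩ := h S h1
  exact ⟨φ, h3, fun x => by simpa [h2] using h4 (f x)⟩

lemma Tame.inter {𝒮 𝒯 : Set (Set X)} (h1 : Tame 𝒮) (h2 : Tame 𝒯) :
    Tame {U | ∃ S ∈ 𝒮, ∃ T ∈ 𝒯, U = S ∩ T} := by
  intro U hU
  choose S hS T hT e using hU
  obtain ⟨φ, h3, h4⟩ := h1 S hS
  obtain ⟨ψ, h5, h6⟩ := h2 (fun n => T (φ n)) fun n => hT _
  refine ⟨φ ∘ ψ, h3.comp h5, fun x => ?_⟩
  simp only [e, Function.comp, mem_inter_iff]
  rcases h4 x with h7 | h7
  · rcases h6 x with h8 | h8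
    · exact Or.inl ((h5.tendsto_atTop.eventually h7).and h8)
    · exact Or.inr (h8.mono fun n hn h => hn h.2)
  · exact Or.inr ((h5.tendsto_atTop.eventually h7).mono fun n hn h => hn h.1)

lemma subConv_of_types {T : Type*} [Countable T] (S : ℕ → Set X) (ty : X → T)
    (G : ℕ → T → Prop) (h : ∀ x, ∀ᶠ n in atTop, (x ∈ S n ↔ G n (ty x))) : SubConv S := by
  classical
  obtain ⟨g, φ, h1, h2⟩ := CompactSpace.tendsto_subseq fun n => fun t => decide (G n t)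
  refine ⟨φ, h1, fun x => ?_⟩
  have h3 := tendsto_pi_nhds.1 h2 (ty x)
  rw [nhds_discrete, tendsto_pure] at h3
  have h4 := h1.tendsto_atTop.eventually (h x)
  cases hg : g (ty x)
  · right
    filter_upwards [h3, h4] with n h5 h6
    rw [h6]; simpa [hg] using h5
  · left
    filter_upwards [h3, h4] with n h5 h6
    rw [h6]; simpa [hg] using h5

lemma tame_translates {P : Type*} [AddCommGroup P] [TopologicalSpace P] [IsTopologicalAddGroup P]
    [SeqCompactSpace P] {C : Set P} (hC : IsClopen C) : Tame {T | ∃ z, T = {y | y - z ∈ C}} := by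
  intro T hT
  choose z hz using hT
  obtain ⟨a, φ, h1, h2⟩ := SeqCompactSpace.tendsto_subseq z
  refine ⟨φ, h1, fun x => ?_⟩
  have h3 : Tendsto (fun n => x - z (φ n)) atTop (𝓝 (x - a)) := tendsto_const_nhds.sub h2
  simp only [hz, mem_ofPred_eq]
  by_cases hx : x - a ∈ C
  · exact Or.inl (h3.eventually (hC.isOpen.mem_nhds hx))
  · exact Or.inr (h3.eventually (hC.isClosed.isOpen_compl.mem_nhds hx))

end Pool.Agent.Lib.MP_ac4964_an
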